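import Mathlib

set_option autoImplicit false

namespace Pool.Agent.Work.MP_c971ef_nt

open Finset Nat ArithmeticFunction BoundingSieve
open scoped ArithmeticFunction.Moebius ArithmeticFunction.zeta BigOperators

noncomputable section

/-- Divisors of the sifting product up to `R`. -/
def dvs (s : BoundingSieve) (R : ℕ) : Finset ℕ :=
  (divisors s.prodPrimes).filter (fun d => d ≤ R)

/-- The Selberg sum. -/
def bigS (s : BoundingSieve) (R : ℕ) : ℝ := ∑ l ∈ dvs s R, s.selbergTerms l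

/-- The Selberg weights. -/
def wt (s : BoundingSieve) (R : ℕ) (d : ℕ) : ℝ :=
  if d ∈ dvs s R then
    (μ d : ℝ) * (s.nu d)⁻¹ * (bigS s R)⁻¹ *
      ∑ l ∈ (dvs s R).filter (fun l => d ∣ l), s.selbergTerms l
  else 0

theorem mem_dvs {s : BoundingSieve} {R d : ℕ} :
    d ∈ dvs s R ↔ d ∣ s.prodPrimes ∧ d ≤ R := by
  simp [dvs, s.prodPrimes_squarefree.ne_zero]

theorem one_mem_dvs {s : BoundingSieve} {R : ℕ} (hR : 1 ≤ R) : 1 ∈ dvs s R := by
  simp [mem_dvs, hR]

theorem selbergTerms_one (s : BoundingSieve) : s.selbergTerms 1 = 1 :=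
  (selbergTerms_isMultiplicative (s := s)).map_one

theorem bigS_pos (s : BoundingSieve) {R : ℕ} (hR : 1 ≤ R) : 0 < bigS s R := by
  unfold bigS
  apply Finset.sum_pos
  · intro l hl
    exact selbergTerms_pos (mem_dvs.mp hl).1
  · exact ⟨1, one_mem_dvs hR⟩

theorem wt_one (s : BoundingSieve) {R : ℕ} (hR : 1 ≤ R) : wt s R 1 = 1 := by
  unfold wt
  rw [if_pos (one_mem_dvs hR)]
  have h1 : s.nu 1 = 1 := s.nu_mult.map_one
  have h2 : (dvs s R).filter (fun l => 1 ∣ l) = dvs s R := by
    ext; simp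
  rw [h2, h1]
  have := (bigS_pos s hR).ne'
  simp only [moebius_apply_one, Int.cast_one, inv_one, one_mul]
  change (bigS s R)⁻¹ * bigS s R = 1
  field_simp

/-- Moebius sum over the multiples of `l` dividing a squarefree `m`. -/
theorem sum_moebius_mult {m l : ℕ} (hm : Squarefree m) :
    ∑ d ∈ (divisors m).filter (fun d => l ∣ d), (μ d : ℝ) = if l = m then (μ l : ℝ) else 0 := by
  by_cases hl : l ∣ m
  · obtain ⟨e, rfl⟩ := hl
    have hne : l * e ≠ 0 := hm.ne_zero
    have hl0 : l ≠ 0 := left_ne_zero_of_mul hne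
    have he0 : e ≠ 0 := right_ne_zero_of_mul hne
    have hcop : Nat.Coprime l e := coprime_of_squarefree_mul hm
    have himg : (divisors (l * e)).filter (fun d => l ∣ d) = (divisors e).image (fun x => l * x) := by
      ext d
      simp only [mem_filter, mem_divisors, mem_image]
      constructor
      · rintro ⟨⟨h1, _⟩, ⟨c, rfl⟩⟩
        exact ⟨c, ⟨(Nat.mul_dvd_mul_iff_left (Nat.pos_of_ne_zero hl0)).mp h1, he0⟩, rfl⟩
      · rintro ⟨c, ⟨h1, _⟩, rfl⟩
        exact ⟨⟨Nat.mul_dvd_mul_left l h1, hne⟩, Nat.dvd_mul_right l c⟩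
    rw [himg, Finset.sum_image (by
      intro a _ b _ hab
      exact Nat.eq_of_mul_eq_mul_left (Nat.pos_of_ne_zero hl0) hab)]
    have h1 : ∀ x ∈ divisors e, (μ (l * x) : ℝ) = (μ l : ℝ) * (μ x : ℝ) := by
      intro x hx
      have hx' : x ∣ e := (mem_divisors.mp hx).1
      have : Nat.Coprime l x := Nat.Coprime.coprime_dvd_right hx' hcop
      rw [isMultiplicative_moebius.map_mul_of_coprime this]
      push_cast; ring
    rw [Finset.sum_congr rfl h1, ← Finset.mul_sum]
    have h2 : ∑ i ∈ divisors e, (μ i : ℝ) = if e = 1 then 1 else 0 := by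
      have h3 : ((μ * (ζ : ArithmeticFunction ℤ) : ArithmeticFunction ℤ)) e = ∑ i ∈ divisors e, μ i :=
        coe_mul_zeta_apply
      have h4 : (μ * (ζ : ArithmeticFunction ℤ) : ArithmeticFunction ℤ) = 1 := moebius_mul_coe_zeta
      rw [h4, one_apply] at h3
      rw [← Int.cast_sum, ← h3]
      split_ifs <;> simp
    rw [h2]
    by_cases he1 : e = 1
    · simp [he1]
    · have : l ≠ l * e := by
        intro h
        apply he1
        have := Nat.eq_of_mul_eq_mul_left (Nat.pos_of_ne_zero hl0) ((mul_one l).trans h)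
        exact this.symm
      rw [if_neg he1, if_neg this]; simp
  · have : (divisors m).filter (fun d => l ∣ d) = ∅ := by
      ext d
      simp only [mem_filter, mem_divisors, Finset.notMem_empty, iff_false, not_and]
      rintro ⟨h1, _⟩ h2
      exact hl (h2.trans h1)
    rw [this, Finset.sum_empty, if_neg]
    rintro rfl
    exact hl dvd_rfl

theorem sum_nu_wt (s : BoundingSieve) {R : ℕ} {l : ℕ} (hl : l ∣ s.prodPrimes) :
    (∑ d ∈ divisors s.prodPrimes, if l ∣ d then s.nu d * wt s R d else 0) =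
      if l ≤ R then (bigS s R)⁻¹ * s.selbergTerms l * (μ l : ℝ) else 0 := by
  have hP0 : s.prodPrimes ≠ 0 := s.prodPrimes_squarefree.ne_zero
  have step1 : (∑ d ∈ divisors s.prodPrimes, if l ∣ d then s.nu d * wt s R d else 0) =
      ∑ d ∈ dvs s R, ∑ m ∈ dvs s R, if l ∣ d ∧ d ∣ m then
        (bigS s R)⁻¹ * s.selbergTerms m * (μ d : ℝ) else 0 := by
    rw [dvs, Finset.sum_filter]
    apply Finset.sum_congr rfl
    intro d hd
    have hd1 : d ∣ s.prodPrimes := (mem_divisors.mp hd).1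
    by_cases hdR : d ≤ R
    · rw [if_pos hdR]
      by_cases hld : l ∣ d
      · simp only [hld, true_and, if_true]
        unfold wt
        rw [if_pos (mem_dvs.mpr ⟨hd1, hdR⟩)]
        have hnu : s.nu d ≠ 0 := nu_ne_zero hd1
        rw [← Finset.sum_filter]
        rw [Finset.mul_sum, Finset.mul_sum]
        apply Finset.sum_congr rfl
        intro m _
        field_simp
      · simp [hld]
    · rw [if_neg hdR]
      unfold wt
      rw [if_neg (fun h => hdR (mem_dvs.mp h).2)]
      simp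
  rw [step1, Finset.sum_comm]
  have step2 : ∀ m ∈ dvs s R, (∑ d ∈ dvs s R, if l ∣ d ∧ d ∣ m then
        (bigS s R)⁻¹ * s.selbergTerms m * (μ d : ℝ) else 0) =
        if l = m then (bigS s R)⁻¹ * s.selbergTerms m * (μ l : ℝ) else 0 := by
    intro m hm
    obtain ⟨hm1, hmR⟩ := mem_dvs.mp hm
    have hm0 : m ≠ 0 := ne_zero_of_dvd_ne_zero hP0 hm1
    have hmsq : Squarefree m := squarefree_of_dvd_prodPrimes hm1
    have hset : (dvs s R).filter (fun d => l ∣ d ∧ d ∣ m) = (divisors m).filter (fun d => l ∣ d) := by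
      ext d
      simp only [mem_filter, mem_dvs, mem_divisors]
      constructor
      · rintro ⟨⟨_, _⟩, h3, h4⟩
        exact ⟨⟨h4, hm0⟩, h3⟩
      · rintro ⟨⟨h1, _⟩, h3⟩
        exact ⟨⟨h1.trans hm1, (Nat.le_of_dvd (Nat.pos_of_ne_zero hm0) h1).trans hmR⟩, h3, h1⟩
    rw [← Finset.sum_filter, hset, ← Finset.mul_sum, sum_moebius_mult hmsq]
    split_ifs <;> simp
  rw [Finset.sum_congr rfl step2, Finset.sum_ite_eq]
  by_cases hlR : l ≤ R
  · rw [if_pos hlR, if_pos (mem_dvs.mpr ⟨hl, hlR⟩)]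
  · rw [if_neg hlR, if_neg (fun h => hlR (mem_dvs.mp h).2)]

theorem mainSum_wt (s : BoundingSieve) {R : ℕ} (hR : 1 ≤ R) :
    s.mainSum (lambdaSquared (wt s R)) = (bigS s R)⁻¹ := by
  rw [mainSum_lambdaSquared_eq_sum_mul_sum_sq]
  have h1 : ∀ l ∈ divisors s.prodPrimes, (s.selbergTerms l)⁻¹ *
        (∑ d ∈ divisors s.prodPrimes, if l ∣ d then s.nu d * wt s R d else 0) ^ 2 =
        if l ≤ R then (bigS s R)⁻¹ ^ 2 * s.selbergTerms l else 0 := by
    intro l hl
    have hl1 : l ∣ s.prodPrimes := (mem_divisors.mp hl).1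
    rw [sum_nu_wt s hl1]
    by_cases hlR : l ≤ R
    · rw [if_pos hlR, if_pos hlR]
      have hg : s.selbergTerms l ≠ 0 := (selbergTerms_pos hl1).ne'
      have hsq : Squarefree l := squarefree_of_dvd_prodPrimes hl1
      have hmu : (μ l : ℝ) ^ 2 = 1 := by
        have := moebius_sq_eq_one_of_squarefree hsq
        exact_mod_cast this
      calc (s.selbergTerms l)⁻¹ * ((bigS s R)⁻¹ * s.selbergTerms l * (μ l : ℝ)) ^ 2
          = (bigS s R)⁻¹ ^ 2 * ((s.selbergTerms l)⁻¹ * s.selbergTerms l) * s.selbergTerms l *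
            (μ l : ℝ) ^ 2 := by ring
        _ = _ := by rw [hmu, inv_mul_cancel₀ hg]; ring
    · rw [if_neg hlR, if_neg hlR]; simp
  rw [Finset.sum_congr rfl h1, ← Finset.sum_filter]
  change ∑ l ∈ dvs s R, (bigS s R)⁻¹ ^ 2 * s.selbergTerms l = _
  rw [← Finset.mul_sum]
  change (bigS s R)⁻¹ ^ 2 * bigS s R = _
  have := (bigS_pos s hR).ne'
  field_simp

theorem abs_wt_le (s : BoundingSieve) {R : ℕ} (hR : 1 ≤ R) {d : ℕ} (hd : d ∈ dvs s R) :
    |wt s R d| ≤ (s.nu d)⁻¹ := by
  unfold wt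
  rw [if_pos hd]
  obtain ⟨hd1, hdR⟩ := mem_dvs.mp hd
  have hnu : 0 < s.nu d := nu_pos_of_dvd_prodPrimes hd1
  have hS := bigS_pos s hR
  have hsum : ∑ l ∈ (dvs s R).filter (fun l => d ∣ l), s.selbergTerms l ≤ bigS s R := by
    unfold bigS
    apply Finset.sum_le_sum_of_subset_of_nonneg (Finset.filter_subset _ _)
    intro l hl _
    exact (selbergTerms_pos (mem_dvs.mp hl).1).le
  have hsum0 : 0 ≤ ∑ l ∈ (dvs s R).filter (fun l => d ∣ l), s.selbergTerms l := by
    apply Finset.sum_nonneg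
    intro l hl
    exact (selbergTerms_pos (mem_dvs.mp (Finset.mem_filter.mp hl).1).1).le
  have hmu : |(μ d : ℝ)| ≤ 1 := by
    have := @abs_moebius_le_one d
    exact_mod_cast this
  rw [abs_mul, abs_mul, abs_mul, abs_of_pos (inv_pos.mpr hnu), abs_of_pos (inv_pos.mpr hS),
    abs_of_nonneg hsum0]
  calc |(μ d : ℝ)| * (s.nu d)⁻¹ * (bigS s R)⁻¹ * ∑ l ∈ (dvs s R).filter (fun l => d ∣ l), s.selbergTerms l
      ≤ 1 * (s.nu d)⁻¹ * (bigS s R)⁻¹ * bigS s R := by gcongr
    _ = (s.nu d)⁻¹ := by field_simp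

theorem wt_eq_zero {s : BoundingSieve} {R d : ℕ} (hd : d ∉ dvs s R) : wt s R d = 0 := by
  unfold wt; rw [if_neg hd]

theorem errSum_lambdaSquared_le (s : BoundingSieve) (w : ℕ → ℝ) :
    s.errSum (lambdaSquared w) ≤
      ∑ d1 ∈ divisors s.prodPrimes, ∑ d2 ∈ divisors s.prodPrimes,
        |w d1| * |w d2| * |s.rem (Nat.lcm d1 d2)| := by
  have hP0 : s.prodPrimes ≠ 0 := s.prodPrimes_squarefree.ne_zero
  unfold BoundingSieve.errSum
  have h1 : ∀ d ∈ divisors s.prodPrimes, |lambdaSquared w d| * |s.rem d| ≤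
      ∑ d1 ∈ divisors s.prodPrimes, ∑ d2 ∈ divisors s.prodPrimes,
        if d = Nat.lcm d1 d2 then |w d1| * |w d2| * |s.rem d| else 0 := by
    intro d hd
    obtain ⟨hd1, _⟩ := mem_divisors.mp hd
    have hsub : divisors d ⊆ divisors s.prodPrimes := Nat.divisors_subset_of_dvd hP0 hd1
    unfold lambdaSquared
    calc |∑ d1 ∈ d.divisors, ∑ d2 ∈ d.divisors, if d = Nat.lcm d1 d2 then w d1 * w d2 else 0| *
          |s.rem d|
        ≤ (∑ d1 ∈ d.divisors, ∑ d2 ∈ d.divisors, if d = Nat.lcm d1 d2 then |w d1| * |w d2| else 0) *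
          |s.rem d| := by
          gcongr
          refine (Finset.abs_sum_le_sum_abs _ _).trans ?_
          apply Finset.sum_le_sum
          intro d1 _
          refine (Finset.abs_sum_le_sum_abs _ _).trans ?_
          apply Finset.sum_le_sum
          intro d2 _
          split_ifs
          · rw [abs_mul]
          · simp
      _ = ∑ d1 ∈ d.divisors, ∑ d2 ∈ d.divisors,
            if d = Nat.lcm d1 d2 then |w d1| * |w d2| * |s.rem d| else 0 := by
          rw [Finset.sum_mul]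
          apply Finset.sum_congr rfl
          intro d1 _
          rw [Finset.sum_mul]
          apply Finset.sum_congr rfl
          intro d2 _
          split_ifs <;> simp
      _ ≤ ∑ d1 ∈ divisors s.prodPrimes, ∑ d2 ∈ d.divisors,
            if d = Nat.lcm d1 d2 then |w d1| * |w d2| * |s.rem d| else 0 := by
          apply Finset.sum_le_sum_of_subset_of_nonneg hsub
          intro d1 _ _
          apply Finset.sum_nonneg
          intro d2 _
          split_ifs
          · positivity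
          · rfl
      _ ≤ _ := by
          apply Finset.sum_le_sum
          intro d1 _
          apply Finset.sum_le_sum_of_subset_of_nonneg hsub
          intro d2 _ _
          split_ifs
          · positivity
          · rfl
  refine (Finset.sum_le_sum h1).trans ?_
  rw [Finset.sum_comm]
  apply Finset.sum_le_sum
  intro d1 hd1
  rw [Finset.sum_comm]
  apply Finset.sum_le_sum
  intro d2 hd2
  rw [Finset.sum_ite_eq_of_mem' (divisors s.prodPrimes) (Nat.lcm d1 d2)]
  rw [mem_divisors]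
  exact ⟨Nat.lcm_dvd (mem_divisors.mp hd1).1 (mem_divisors.mp hd2).1, hP0⟩

/-- The Selberg sieve upper bound (with a crude error term). -/
theorem selberg_bound (s : BoundingSieve) {R : ℕ} (hR : 1 ≤ R) :
    s.siftedSum ≤ s.totalMass / bigS s R +
      ∑ d1 ∈ dvs s R, ∑ d2 ∈ dvs s R,
        (s.nu d1)⁻¹ * (s.nu d2)⁻¹ * |s.rem (Nat.lcm d1 d2)| := by
  have h0 := siftedSum_le_mainSum_errSum_of_upperMoebius (s := s) _
    (upperMoebius_lambdaSquared (wt s R) (wt_one s hR))
  rw [mainSum_wt s hR] at h0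
  refine h0.trans ?_
  rw [div_eq_mul_inv]
  gcongr
  refine (errSum_lambdaSquared_le s (wt s R)).trans ?_
  have h2 : ∑ d1 ∈ divisors s.prodPrimes, ∑ d2 ∈ divisors s.prodPrimes,
        |wt s R d1| * |wt s R d2| * |s.rem (Nat.lcm d1 d2)| =
      ∑ d1 ∈ dvs s R, ∑ d2 ∈ dvs s R,
        |wt s R d1| * |wt s R d2| * |s.rem (Nat.lcm d1 d2)| := by
    unfold dvs
    rw [Finset.sum_filter]
    apply Finset.sum_congr rfl
    intro d1 hd1
    by_cases h : d1 ≤ R
    · rw [if_pos h, Finset.sum_filter]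
      apply Finset.sum_congr rfl
      intro d2 hd2
      by_cases h' : d2 ≤ R
      · rw [if_pos h']
      · rw [if_neg h', wt_eq_zero (fun hh => h' (mem_dvs.mp hh).2)]; simp
    · rw [if_neg h, wt_eq_zero (fun hh => h (mem_dvs.mp hh).2)]; simp
  rw [h2]
  apply Finset.sum_le_sum
  intro d1 hd1
  apply Finset.sum_le_sum
  intro d2 hd2
  have hn1 : 0 < s.nu d1 := nu_pos_of_dvd_prodPrimes (mem_dvs.mp hd1).1
  have hn2 : 0 < s.nu d2 := nu_pos_of_dvd_prodPrimes (mem_dvs.mp hd2).1
  have := abs_wt_le s hR hd1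
  have := abs_wt_le s hR hd2
  gcongr

end

end Pool.Agent.Work.MP_c971ef_nt
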