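import Mathlib
import Pool.Agent.Work.MP_c971ef_nt.Selberg

set_option autoImplicit false

namespace Pool.Agent.Work.MP_c971ef_nt

open Finset Nat ArithmeticFunction BoundingSieve
open scoped ArithmeticFunction.Moebius ArithmeticFunction.zeta BigOperators

noncomputable section

/-- The completely multiplicative function with value `t p` at the prime `p`. -/
def cm (t : ℕ → ℝ) : ℕ →* ℝ where
  toFun m := if m = 0 then 0 else m.factorization.prod (fun p e => t p ^ e)
  map_one' := by simp
  map_mul' a b := by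
    by_cases ha : a = 0
    · simp [ha]
    by_cases hb : b = 0
    · simp [hb]
    rw [if_neg ha, if_neg hb, if_neg (mul_ne_zero ha hb), Nat.factorization_mul ha hb]
    rw [Finsupp.prod_add_index']
    · intro p; simp
    · intro p e f; rw [pow_add]

theorem cm_apply (t : ℕ → ℝ) {m : ℕ} (hm : m ≠ 0) :
    cm t m = m.factorization.prod (fun p e => t p ^ e) := by
  change (if m = 0 then 0 else m.factorization.prod (fun p e => t p ^ e)) = _
  rw [if_neg hm]

theorem cm_prime (t : ℕ → ℝ) {p : ℕ} (hp : p.Prime) : cm t p = t p := by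
  rw [cm_apply t hp.ne_zero, hp.factorization]
  simp

theorem cm_nonneg {t : ℕ → ℝ} (ht : ∀ p, p.Prime → 0 ≤ t p) (m : ℕ) : 0 ≤ cm t m := by
  by_cases hm : m = 0
  · subst hm
    have h0 : cm t 0 = 0 := by
      change (if (0:ℕ) = 0 then (0:ℝ) else (Nat.factorization 0).prod (fun p e => t p ^ e)) = 0
      simp
    rw [h0]
  rw [cm_apply t hm]
  unfold Finsupp.prod
  apply Finset.prod_nonneg
  intro p hp
  exact pow_nonneg (ht p (Nat.prime_of_mem_primeFactors (by simpa using hp))) _

theorem cm_squarefree {t : ℕ → ℝ} {l : ℕ} (hl : Squarefree l) :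
    cm t l = ∏ p ∈ l.primeFactors, t p := by
  conv_lhs => rw [← Nat.prod_primeFactors_of_squarefree hl]
  rw [map_prod]
  apply Finset.prod_congr rfl
  intro p hp
  exact cm_prime t (Nat.prime_of_mem_primeFactors hp)

theorem sum_cm_le {t : ℕ → ℝ} (ht : ∀ p, p.Prime → 0 ≤ t p) (ht1 : ∀ p, p.Prime → t p < 1)
    {l : ℕ} (hl : Squarefree l) (T : Finset ℕ)
    (hT : ∀ m ∈ T, m ≠ 0 ∧ m.primeFactors = l.primeFactors) :
    ∑ m ∈ T, cm t m ≤ cm t l * ∏ p ∈ l.primeFactors, (1 - t p)⁻¹ := by
  have hl0 : l ≠ 0 := hl.ne_zero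
  have hdvd : ∀ m ∈ T, l ∣ m := by
    intro m hm
    obtain ⟨hm0, hmp⟩ := hT m hm
    rw [← Nat.prod_primeFactors_of_squarefree hl, ← hmp]
    exact Nat.prod_primeFactors_dvd m
  have h1 : ∑ m ∈ T, cm t m = cm t l * ∑ m ∈ T, cm t (m / l) := by
    rw [Finset.mul_sum]
    apply Finset.sum_congr rfl
    intro m hm
    rw [← map_mul, Nat.mul_div_cancel' (hdvd m hm)]
  rw [h1]
  apply mul_le_mul_of_nonneg_left _ (cm_nonneg ht l)
  have hnorm : ∀ {p : ℕ}, p.Prime → ‖cm t p‖ < 1 := by
    intro p hp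
    rw [cm_prime t hp, Real.norm_of_nonneg (ht p hp)]
    exact ht1 p hp
  have hHS := (EulerProduct.summable_and_hasSum_factoredNumbers_prod_filter_prime_geometric
    hnorm l.primeFactors).2
  have hfilt : (l.primeFactors.filter (fun p => p.Prime)) = l.primeFactors := by
    apply Finset.filter_true_of_mem
    intro p hp
    exact Nat.prime_of_mem_primeFactors hp
  rw [hfilt] at hHS
  have hprod : ∏ p ∈ l.primeFactors, (1 - cm t p)⁻¹ = ∏ p ∈ l.primeFactors, (1 - t p)⁻¹ := by
    apply Finset.prod_congr rfl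
    intro p hp
    rw [cm_prime t (Nat.prime_of_mem_primeFactors hp)]
  rw [hprod] at hHS
  have hHS' : HasSum ((factoredNumbers l.primeFactors).indicator (fun m => cm t m))
      (∏ p ∈ l.primeFactors, (1 - t p)⁻¹) := by
    rw [← hasSum_subtype_iff_indicator]
    exact hHS
  have hinj : Set.InjOn (fun m => m / l) (T : Set ℕ) := by
    intro a ha b hb hab
    have h1 := Nat.mul_div_cancel' (hdvd a ha)
    have h2 := Nat.mul_div_cancel' (hdvd b hb)
    simp only at hab
    rw [← h1, ← h2, hab]
  have h2 : ∑ m ∈ T, cm t (m / l) = ∑ x ∈ T.image (fun m => m / l), cm t x := by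
    rw [Finset.sum_image hinj]
  rw [h2]
  have h3 : ∀ x ∈ T.image (fun m => m / l), x ∈ factoredNumbers l.primeFactors := by
    intro x hx
    obtain ⟨m, hm, rfl⟩ := Finset.mem_image.mp hx
    obtain ⟨hm0, hmp⟩ := hT m hm
    have hne : m / l ≠ 0 := by
      have := Nat.div_pos (Nat.le_of_dvd (Nat.pos_of_ne_zero hm0) (hdvd m hm))
        (Nat.pos_of_ne_zero hl0)
      omega
    apply mem_factoredNumbers_of_primeFactors_subset hne
    rw [← hmp]
    exact Nat.primeFactors_mono (Nat.div_dvd_of_dvd (hdvd m hm)) hm0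
  calc ∑ x ∈ T.image (fun m => m / l), cm t x
      = ∑ x ∈ T.image (fun m => m / l),
          (factoredNumbers l.primeFactors).indicator (fun m => cm t m) x := by
        apply Finset.sum_congr rfl
        intro x hx
        rw [Set.indicator_of_mem (h3 x hx)]
    _ ≤ _ := by
        apply sum_le_hasSum _ _ hHS'
        intro i _
        exact Set.indicator_nonneg (fun m _ => cm_nonneg ht m) i

/-- Lower bound for the Selberg sum by a sum of a completely multiplicative function. -/
theorem sum_cm_le_bigS (s : BoundingSieve) (R : ℕ) (t : ℕ → ℝ)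
    (ht : ∀ p, p.Prime → 0 ≤ t p) (ht1 : ∀ p, p.Prime → t p < 1)
    (hP : ∀ p, p.Prime → p ≤ R → p ∣ s.prodPrimes)
    (hts : ∀ p, p.Prime → p ≤ R → t p = s.nu p) :
    ∑ m ∈ Finset.Icc 1 R, cm t m ≤ bigS s R := by
  classical
  have hP0 : s.prodPrimes ≠ 0 := s.prodPrimes_squarefree.ne_zero
  -- the radical map
  have hmaps : ∀ m ∈ Finset.Icc 1 R, (∏ p ∈ m.primeFactors, p) ∈ dvs s R := by
    intro m hm
    rw [Finset.mem_Icc] at hm
    rw [mem_dvs]
    refine ⟨?_, ?_⟩
    · apply Finset.prod_primes_dvd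
      · intro p hp
        exact (Nat.prime_of_mem_primeFactors hp).prime
      · intro p hp
        apply hP p (Nat.prime_of_mem_primeFactors hp)
        exact (Nat.le_of_mem_primeFactors hp).trans hm.2
    · exact (Nat.le_of_dvd (by omega) (Nat.prod_primeFactors_dvd m)).trans hm.2
  rw [← Finset.sum_fiberwise_of_maps_to hmaps]
  unfold bigS
  apply Finset.sum_le_sum
  intro l hl
  obtain ⟨hl1, hlR⟩ := mem_dvs.mp hl
  have hsq : Squarefree l := squarefree_of_dvd_prodPrimes hl1
  refine (sum_cm_le ht ht1 hsq _ ?_).trans ?_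
  · intro m hm
    rw [Finset.mem_filter, Finset.mem_Icc] at hm
    refine ⟨by omega, ?_⟩
    rw [← hm.2, Nat.primeFactors_prod]
    intro p hp
    exact Nat.prime_of_mem_primeFactors hp
  · rw [selbergTerms_apply, cm_squarefree hsq, ← prod_primeFactors_nu hl1]
    have hle : ∀ p ∈ l.primeFactors, t p = s.nu p := by
      intro p hp
      apply hts p (Nat.prime_of_mem_primeFactors hp)
      exact (Nat.le_of_mem_primeFactors hp).trans hlR
    rw [Finset.prod_congr rfl hle]
    have : ∏ p ∈ l.primeFactors, (1 - t p)⁻¹ = ∏ p ∈ l.primeFactors, (1 - s.nu p)⁻¹ := by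
      apply Finset.prod_congr rfl
      intro p hp
      rw [hle p hp]
    rw [this]

end

end Pool.Agent.Work.MP_c971ef_nt
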