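import Mathlib
import Pool.Agent.Work.MP_c971ef_nt.CompMult

set_option autoImplicit false

namespace Pool.Agent.Work.MP_c971ef_nt

open Finset Nat ArithmeticFunction
open scoped BigOperators

noncomputable section

/-- Reordering a sum of a Dirichlet convolution. -/
theorem sum_conv (F : ℕ → ℕ → ℝ) (y : ℕ) :
    ∑ n ∈ Ioc 0 y, ∑ x ∈ n.divisorsAntidiagonal, F x.1 x.2 =
      ∑ a ∈ Ioc 0 y, ∑ c ∈ Ioc 0 (y / a), F a c := by
  have h1 : ∀ n ∈ Ioc 0 y, ∑ x ∈ n.divisorsAntidiagonal, F x.1 x.2 =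
      ∑ x ∈ Ioc 0 y ×ˢ Ioc 0 y, if x.1 * x.2 = n then F x.1 x.2 else 0 := by
    intro n hn
    rw [Finset.mem_Ioc] at hn
    rw [Nat.divisorsAntidiagonal_eq_prod_filter_of_le (by omega) hn.2, Finset.sum_filter]
  rw [Finset.sum_congr rfl h1, Finset.sum_comm, Finset.sum_product]
  apply Finset.sum_congr rfl
  intro a ha
  rw [Finset.mem_Ioc] at ha
  have h2 : ∀ c ∈ Ioc 0 y, (∑ n ∈ Ioc 0 y, if a * c = n then F a c else 0) =
      if a * c ≤ y then F a c else 0 := by
    intro c hc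
    rw [Finset.mem_Ioc] at hc
    rw [Finset.sum_ite_eq]
    have : 0 < a * c := Nat.mul_pos ha.1 hc.1
    simp [Finset.mem_Ioc, this]
  rw [Finset.sum_congr rfl h2, ← Finset.sum_filter]
  congr 1
  ext c
  simp only [mem_filter, mem_Ioc]
  rw [Nat.le_div_iff_mul_le ha.1, mul_comm c a]
  constructor
  · rintro ⟨⟨h1, h2⟩, h3⟩; exact ⟨h1, h3⟩
  · rintro ⟨h1, h3⟩
    refine ⟨⟨h1, ?_⟩, h3⟩
    calc c ≤ a * c := Nat.le_mul_of_pos_left c ha.1
      _ ≤ y := h3

theorem sum_conv_div (f g : ArithmeticFunction ℝ) (y : ℕ) :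
    ∑ n ∈ Ioc 0 y, (f * g) n / n = ∑ a ∈ Ioc 0 y, f a / a * ∑ c ∈ Ioc 0 (y / a), g c / c := by
  have h1 : ∀ n ∈ Ioc 0 y, (f * g) n / n =
      ∑ x ∈ n.divisorsAntidiagonal, (f x.1 / x.1) * (g x.2 / x.2) := by
    intro n hn
    rw [ArithmeticFunction.mul_apply, Finset.sum_div]
    apply Finset.sum_congr rfl
    intro x hx
    obtain ⟨h1, h2⟩ := Nat.mem_divisorsAntidiagonal.mp hx
    rw [← h1]
    push_cast
    rw [_root_.div_mul_div_comm]
  rw [Finset.sum_congr rfl h1, sum_conv (fun a c => (f a / a) * (g c / c))]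
  apply Finset.sum_congr rfl
  intro a _
  rw [Finset.mul_sum]

theorem sum_conv_le (f g : ArithmeticFunction ℝ) (hf : ∀ n, 0 ≤ f n) (hg : ∀ n, 0 ≤ g n) (y : ℕ) :
    ∑ n ∈ Ioc 0 y, (f * g) n / n ≤ (∑ a ∈ Ioc 0 y, f a / a) * ∑ c ∈ Ioc 0 y, g c / c := by
  rw [sum_conv_div, Finset.sum_mul]
  apply Finset.sum_le_sum
  intro a _
  apply mul_le_mul_of_nonneg_left _ (div_nonneg (hf a) (Nat.cast_nonneg _))
  apply Finset.sum_le_sum_of_subset_of_nonneg
  · intro c hc
    rw [Finset.mem_Ioc] at hc ⊢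
    exact ⟨hc.1, hc.2.trans (Nat.div_le_self _ _)⟩
  · intro c _ _
    exact div_nonneg (hg c) (Nat.cast_nonneg _)

theorem le_sum_conv (f g : ArithmeticFunction ℝ) (hf : ∀ n, 0 ≤ f n) (hg : ∀ n, 0 ≤ g n)
    {A y : ℕ} (hA : A * A ≤ y) :
    (∑ a ∈ Ioc 0 A, f a / a) * ∑ c ∈ Ioc 0 A, g c / c ≤ ∑ n ∈ Ioc 0 y, (f * g) n / n := by
  rw [sum_conv_div, Finset.sum_mul]
  have hAy : A ≤ y := by
    rcases Nat.eq_zero_or_pos A with h | h
    · omega
    · exact (Nat.le_mul_of_pos_left A h).trans hA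
  refine le_trans ?_ (Finset.sum_le_sum_of_subset_of_nonneg
    (s := Ioc 0 A) (t := Ioc 0 y) ?_ ?_)
  · apply Finset.sum_le_sum
    intro a ha
    rw [Finset.mem_Ioc] at ha
    apply mul_le_mul_of_nonneg_left _ (div_nonneg (hf a) (Nat.cast_nonneg _))
    apply Finset.sum_le_sum_of_subset_of_nonneg
    · intro c hc
      rw [Finset.mem_Ioc] at hc ⊢
      refine ⟨hc.1, ?_⟩
      rw [Nat.le_div_iff_mul_le ha.1]
      calc c * a ≤ A * A := Nat.mul_le_mul hc.2 ha.2
        _ ≤ y := hA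
    · intro c _ _
      exact div_nonneg (hg c) (Nat.cast_nonneg _)
  · intro a ha
    rw [Finset.mem_Ioc] at ha ⊢
    omega
  · intro a _ _
    apply mul_nonneg (div_nonneg (hf a) (Nat.cast_nonneg _))
    apply Finset.sum_nonneg
    intro c _
    exact div_nonneg (hg c) (Nat.cast_nonneg _)

/-- Comparison of multiplicative functions at prime powers. -/
theorem mult_le {f g : ArithmeticFunction ℝ} (hf : f.IsMultiplicative) (hg : g.IsMultiplicative)
    (hf0 : ∀ n, 0 ≤ f n) (hg0 : ∀ n, 0 ≤ g n)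
    (h : ∀ p k : ℕ, p.Prime → 0 < k → f (p ^ k) ≤ g (p ^ k)) (n : ℕ) : f n ≤ g n := by
  induction n using Nat.recOnPosPrimePosCoprime with
  | prime_pow p n hp hn => exact h p n hp hn
  | zero => simp
  | one => rw [hf.map_one, hg.map_one]
  | coprime a b ha hb hab iha ihb =>
    rw [hf.map_mul_of_coprime hab, hg.map_mul_of_coprime hab]
    exact mul_le_mul iha ihb (hf0 b) (hg0 a)

/-- The indicator of the nonzero squares. -/
def sqf : ArithmeticFunction ℝ := ⟨fun n => if n ≠ 0 ∧ IsSquare n then 1 else 0, by simp⟩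

theorem sqf_apply (n : ℕ) : sqf n = if n ≠ 0 ∧ IsSquare n then 1 else 0 := rfl

theorem sqf_nonneg (n : ℕ) : 0 ≤ sqf n := by
  rw [sqf_apply]; split_ifs <;> norm_num

theorem isSquare_mul_iff {m n : ℕ} (hmn : Nat.Coprime m n) :
    IsSquare (m * n) ↔ IsSquare m ∧ IsSquare n := by
  constructor
  · rintro ⟨c, hc⟩
    have h2 : m * n = c ^ 2 := by rw [hc]; ring
    have hm : ∃ d, m = d ^ 2 := by
      apply exists_eq_pow_of_mul_eq_pow _ h2
      rw [Nat.isUnit_iff]; exact hmn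
    have hn : ∃ d, n = d ^ 2 := by
      rw [mul_comm] at h2
      apply exists_eq_pow_of_mul_eq_pow _ h2
      rw [Nat.isUnit_iff]; exact hmn.symm
    obtain ⟨d, hd⟩ := hm
    obtain ⟨e, he⟩ := hn
    exact ⟨⟨d, by rw [hd]; ring⟩, ⟨e, by rw [he]; ring⟩⟩
  · rintro ⟨h1, h2⟩
    exact h1.mul h2

theorem sqf_mult : sqf.IsMultiplicative := by
  constructor
  · rw [sqf_apply]; simp
  · intro m n hmn
    rw [sqf_apply, sqf_apply, sqf_apply]
    simp only [isSquare_mul_iff hmn, Nat.mul_ne_zero_iff]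
    by_cases h1 : m ≠ 0 ∧ IsSquare m <;> by_cases h2 : n ≠ 0 ∧ IsSquare n <;>
      simp [h1, h2] <;> tauto

theorem sum_sqf_le (y : ℕ) : ∑ n ∈ Ioc 0 y, sqf n / n ≤ 2 := by
  have h1 : ∑ n ∈ Ioc 0 y, sqf n / n ≤ ∑ n ∈ (Ioc 0 y).image (fun c => c * c), (1:ℝ) / n := by
    calc ∑ n ∈ Ioc 0 y, sqf n / n
        = ∑ n ∈ (Ioc 0 y).filter (fun n => n ≠ 0 ∧ IsSquare n), (1:ℝ) / n := by
          rw [Finset.sum_filter]
          apply Finset.sum_congr rfl
          intro n _
          rw [sqf_apply]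
          split_ifs <;> simp
      _ ≤ _ := by
          apply Finset.sum_le_sum_of_subset_of_nonneg
          · intro n hn
            rw [Finset.mem_filter, Finset.mem_Ioc] at hn
            obtain ⟨⟨h1, h2⟩, h3, ⟨c, hc⟩⟩ := hn
            rw [Finset.mem_image]
            refine ⟨c, ?_, hc.symm⟩
            rw [Finset.mem_Ioc]
            have hc0 : 0 < c := by
              rcases Nat.eq_zero_or_pos c with h | h
              · subst h; omega
              · exact h
            refine ⟨hc0, ?_⟩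
            calc c ≤ c * c := Nat.le_mul_of_pos_left c hc0
              _ ≤ y := by omega
          · intro n _ _; positivity
  refine h1.trans ?_
  rw [Finset.sum_image (by
    intro a _ b _ hab
    exact Nat.mul_self_inj.mp hab)]
  have h2 := sum_Ioo_inv_sq_le (α := ℝ) 0 (y + 1)
  have h3 : Ioo 0 (y + 1) = Ioc 0 y := by ext n; simp [Nat.lt_succ_iff]
  rw [h3] at h2
  calc ∑ x ∈ Ioc 0 y, (1:ℝ) / ((x * x : ℕ) : ℝ) = ∑ i ∈ Ioc 0 y, ((i:ℝ) ^ 2)⁻¹ := by
        apply Finset.sum_congr rfl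
        intro x _
        push_cast
        rw [one_div, sq]
    _ ≤ _ := h2
    _ = 2 := by norm_num

/-- A completely multiplicative function as an arithmetic function. -/
def cmf (t : ℕ → ℝ) : ArithmeticFunction ℝ := ⟨fun n => cm t n, by
  change (if (0:ℕ) = 0 then (0:ℝ) else (Nat.factorization 0).prod (fun p e => t p ^ e)) = 0
  simp⟩

theorem cmf_apply (t : ℕ → ℝ) (n : ℕ) : cmf t n = cm t n := rfl

theorem cmf_mult (t : ℕ → ℝ) : (cmf t).IsMultiplicative := by
  constructor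
  · rw [cmf_apply, map_one]
  · intro m n _
    rw [cmf_apply, cmf_apply, cmf_apply, map_mul]

theorem cm_mul (t u : ℕ → ℝ) {m : ℕ} (hm : m ≠ 0) :
    cm (fun p => t p * u p) m = cm t m * cm u m := by
  rw [cm_apply _ hm, cm_apply _ hm, cm_apply _ hm, ← Finsupp.prod_mul]
  congr 1
  funext p e
  rw [mul_pow]

theorem cm_inv {m : ℕ} (hm : m ≠ 0) : cm (fun p => (p:ℝ)⁻¹) m = (m:ℝ)⁻¹ := by
  rw [cm_apply _ hm]
  conv_rhs => rw [← Nat.prod_factorization_pow_eq_self hm]
  unfold Finsupp.prod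
  push_cast
  rw [← Finset.prod_inv_distrib]
  apply Finset.prod_congr rfl
  intro p _
  rw [inv_pow]

theorem cm_div (t : ℕ → ℝ) {m : ℕ} (hm : m ≠ 0) :
    cm (fun p => t p / p) m = cm t m / m := by
  have : (fun p : ℕ => t p / (p:ℝ)) = (fun p : ℕ => t p * (p:ℝ)⁻¹) := by
    funext p; rw [div_eq_mul_inv]
  rw [this, cm_mul t (fun p => (p:ℝ)⁻¹) hm, cm_inv hm, div_eq_mul_inv]

/-- `∑_{b ∣ m} r(b) ≤ ∏ (1 + r(p))` over the prime factors with multiplicity. -/
theorem sum_divisors_cm_le {r : ℕ → ℝ} (hr : ∀ p, p.Prime → 0 ≤ r p) (m : ℕ) (hm : m ≠ 0) :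
    ∑ b ∈ m.divisors, cm r b ≤ cm (fun p => 1 + r p) m := by
  induction m using induction_on_primes with
  | zero => exact absurd rfl hm
  | one => simp
  | prime_mul p a hp ih =>
    have ha : a ≠ 0 := by
      rintro rfl; simp at hm
    have ih' := ih ha
    rw [map_mul, cm_prime _ hp]
    have hsub : (p * a).divisors ⊆ a.divisors ∪ (a.divisors).image (fun x => p * x) := by
      intro d hd
      rw [Nat.mem_divisors] at hd
      rw [Finset.mem_union]
      by_cases hpd : p ∣ d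
      · right
        obtain ⟨e, rfl⟩ := hpd
        rw [Finset.mem_image]
        refine ⟨e, ?_, rfl⟩
        rw [Nat.mem_divisors]
        exact ⟨(Nat.mul_dvd_mul_iff_left hp.pos).mp hd.1, ha⟩
      · left
        rw [Nat.mem_divisors]
        have : Nat.Coprime d p := ((Nat.Prime.coprime_iff_not_dvd hp).mpr hpd).symm
        exact ⟨this.dvd_of_dvd_mul_left hd.1, ha⟩
    have hnn : ∀ b : ℕ, 0 ≤ cm r b := fun b => cm_nonneg hr b
    calc ∑ b ∈ (p * a).divisors, cm r b
        ≤ ∑ b ∈ a.divisors ∪ (a.divisors).image (fun x => p * x), cm r b :=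
          Finset.sum_le_sum_of_subset_of_nonneg hsub (fun b _ _ => hnn b)
      _ ≤ ∑ b ∈ a.divisors, cm r b + ∑ b ∈ (a.divisors).image (fun x => p * x), cm r b := by
          rw [← Finset.sum_union_inter]
          have : 0 ≤ ∑ b ∈ a.divisors ∩ (a.divisors).image (fun x => p * x), cm r b :=
            Finset.sum_nonneg fun b _ => hnn b
          linarith
      _ = ∑ b ∈ a.divisors, cm r b + ∑ b ∈ a.divisors, r p * cm r b := by
          congr 1
          rw [Finset.sum_image (by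
            intro x _ y _ hxy
            exact Nat.eq_of_mul_eq_mul_left hp.pos hxy)]
          apply Finset.sum_congr rfl
          intro x _
          rw [map_mul, cm_prime _ hp]
      _ = (1 + r p) * ∑ b ∈ a.divisors, cm r b := by
          rw [← Finset.mul_sum]; ring
      _ ≤ (1 + r p) * cm (fun p => 1 + r p) a := by
          apply mul_le_mul_of_nonneg_left ih'
          have := hr p hp
          linarith

end

end Pool.Agent.Work.MP_c971ef_nt
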