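import Mathlib
import Pool.Agent.Work.MP_c971ef_nt.CompMult

set_option autoImplicit false

namespace Pool.Agent.Work.MP_c971ef_nt

open Finset Nat ArithmeticFunction BoundingSieve
open scoped ArithmeticFunction.Moebius ArithmeticFunction.zeta BigOperators

noncomputable section

/-- Number of roots of `f` modulo `d`. -/
def rho (f : Polynomial ℤ) (d : ℕ) : ℕ :=
  ((Finset.range d).filter (fun n : ℕ => (d : ℤ) ∣ f.eval (n : ℤ))).card

theorem dvd_eval_congr (f : Polynomial ℤ) {d : ℕ} {a b : ℤ} (h : (d : ℤ) ∣ a - b) :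
    (d : ℤ) ∣ f.eval a ↔ (d : ℤ) ∣ f.eval b := by
  have h1 : (d : ℤ) ∣ f.eval a - f.eval b := h.trans (Polynomial.sub_dvd_eval_sub a b f)
  constructor
  · intro h2
    have := dvd_sub h2 h1
    simpa using this
  · intro h2
    have := dvd_add h1 h2
    simpa using this

theorem dvd_eval_periodic (f : Polynomial ℤ) (d : ℕ) :
    Function.Periodic (fun n : ℕ => (d : ℤ) ∣ f.eval (n : ℤ)) d := by
  intro n
  simp only [eq_iff_iff]
  apply dvd_eval_congr
  push_cast
  simp

theorem dvd_eval_mod (f : Polynomial ℤ) (d n : ℕ) :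
    (d : ℤ) ∣ f.eval ((n % d : ℕ) : ℤ) ↔ (d : ℤ) ∣ f.eval (n : ℤ) := by
  apply dvd_eval_congr
  push_cast
  have : (n : ℤ) % d - n = -((d:ℤ) * (n / d)) := by
    have := Int.emod_add_mul_ediv (n:ℤ) d
    linarith
  rw [this]
  exact (Dvd.intro _ rfl).neg_right

theorem rho_one (f : Polynomial ℤ) : rho f 1 = 1 := by
  unfold rho
  have : (Finset.range 1).filter (fun n : ℕ => ((1:ℕ) : ℤ) ∣ f.eval (n : ℤ)) = Finset.range 1 := by
    apply Finset.filter_true_of_mem
    intro n _
    simp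
  rw [this]; simp

theorem rho_mul (f : Polynomial ℤ) {a b : ℕ} (hab : Nat.Coprime a b) :
    rho f (a * b) = rho f a * rho f b := by
  by_cases ha : a = 0
  · subst ha; simp [rho]
  by_cases hb : b = 0
  · subst hb; simp [rho]
  unfold rho
  rw [← Finset.card_product]
  apply Finset.card_nbij' (fun n => (n % a, n % b))
    (fun x => (Nat.chineseRemainder hab x.1 x.2 : ℕ))
  · intro n hn
    simp only [coe_filter, mem_range, Set.mem_ofPred_eq, coe_product, Set.mem_prod] at hn ⊢
    obtain ⟨h1, h2⟩ := hn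
    refine ⟨⟨Nat.mod_lt _ (Nat.pos_of_ne_zero ha), ?_⟩, ⟨Nat.mod_lt _ (Nat.pos_of_ne_zero hb), ?_⟩⟩
    · rw [dvd_eval_mod]
      exact (Dvd.intro _ (by push_cast; rfl)).trans h2
    · rw [dvd_eval_mod]
      exact (Dvd.intro_left _ (by push_cast; rfl)).trans h2
  · intro x hx
    simp only [coe_filter, mem_range, Set.mem_ofPred_eq, coe_product, Set.mem_prod] at hx ⊢
    obtain ⟨⟨h1, h2⟩, ⟨h3, h4⟩⟩ := hx
    refine ⟨Nat.chineseRemainder_lt_mul hab x.1 x.2 ha hb, ?_⟩
    have hc := (Nat.chineseRemainder hab x.1 x.2).2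
    have e1 : (a : ℤ) ∣ f.eval (((Nat.chineseRemainder hab x.1 x.2 : ℕ)) : ℤ) := by
      rw [← dvd_eval_mod]
      rw [show (Nat.chineseRemainder hab x.1 x.2 : ℕ) % a = x.1 % a from hc.1, dvd_eval_mod]
      exact h2
    have e2 : (b : ℤ) ∣ f.eval (((Nat.chineseRemainder hab x.1 x.2 : ℕ)) : ℤ) := by
      rw [← dvd_eval_mod]
      rw [show (Nat.chineseRemainder hab x.1 x.2 : ℕ) % b = x.2 % b from hc.2, dvd_eval_mod]
      exact h4
    push_cast
    exact IsCoprime.mul_dvd (Nat.isCoprime_iff_coprime.mpr hab) e1 e2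
  · intro n hn
    simp only [coe_filter, mem_range, Set.mem_ofPred_eq] at hn
    have hc := Nat.chineseRemainder_modEq_unique hab (a := n % a) (b := n % b) (z := n)
      (Nat.mod_modEq n a).symm (Nat.mod_modEq n b).symm
    have hlt := Nat.chineseRemainder_lt_mul hab (n % a) (n % b) ha hb
    simp only
    have := hc.symm
    unfold Nat.ModEq at this
    rw [Nat.mod_eq_of_lt hlt, Nat.mod_eq_of_lt hn.1] at this
    exact this
  · intro x hx
    simp only [coe_filter, mem_range, Set.mem_ofPred_eq, coe_product, Set.mem_prod] at hx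
    obtain ⟨⟨h1, h2⟩, ⟨h3, h4⟩⟩ := hx
    have hc := (Nat.chineseRemainder hab x.1 x.2).2
    simp only
    rw [show (Nat.chineseRemainder hab x.1 x.2 : ℕ) % a = x.1 % a from hc.1,
      show (Nat.chineseRemainder hab x.1 x.2 : ℕ) % b = x.2 % b from hc.2,
      Nat.mod_eq_of_lt h1, Nat.mod_eq_of_lt h3]

theorem count_mul (p : ℕ → Prop) [DecidablePred p] (d : ℕ) (hp : Function.Periodic p d) (q : ℕ) :
    Nat.count p (d * q) = q * Nat.count p d := by
  induction q with
  | zero => simp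
  | succ q ih =>
    rw [Nat.mul_succ, Nat.count_add, ih, Nat.succ_mul]
    congr 1
    have : (fun k => p (d * q + k)) = p := by
      funext k
      have := hp.nat_mul q k
      rw [← this, Nat.cast_id, mul_comm, add_comm]
    simp only [this]

theorem count_bound (f : Polynomial ℤ) {d : ℕ} (hd : 0 < d) (N : ℕ) :
    |(((Finset.range N).filter (fun n : ℕ => (d : ℤ) ∣ f.eval (n : ℤ))).card : ℝ)
      - (rho f d : ℝ) / d * N| ≤ rho f d := by
  have hcard : ∀ M : ℕ, ((Finset.range M).filter (fun n : ℕ => (d : ℤ) ∣ f.eval (n : ℤ))).card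
      = Nat.count (fun n : ℕ => (d : ℤ) ∣ f.eval (n : ℤ)) M := by
    intro M
    rw [Nat.count_eq_card_filter_range]
  have hr : rho f d = Nat.count (fun n : ℕ => (d : ℤ) ∣ f.eval (n : ℤ)) d := by
    unfold rho; rw [hcard]
  rw [hcard N]
  set c := Nat.count (fun n : ℕ => (d : ℤ) ∣ f.eval (n : ℤ)) N with hc
  set q := N / d with hq
  have h1 : d * q ≤ N := Nat.mul_div_le N d
  have h2 : N ≤ d * (q + 1) := (Nat.lt_mul_div_succ N hd).le
  have h3 : q * rho f d ≤ c := by
    rw [hr, ← count_mul _ d (dvd_eval_periodic f d) q]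
    exact Nat.count_monotone _ h1
  have h4 : c ≤ (q + 1) * rho f d := by
    rw [hr, ← count_mul _ d (dvd_eval_periodic f d) (q + 1)]
    exact Nat.count_monotone _ h2
  have hdR : (0:ℝ) < d := by exact_mod_cast hd
  have h1' : (d:ℝ) * q ≤ N := by exact_mod_cast h1
  have h2' : (N:ℝ) ≤ d * (q + 1) := by exact_mod_cast h2
  have h3' : (q:ℝ) * rho f d ≤ c := by exact_mod_cast h3
  have h4' : (c:ℝ) ≤ (q + 1) * rho f d := by exact_mod_cast h4
  have hρ : (0:ℝ) ≤ rho f d := Nat.cast_nonneg _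
  have h5 : (q:ℝ) ≤ N / d := by
    rw [le_div_iff₀ hdR]; linarith
  have h6 : (N:ℝ) / d ≤ q + 1 := by
    rw [div_le_iff₀ hdR]; linarith
  have e : (rho f d : ℝ) / d * N = rho f d * (N / d) := by ring
  rw [e, abs_le]
  constructor
  · nlinarith
  · nlinarith

/-- The density function of the root count. -/
def nuf (f : Polynomial ℤ) : ArithmeticFunction ℝ :=
  ⟨fun d => (rho f d : ℝ) / d, by simp⟩

theorem nuf_apply (f : Polynomial ℤ) (d : ℕ) : nuf f d = (rho f d : ℝ) / d := rfl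

theorem nuf_mult (f : Polynomial ℤ) : (nuf f).IsMultiplicative := by
  constructor
  · rw [nuf_apply, rho_one]; simp
  · intro m n hmn
    rw [nuf_apply, nuf_apply, nuf_apply, rho_mul f hmn]
    push_cast
    by_cases hm : (m:ℝ) = 0
    · simp [hm]
    by_cases hn : (n:ℝ) = 0
    · simp [hn]
    field_simp

theorem sum_image_card {ι : Type*} (I : Finset ι) (F : ι → ℕ) (q : ℕ → Prop) [DecidablePred q] :
    ∑ m ∈ I.image F, (if q m then (((I.filter (fun i => F i = m)).card : ℕ) : ℝ) else 0) =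
      ((I.filter (fun i => q (F i))).card : ℝ) := by
  rw [Finset.card_eq_sum_card_fiberwise (f := F) (t := I.image F)
    (s := I.filter (fun i => q (F i)))]
  · push_cast
    apply Finset.sum_congr rfl
    intro m _
    split_ifs with h
    · congr 2
      ext i
      simp only [mem_filter]
      constructor
      · rintro ⟨h1, h2⟩; exact ⟨⟨h1, h2 ▸ h⟩, h2⟩
      · rintro ⟨⟨h1, _⟩, h2⟩; exact ⟨h1, h2⟩
    · symm
      rw [Nat.cast_eq_zero, Finset.card_eq_zero]
      ext i
      simp only [mem_filter, Finset.notMem_empty, iff_false, not_and]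
      rintro ⟨_, h1⟩ h2
      exact h (h2 ▸ h1)
  · intro i hi
    simp only [coe_filter, Set.mem_ofPred_eq] at hi
    simp only [coe_image, Set.mem_image]
    exact ⟨i, hi.1, rfl⟩

/-- The sieve attached to the values `f(0), ..., f(N-1)` and the primes up to `R`. -/
def polySieve (f : Polynomial ℤ) (hpos : ∀ p : ℕ, p.Prime → 1 ≤ rho f p)
    (hlt : ∀ p : ℕ, p.Prime → rho f p < p) (N R : ℕ) : BoundingSieve where
  support := (Finset.range N).image (fun n : ℕ => (f.eval (n : ℤ)).natAbs)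
  prodPrimes := primorial R
  prodPrimes_squarefree := squarefree_primorial R
  weights := fun m =>
    ((((Finset.range N).filter (fun n : ℕ => (f.eval (n : ℤ)).natAbs = m)).card : ℕ) : ℝ)
  weights_nonneg := fun m => Nat.cast_nonneg _
  totalMass := N
  nu := nuf f
  nu_mult := nuf_mult f
  nu_pos_of_prime := by
    intro p hp _
    rw [nuf_apply]
    have := hpos p hp
    have h2 := hp.pos
    positivity
  nu_lt_one_of_prime := by
    intro p hp _
    rw [nuf_apply, div_lt_one (by exact_mod_cast hp.pos)]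
    exact_mod_cast hlt p hp

theorem polySieve_rem (f : Polynomial ℤ) (hpos : ∀ p : ℕ, p.Prime → 1 ≤ rho f p)
    (hlt : ∀ p : ℕ, p.Prime → rho f p < p) (N R : ℕ) {d : ℕ} (hd : 0 < d) :
    |(polySieve f hpos hlt N R).rem d| ≤ rho f d := by
  unfold BoundingSieve.rem BoundingSieve.multSum
  change |(∑ m ∈ (Finset.range N).image (fun n : ℕ => (f.eval (n : ℤ)).natAbs),
    if d ∣ m then ((((Finset.range N).filter
      (fun n : ℕ => (f.eval (n : ℤ)).natAbs = m)).card : ℕ) : ℝ) else 0) - nuf f d * N| ≤ _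
  rw [sum_image_card (Finset.range N) (fun n : ℕ => (f.eval (n : ℤ)).natAbs) (fun m => d ∣ m)]
  have : (Finset.range N).filter (fun n : ℕ => d ∣ (f.eval (n : ℤ)).natAbs) =
      (Finset.range N).filter (fun n : ℕ => (d : ℤ) ∣ f.eval (n : ℤ)) := by
    ext n
    simp only [mem_filter, Int.natCast_dvd]
  rw [this, nuf_apply]
  exact count_bound f hd N

theorem polySieve_sifted (f : Polynomial ℤ) (hpos : ∀ p : ℕ, p.Prime → 1 ≤ rho f p)
    (hlt : ∀ p : ℕ, p.Prime → rho f p < p) (N R : ℕ) :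
    (polySieve f hpos hlt N R).siftedSum =
      (((Finset.range N).filter
        (fun n : ℕ => Nat.Coprime (primorial R) (f.eval (n : ℤ)).natAbs)).card : ℝ) := by
  unfold BoundingSieve.siftedSum
  change (∑ m ∈ (Finset.range N).image (fun n : ℕ => (f.eval (n : ℤ)).natAbs),
    if Nat.Coprime (primorial R) m then ((((Finset.range N).filter
      (fun n : ℕ => (f.eval (n : ℤ)).natAbs = m)).card : ℕ) : ℝ) else 0) = _
  rw [sum_image_card (Finset.range N) (fun n : ℕ => (f.eval (n : ℤ)).natAbs)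
    (fun m => Nat.Coprime (primorial R) m)]

theorem rho_le (f : Polynomial ℤ) (d : ℕ) : rho f d ≤ d := by
  unfold rho
  refine (Finset.card_filter_le _ _).trans ?_
  simp

theorem rho_pos_of_squarefree (f : Polynomial ℤ) (hpos : ∀ p : ℕ, p.Prime → 1 ≤ rho f p)
    {d : ℕ} (hd : Squarefree d) : 1 ≤ rho f d := by
  induction d using Nat.recOnPosPrimePosCoprime with
  | prime_pow p n hp hn =>
    have : n = 1 := by
      by_contra hne
      have h2 : 2 ≤ n := by omega
      have hpp : p * p ∣ p ^ n := by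
        rw [← sq]; exact pow_dvd_pow p h2
      have := hd p hpp
      exact hp.one_lt.ne' (Nat.isUnit_iff.mp this)
    subst this
    simpa using hpos p hp
  | zero => exact absurd rfl hd.ne_zero
  | one => rw [rho_one]
  | coprime a b ha hb hab iha ihb =>
    rw [rho_mul f hab]
    have h1 := iha (hd.of_mul_left)
    have h2 := ihb (hd.of_mul_right)
    exact Nat.one_le_iff_ne_zero.mpr (Nat.mul_ne_zero (by omega) (by omega))

/-- Selberg's sieve for the values of a polynomial. -/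
theorem poly_sieve (f : Polynomial ℤ) (hpos : ∀ p : ℕ, p.Prime → 1 ≤ rho f p)
    (hlt : ∀ p : ℕ, p.Prime → rho f p < p) (N : ℕ) {R : ℕ} (hR : 1 ≤ R) :
    (((Finset.range N).filter
        (fun n : ℕ => Nat.Coprime (primorial R) (f.eval (n : ℤ)).natAbs)).card : ℝ) ≤
      N / (∑ m ∈ Finset.Icc 1 R, cm (fun p => (rho f p : ℝ) / p) m) + (R : ℝ) ^ 6 := by
  set s := polySieve f hpos hlt N R with hs
  have h0 := selberg_bound s hR
  have hcard : (((Finset.range N).filter
        (fun n : ℕ => Nat.Coprime (primorial R) (f.eval (n : ℤ)).natAbs)).card : ℝ) ≤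
        s.siftedSum := by
    rw [hs, polySieve_sifted]
  refine hcard.trans (h0.trans ?_)
  have ht : ∀ p : ℕ, p.Prime → 0 ≤ (rho f p : ℝ) / p := fun p _ => by positivity
  have ht1 : ∀ p : ℕ, p.Prime → (rho f p : ℝ) / p < 1 := by
    intro p hp
    rw [div_lt_one (by exact_mod_cast hp.pos)]
    exact_mod_cast hlt p hp
  have hS := sum_cm_le_bigS s R (fun p => (rho f p : ℝ) / p) ht ht1
    (fun p hp hpR => (hp.dvd_primorial_iff).mpr hpR)
    (fun p hp hpR => by change _ = nuf f p; rw [nuf_apply])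
  have hSpos : 0 < ∑ m ∈ Finset.Icc 1 R, cm (fun p => (rho f p : ℝ) / p) m := by
    apply Finset.sum_pos'
    · intro m _; exact cm_nonneg ht m
    · refine ⟨1, by simp [hR], ?_⟩
      rw [map_one]; exact one_pos
  apply _root_.add_le_add
  · change (N:ℝ) / bigS s R ≤ _
    exact div_le_div_of_nonneg_left (Nat.cast_nonneg _) hSpos hS
  · have hterm : ∀ d1 ∈ dvs s R, ∀ d2 ∈ dvs s R,
        (s.nu d1)⁻¹ * (s.nu d2)⁻¹ * |s.rem (Nat.lcm d1 d2)| ≤ (R:ℝ) ^ 4 := by
      intro d1 hd1 d2 hd2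
      have key : ∀ d ∈ dvs s R, (s.nu d)⁻¹ ≤ (R:ℝ) ∧ 1 ≤ d ∧ (d:ℝ) ≤ R := by
        intro d hd
        obtain ⟨hdP, hdR⟩ := mem_dvs.mp hd
        have hsq : Squarefree d := squarefree_of_dvd_prodPrimes hdP
        have hr := rho_pos_of_squarefree f hpos hsq
        have hd0 : 1 ≤ d := Nat.one_le_iff_ne_zero.mpr hsq.ne_zero
        have hdR' : (d:ℝ) ≤ R := by exact_mod_cast hdR
        refine ⟨?_, hd0, hdR'⟩
        change (nuf f d)⁻¹ ≤ _
        rw [nuf_apply, inv_div]
        have hr' : (1:ℝ) ≤ rho f d := by exact_mod_cast hr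
        calc (d:ℝ) / rho f d ≤ d / 1 := by
              apply div_le_div_of_nonneg_left (Nat.cast_nonneg _) one_pos hr'
          _ ≤ R := by simpa using hdR'
      obtain ⟨a1, b1, c1⟩ := key d1 hd1
      obtain ⟨a2, b2, c2⟩ := key d2 hd2
      have hlcm : 0 < Nat.lcm d1 d2 := Nat.lcm_pos (by omega) (by omega)
      have hrem : |s.rem (Nat.lcm d1 d2)| ≤ (R:ℝ) * R := by
        refine (polySieve_rem f hpos hlt N R hlcm).trans ?_
        have h1 : rho f (Nat.lcm d1 d2) ≤ d1 * d2 :=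
          (rho_le f _).trans (Nat.le_of_dvd (Nat.mul_pos (by omega) (by omega)) (Nat.lcm_dvd_mul d1 d2))
        have h2 : (rho f (Nat.lcm d1 d2) : ℝ) ≤ (d1:ℝ) * d2 := by exact_mod_cast h1
        refine h2.trans ?_
        gcongr
      have hn1 : 0 ≤ (s.nu d1)⁻¹ := inv_nonneg.mpr (nu_pos_of_dvd_prodPrimes (mem_dvs.mp hd1).1).le
      have hn2 : 0 ≤ (s.nu d2)⁻¹ := inv_nonneg.mpr (nu_pos_of_dvd_prodPrimes (mem_dvs.mp hd2).1).le
      calc (s.nu d1)⁻¹ * (s.nu d2)⁻¹ * |s.rem (Nat.lcm d1 d2)| ≤ (R:ℝ) * R * (R * R) := by gcongr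
        _ = (R:ℝ) ^ 4 := by ring
    have hcard2 : ((dvs s R).card : ℝ) ≤ R := by
      have : dvs s R ⊆ Finset.Icc 1 R := by
        intro d hd
        obtain ⟨hdP, hdR⟩ := mem_dvs.mp hd
        rw [Finset.mem_Icc]
        exact ⟨Nat.one_le_iff_ne_zero.mpr (squarefree_of_dvd_prodPrimes hdP).ne_zero, hdR⟩
      have := Finset.card_le_card this
      rw [Nat.card_Icc] at this
      exact_mod_cast (by simpa using this)
    calc ∑ d1 ∈ dvs s R, ∑ d2 ∈ dvs s R, (s.nu d1)⁻¹ * (s.nu d2)⁻¹ * |s.rem (Nat.lcm d1 d2)|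
        ≤ ∑ d1 ∈ dvs s R, ∑ d2 ∈ dvs s R, (R:ℝ) ^ 4 :=
          Finset.sum_le_sum fun d1 hd1 => Finset.sum_le_sum fun d2 hd2 => hterm d1 hd1 d2 hd2
      _ = (dvs s R).card * ((dvs s R).card * (R:ℝ) ^ 4) := by
          simp [Finset.sum_const, nsmul_eq_mul]
      _ ≤ R * (R * (R:ℝ) ^ 4) := by gcongr
      _ = (R:ℝ) ^ 6 := by ring

end

end Pool.Agent.Work.MP_c971ef_nt
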