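import Mathlib
import Pool.Agent.Work.MP_c971ef_nt.Conv
import Pool.Agent.Work.MP_c971ef_nt.PolySieve

set_option autoImplicit false

namespace Pool.Agent.Work.MP_c971ef_nt

open Finset Nat ArithmeticFunction
open scoped BigOperators

noncomputable section

/-- The quadratic character modulo 8 with value 1 at 1, 7 and -1 at 3, 5. -/
def ch (n : ℕ) : ℤ := ZMod.χ₈ (n : ZMod 8)

theorem ch_eq (n : ℕ) : ch n = if n % 2 = 0 then 0 else if n % 8 = 1 ∨ n % 8 = 7 then 1 else -1 := by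
  unfold ch
  exact ZMod.χ₈_nat_eq_if_mod_eight n

theorem ch_mul (m n : ℕ) : ch (m * n) = ch m * ch n := by
  unfold ch; push_cast; rw [map_mul]

theorem ch_one : ch 1 = 1 := by rw [ch_eq]; norm_num

theorem ch_zero : ch 0 = 0 := by rw [ch_eq]; norm_num

theorem ch_pow (m k : ℕ) : ch (m ^ k) = ch m ^ k := by
  unfold ch; push_cast; rw [map_pow]

theorem ch_cases (n : ℕ) : ch n = 0 ∨ ch n = 1 ∨ ch n = -1 := by
  rw [ch_eq]; split_ifs <;> simp

/-- The character as an arithmetic function. -/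
def chi : ArithmeticFunction ℝ := ⟨fun n => (ch n : ℝ), by simp [ch_zero]⟩

/-- The principal character modulo 8 (equivalently modulo 2). -/
def chi2 : ArithmeticFunction ℝ := ⟨fun n => (ch n : ℝ) ^ 2, by simp [ch_zero]⟩

theorem chi_apply (n : ℕ) : chi n = (ch n : ℝ) := rfl
theorem chi2_apply (n : ℕ) : chi2 n = (ch n : ℝ) ^ 2 := rfl

theorem chi_mult : chi.IsMultiplicative := by
  constructor
  · rw [chi_apply, ch_one]; simp
  · intro m n _
    rw [chi_apply, chi_apply, chi_apply, ch_mul]; push_cast; ring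

theorem chi2_mult : chi2.IsMultiplicative := by
  constructor
  · rw [chi2_apply, ch_one]; simp
  · intro m n _
    rw [chi2_apply, chi2_apply, chi2_apply, ch_mul]; push_cast; ring

/-- The number of roots of `x^2 = 2` at odd primes, zero at 2. -/
def rr (p : ℕ) : ℝ := (ch p : ℝ) ^ 2 + ch p

theorem rr_nonneg (p : ℕ) : 0 ≤ rr p := by
  unfold rr
  rcases ch_cases p with h | h | h <;> rw [h] <;> norm_num

theorem conv_apply_prime_pow (f g : ArithmeticFunction ℝ) {p : ℕ} (hp : p.Prime) (k : ℕ) :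
    (f * g) (p ^ k) = ∑ i ∈ Finset.range (k + 1), f (p ^ i) * g (p ^ (k - i)) := by
  rw [ArithmeticFunction.mul_apply, Nat.sum_divisorsAntidiagonal (fun a b => f a * g b),
    Nat.sum_divisors_prime_pow hp]
  apply Finset.sum_congr rfl
  intro i hi
  rw [Finset.mem_range] at hi
  rw [Nat.pow_div (by omega) hp.pos]

theorem chi2_chi_prime_pow {p : ℕ} (hp : p.Prime) {k : ℕ} (hk : 0 < k) :
    (chi2 * chi) (p ^ k) = if ch p = 1 then (k:ℝ) + 1 else if ch p = -1 then
      (if Even k then 1 else 0) else 0 := by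
  rw [conv_apply_prime_pow chi2 chi hp]
  have h1 : ∀ i ∈ Finset.range (k + 1), chi2 (p ^ i) * chi (p ^ (k - i)) =
      ((ch p : ℝ) ^ i) ^ 2 * (ch p : ℝ) ^ (k - i) := by
    intro i _
    rw [chi2_apply, chi_apply, ch_pow, ch_pow]; push_cast; ring
  rw [Finset.sum_congr rfl h1]
  rcases ch_cases p with h | h | h
  · rw [h]
    norm_num
    apply Finset.sum_eq_zero
    intro i hi
    rw [Finset.mem_range] at hi
    by_cases hi0 : i = 0
    · subst hi0
      simp [hk.ne']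
    · simp [hi0]
  · rw [h]; simp
  · rw [h]
    norm_num
    have h2 : ∀ i ∈ Finset.range (k + 1), (((-1:ℝ)) ^ i) ^ 2 * (-1) ^ (k - i) = (-1) ^ (k - i) := by
      intro i _
      rw [← pow_mul, mul_comm i 2, pow_mul]; norm_num
    rw [Finset.sum_congr rfl h2]
    have h3 := Finset.sum_range_reflect (fun i => (-1:ℝ) ^ i) (k + 1)
    have h4 : ∀ j ∈ Finset.range (k + 1), (-1:ℝ) ^ (k + 1 - 1 - j) = (-1) ^ (k - j) := by
      intro j _; simp
    rw [Finset.sum_congr rfl h4] at h3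
    rw [h3, neg_one_geom_sum]
    by_cases hev : Even k
    · have : ¬ Even (k + 1) := by
        rw [Nat.even_add_one]; simpa using hev
      simp [hev, this]
    · have : Even (k + 1) := by
        rw [Nat.even_add_one]; exact hev
      simp [hev, this]

theorem chi2_chi_nonneg (n : ℕ) : 0 ≤ (chi2 * chi) n := by
  have hm : (chi2 * chi).IsMultiplicative := chi2_mult.mul chi_mult
  induction n using Nat.recOnPosPrimePosCoprime with
  | prime_pow p n hp hn =>
    rw [chi2_chi_prime_pow hp hn]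
    split_ifs <;> positivity
  | zero => simp
  | one => rw [hm.map_one]; norm_num
  | coprime a b ha hb hab iha ihb =>
    rw [hm.map_mul_of_coprime hab]
    exact mul_nonneg iha ihb

theorem cmf_rr_nonneg (n : ℕ) : 0 ≤ cmf rr n := cm_nonneg (fun p _ => rr_nonneg p) n

theorem chi2_chi_le (n : ℕ) : (chi2 * chi) n ≤ (cmf rr * sqf) n := by
  apply mult_le (chi2_mult.mul chi_mult) ((cmf_mult rr).mul sqf_mult) chi2_chi_nonneg
  · intro n
    rw [ArithmeticFunction.mul_apply]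
    exact Finset.sum_nonneg fun x _ => mul_nonneg (cmf_rr_nonneg _) (sqf_nonneg _)
  · intro p k hp hk
    rw [chi2_chi_prime_pow hp hk, conv_apply_prime_pow (cmf rr) sqf hp]
    have hnn : ∀ i ∈ Finset.range (k + 1), 0 ≤ cmf rr (p ^ i) * sqf (p ^ (k - i)) :=
      fun i _ => mul_nonneg (cmf_rr_nonneg _) (sqf_nonneg _)
    split_ifs with h1 h2 h3
    · refine le_trans ?_ (Finset.single_le_sum hnn (Finset.mem_range.mpr (Nat.lt_succ_self k)))
      rw [cmf_apply, map_pow, cm_prime _ hp, Nat.sub_self, pow_zero, sqf_mult.map_one, mul_one]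
      unfold rr
      rw [h1]
      have : k + 1 ≤ 2 ^ k := Nat.lt_two_pow_self
      have h2 : ((k + 1 : ℕ) : ℝ) ≤ ((2 ^ k : ℕ) : ℝ) := by exact_mod_cast this
      push_cast at h2
      norm_num
      linarith
    · refine le_trans ?_ (Finset.single_le_sum hnn (Finset.mem_range.mpr (Nat.succ_pos k)))
      rw [pow_zero, (cmf_mult rr).map_one, Nat.sub_zero, one_mul, sqf_apply, if_pos]
      refine ⟨(pow_pos hp.pos k).ne', ?_⟩
      exact h3.isSquare_pow p
    · exact Finset.sum_nonneg hnn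
    · exact Finset.sum_nonneg hnn

/-- Partial sums of `ch n / n`. -/
def psum (n : ℕ) : ℝ := ∑ c ∈ Finset.range n, (ch c : ℝ) / c

theorem psum_succ (n : ℕ) : psum (n + 1) = psum n + (ch n : ℝ) / n := by
  unfold psum; rw [Finset.sum_range_succ]

theorem ch_val (j : ℕ) : ch (8 * j) = 0 ∧ ch (8 * j + 1) = 1 ∧ ch (8 * j + 2) = 0 ∧
    ch (8 * j + 3) = -1 ∧ ch (8 * j + 4) = 0 ∧ ch (8 * j + 5) = -1 ∧ ch (8 * j + 6) = 0 ∧
    ch (8 * j + 7) = 1 := by
  refine ⟨?_, ?_, ?_, ?_, ?_, ?_, ?_, ?_⟩ <;> rw [ch_eq] <;> split_ifs <;> omega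

theorem psum_block (j : ℕ) :
    psum (8 * j + 1) = psum (8 * j) ∧
    psum (8 * j + 2) = psum (8 * j) + 1 / (8 * j + 1) ∧
    psum (8 * j + 3) = psum (8 * j) + 1 / (8 * j + 1) ∧
    psum (8 * j + 4) = psum (8 * j) + 1 / (8 * j + 1) - 1 / (8 * j + 3) ∧
    psum (8 * j + 5) = psum (8 * j) + 1 / (8 * j + 1) - 1 / (8 * j + 3) ∧
    psum (8 * j + 6) = psum (8 * j) + 1 / (8 * j + 1) - 1 / (8 * j + 3) - 1 / (8 * j + 5) ∧
    psum (8 * j + 7) = psum (8 * j) + 1 / (8 * j + 1) - 1 / (8 * j + 3) - 1 / (8 * j + 5) ∧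
    psum (8 * j + 8) = psum (8 * j) + 1 / (8 * j + 1) - 1 / (8 * j + 3) - 1 / (8 * j + 5)
      + 1 / (8 * j + 7) := by
  obtain ⟨c0, c1, c2, c3, c4, c5, c6, c7⟩ := ch_val j
  have h1 : psum (8 * j + 1) = psum (8 * j) := by rw [psum_succ, c0]; simp
  have h2 : psum (8 * j + 2) = psum (8 * j) + 1 / (8 * j + 1) := by
    rw [show 8 * j + 2 = (8 * j + 1) + 1 by ring, psum_succ, h1, c1]; push_cast; ring
  have h3 : psum (8 * j + 3) = psum (8 * j) + 1 / (8 * j + 1) := by
    rw [show 8 * j + 3 = (8 * j + 2) + 1 by ring, psum_succ, h2, c2]; simp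
  have h4 : psum (8 * j + 4) = psum (8 * j) + 1 / (8 * j + 1) - 1 / (8 * j + 3) := by
    rw [show 8 * j + 4 = (8 * j + 3) + 1 by ring, psum_succ, h3, c3]; push_cast; ring
  have h5 : psum (8 * j + 5) = psum (8 * j) + 1 / (8 * j + 1) - 1 / (8 * j + 3) := by
    rw [show 8 * j + 5 = (8 * j + 4) + 1 by ring, psum_succ, h4, c4]; simp
  have h6 : psum (8 * j + 6) = psum (8 * j) + 1 / (8 * j + 1) - 1 / (8 * j + 3)
      - 1 / (8 * j + 5) := by
    rw [show 8 * j + 6 = (8 * j + 5) + 1 by ring, psum_succ, h5, c5]; push_cast; ring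
  have h7 : psum (8 * j + 7) = psum (8 * j) + 1 / (8 * j + 1) - 1 / (8 * j + 3)
      - 1 / (8 * j + 5) := by
    rw [show 8 * j + 7 = (8 * j + 6) + 1 by ring, psum_succ, h6, c6]; simp
  have h8 : psum (8 * j + 8) = psum (8 * j) + 1 / (8 * j + 1) - 1 / (8 * j + 3)
      - 1 / (8 * j + 5) + 1 / (8 * j + 7) := by
    rw [show 8 * j + 8 = (8 * j + 7) + 1 by ring, psum_succ, h7, c7]; push_cast; ring
  exact ⟨h1, h2, h3, h4, h5, h6, h7, h8⟩

theorem psum_eight (j : ℕ) (hj : 1 ≤ j) : 3 / 5 ≤ psum (8 * j) := by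
  induction j, hj using Nat.le_induction with
  | base =>
    have h := (psum_block 0).2.2.2.2.2.2.2
    have h0 : psum (8 * 0) = 0 := by simp [psum]
    rw [h0] at h
    norm_num at h
    norm_num
    rw [h]; norm_num
  | succ j hj ih =>
    have h := (psum_block j).2.2.2.2.2.2.2
    rw [show 8 * (j + 1) = 8 * j + 8 by ring, h]
    have hj' : (0:ℝ) ≤ j := Nat.cast_nonneg j
    have e : 1 / (8 * (j:ℝ) + 1) - 1 / (8 * j + 3) - 1 / (8 * j + 5) + 1 / (8 * j + 7) =
        (16 * (8 * j + 4)) / ((8 * j + 1) * (8 * j + 3) * (8 * j + 5) * (8 * j + 7)) +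
        0 := by
      field_simp
      ring
    have hpos : 0 ≤ 1 / (8 * (j:ℝ) + 1) - 1 / (8 * j + 3) - 1 / (8 * j + 5) + 1 / (8 * j + 7) := by
      rw [e]; positivity
    linarith

theorem psum_ge (n : ℕ) (hn : 2 ≤ n) : 2 / 5 ≤ psum n := by
  obtain ⟨j, k, hk, rfl⟩ : ∃ j k, k < 8 ∧ n = 8 * j + k := ⟨n / 8, n % 8, Nat.mod_lt _ (by norm_num),
    by omega⟩
  obtain ⟨h1, h2, h3, h4, h5, h6, h7, h8⟩ := psum_block j
  rcases Nat.eq_zero_or_pos j with hj | hj
  · subst hj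
    have h0 : psum (8 * 0) = 0 := by simp [psum]
    rw [h0] at h1 h2 h3 h4 h5 h6 h7 h8
    norm_num at h1 h2 h3 h4 h5 h6 h7 h8
    simp only [mul_zero, zero_add] at hn ⊢
    interval_cases k
    · rw [h2]; norm_num
    · rw [h3]; norm_num
    · rw [h4]; norm_num
    · rw [h5]; norm_num
    · rw [h6]; norm_num
    · rw [h7]; norm_num
  · have hb := psum_eight j hj
    have hj' : (1:ℝ) ≤ j := by exact_mod_cast hj
    have a1 : 0 < 1 / (8 * (j:ℝ) + 1) := by positivity
    have a3 : 1 / (8 * (j:ℝ) + 3) ≤ 1 / (8 * j + 1) := by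
      apply one_div_le_one_div_of_le <;> linarith
    have a5 : 1 / (8 * (j:ℝ) + 5) ≤ 1 / 13 := by
      apply one_div_le_one_div_of_le <;> linarith
    have hk0 : k ≤ 7 := by omega
    interval_cases k
    · rw [add_zero]; linarith
    · rw [h1]; linarith
    · rw [h2]; linarith
    · rw [h3]; linarith
    · rw [h4]; linarith
    · rw [h5]; linarith
    · rw [h6]; linarith
    · rw [h7]; linarith

theorem sum_chi_ge {y : ℕ} (hy : 1 ≤ y) : 2 / 5 ≤ ∑ c ∈ Ioc 0 y, chi c / c := by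
  have h := psum_ge (y + 1) (by omega)
  have e : psum (y + 1) = ∑ c ∈ Ioc 0 y, chi c / c := by
    unfold psum
    rw [Finset.range_eq_Ico, Finset.sum_eq_sum_Ico_succ_bot (by omega)]
    simp only [CharP.cast_eq_zero, div_zero, zero_add]
    apply Finset.sum_congr
    · ext c; simp; omega
    · intro c _; rfl
  rw [← e]; exact h

/-- The sum over odd integers up to `y` is at least half of the harmonic sum. -/
theorem sum_odd_ge (y : ℕ) :
    (1 / 2) * ∑ a ∈ Ioc 0 y, (a:ℝ)⁻¹ ≤ ∑ a ∈ Ioc 0 y, chi2 a / a := by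
  have key : ∀ k : ℕ, (1 / 2) * ∑ a ∈ Ioc 0 (2 * k), (a:ℝ)⁻¹ ≤ ∑ a ∈ Ioc 0 (2 * k), chi2 a / a ∧
      (1 / 2) * ∑ a ∈ Ioc 0 (2 * k + 1), (a:ℝ)⁻¹ ≤ ∑ a ∈ Ioc 0 (2 * k + 1), chi2 a / a := by
    intro k
    have hodd : ∀ k : ℕ, chi2 (2 * k + 1) = 1 := by
      intro k
      rw [chi2_apply, ch_eq]
      have h2 : ¬ (2 * k + 1) % 2 = 0 := by omega
      rw [if_neg h2]
      split_ifs <;> norm_num
    have heven : ∀ k : ℕ, chi2 (2 * k) = 0 := by
      intro k
      rw [chi2_apply, ch_eq]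
      have h2 : (2 * k) % 2 = 0 := by omega
      rw [if_pos h2]; norm_num
    have step1 : ∀ n : ℕ, ∀ F : ℕ → ℝ, ∑ a ∈ Ioc 0 (n + 1), F a = ∑ a ∈ Ioc 0 n, F a + F (n + 1) := by
      intro n F
      rw [Finset.sum_Ioc_succ_top (by omega)]
    induction k with
    | zero =>
      constructor
      · simp
      · simp only [mul_zero, zero_add]
        have := hodd 0
        simp only [mul_zero, zero_add] at this
        have e : Ioc 0 1 = {1} := by decide
        rw [e]; simp [this]; norm_num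
    | succ k ih =>
      obtain ⟨ih1, ih2⟩ := ih
      have a1 : (1 / 2) * ∑ a ∈ Ioc 0 (2 * (k + 1)), (a:ℝ)⁻¹ ≤
          ∑ a ∈ Ioc 0 (2 * (k + 1)), chi2 a / a := by
        rw [show 2 * (k + 1) = (2 * k + 1) + 1 by ring, step1, step1, step1, step1]
        rw [hodd k, show 2 * k + 1 + 1 = 2 * (k + 1) by ring, heven (k + 1)]
        push_cast
        have hk : (0:ℝ) ≤ k := Nat.cast_nonneg k
        have : (2 * ((k:ℝ) + 1))⁻¹ ≤ (2 * (k:ℝ) + 1)⁻¹ := by
          apply inv_anti₀ <;> linarith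
        rw [one_div (2 * (k:ℝ) + 1)]
        rw [zero_div]
        linarith
      refine ⟨a1, ?_⟩
      rw [step1, step1, hodd (k + 1)]
      push_cast
      have : 0 < (2 * ((k:ℝ) + 1) + 1)⁻¹ := by positivity
      rw [one_div (2 * ((k:ℝ) + 1) + 1)]
      linarith
  rcases Nat.even_or_odd' y with ⟨k, rfl | rfl⟩
  · exact (key k).1
  · exact (key k).2

theorem log_le_harm (y : ℕ) : Real.log (y + 1) ≤ ∑ a ∈ Ioc 0 y, (a:ℝ)⁻¹ := by
  have h := log_add_one_le_harmonic y
  rw [harmonic_eq_sum_Icc] at h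
  push_cast at h
  have e : Icc 1 y = Ioc 0 y := by ext a; simp [Nat.succ_le_iff]
  rw [e] at h
  exact h

/-- Lower bound for the sum of `rr` extended completely multiplicatively. -/
theorem sum_rr_ge (y : ℕ) :
    (1 / 10) * Real.log (y + 1) ≤ ∑ b ∈ Ioc 0 y, cmf rr b / b := by
  have h1 : ∑ n ∈ Ioc 0 y, (chi2 * chi) n / n ≤ (∑ b ∈ Ioc 0 y, cmf rr b / b) * 2 := by
    calc ∑ n ∈ Ioc 0 y, (chi2 * chi) n / n ≤ ∑ n ∈ Ioc 0 y, (cmf rr * sqf) n / n := by
          apply Finset.sum_le_sum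
          intro n _
          exact div_le_div_of_nonneg_right (chi2_chi_le n) (Nat.cast_nonneg n)
      _ ≤ (∑ b ∈ Ioc 0 y, cmf rr b / b) * ∑ c ∈ Ioc 0 y, sqf c / c :=
          sum_conv_le _ _ cmf_rr_nonneg sqf_nonneg y
      _ ≤ _ := by
          apply mul_le_mul_of_nonneg_left (sum_sqf_le y)
          exact Finset.sum_nonneg fun b _ => div_nonneg (cmf_rr_nonneg b) (Nat.cast_nonneg _)
  have h2 : (2 / 5) * ∑ a ∈ Ioc 0 y, chi2 a / a ≤ ∑ n ∈ Ioc 0 y, (chi2 * chi) n / n := by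
    rw [sum_conv_div, Finset.mul_sum]
    apply Finset.sum_le_sum
    intro a ha
    rw [Finset.mem_Ioc] at ha
    rw [mul_comm]
    apply mul_le_mul_of_nonneg_left
    · apply sum_chi_ge
      exact (Nat.one_le_div_iff ha.1).mpr ha.2
    · rw [chi2_apply]; positivity
  have h3 := sum_odd_ge y
  have h4 := log_le_harm y
  linarith

end

end Pool.Agent.Work.MP_c971ef_nt
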