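import Mathlib
import Pool.Agent.Work.MP_c971ef_nt.Chi

set_option autoImplicit false

namespace Pool.Agent.Work.MP_c971ef_nt

open Finset Nat ArithmeticFunction
open scoped BigOperators ArithmeticFunction.zeta

noncomputable section

/-- The polynomial `X (X^2 - 2)`. -/
def ff : Polynomial ℤ := Polynomial.X * (Polynomial.X ^ 2 - 2)

theorem ff_eval (n : ℤ) : ff.eval n = n * (n ^ 2 - 2) := by
  unfold ff
  simp

theorem rho_two : rho ff 2 = 1 := by
  unfold rho
  have : (Finset.range 2).filter (fun n : ℕ => ((2:ℕ) : ℤ) ∣ ff.eval (n : ℤ)) = {0} := by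
    ext n
    simp only [mem_filter, mem_range, mem_singleton, ff_eval]
    constructor
    · rintro ⟨h1, h2⟩
      interval_cases n
      · rfl
      · norm_num at h2
    · rintro rfl
      simp
  rw [this]; simp

theorem rho_odd {p : ℕ} (hp : p.Prime) (hp2 : p ≠ 2) : (rho ff p : ℤ) = 2 + ch p := by
  have : Fact p.Prime := ⟨hp⟩
  have hsqrt := legendreSym.card_sqrts p hp2 2
  rw [legendreSym.at_two hp2] at hsqrt
  have hcard : ((Finset.range p).filter (fun n : ℕ => (p : ℤ) ∣ (n : ℤ) ^ 2 - 2)).card =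
      {x : ZMod p | x ^ 2 = ((2:ℤ) : ZMod p)}.toFinset.card := by
    apply Finset.card_nbij' (fun n : ℕ => (n : ZMod p)) (fun x : ZMod p => x.val)
    · intro n hn
      simp only [coe_filter, mem_range, Set.mem_ofPred_eq] at hn
      simp only [Set.coe_toFinset, Set.mem_ofPred_eq]
      have h := (ZMod.intCast_zmod_eq_zero_iff_dvd ((n:ℤ) ^ 2 - 2) p).mpr hn.2
      push_cast at h ⊢
      exact sub_eq_zero.mp h
    · intro x hx
      simp only [Set.coe_toFinset, Set.mem_ofPred_eq] at hx
      simp only [coe_filter, mem_range, Set.mem_ofPred_eq]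
      refine ⟨ZMod.val_lt x, ?_⟩
      rw [← ZMod.intCast_zmod_eq_zero_iff_dvd]
      push_cast at hx ⊢
      rw [ZMod.natCast_zmod_val, hx, sub_self]
    · intro n hn
      simp only [coe_filter, mem_range, Set.mem_ofPred_eq] at hn
      exact ZMod.val_cast_of_lt hn.1
    · intro x _
      exact ZMod.natCast_zmod_val x
  have hsplit : (Finset.range p).filter (fun n : ℕ => (p : ℤ) ∣ ff.eval (n : ℤ)) =
      insert 0 ((Finset.range p).filter (fun n : ℕ => (p : ℤ) ∣ (n : ℤ) ^ 2 - 2)) := by
    ext n
    simp only [mem_filter, mem_range, mem_insert, ff_eval]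
    constructor
    · rintro ⟨h1, h2⟩
      rcases (Nat.prime_iff_prime_int.mp hp).dvd_or_dvd h2 with h3 | h3
      · left
        have : p ∣ n := by exact_mod_cast h3
        exact Nat.eq_zero_of_dvd_of_lt this h1
      · right; exact ⟨h1, h3⟩
    · rintro (rfl | ⟨h1, h2⟩)
      · exact ⟨hp.pos, by simp⟩
      · exact ⟨h1, h2.mul_left _⟩
  unfold rho
  rw [hsplit, Finset.card_insert_of_notMem]
  · rw [hcard, Nat.cast_add, hsqrt]
    unfold ch
    push_cast
    ring
  · simp only [mem_filter, mem_range, not_and]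
    intro _ h
    norm_num at h
    have h2 : p ∣ 2 := by exact_mod_cast h
    have := (Nat.prime_dvd_prime_iff_eq hp Nat.prime_two).mp h2
    exact hp2 this

theorem rho_pos (p : ℕ) (hp : p.Prime) : 1 ≤ rho ff p := by
  by_cases h2 : p = 2
  · subst h2; rw [rho_two]
  · have h := rho_odd hp h2
    rcases ch_cases p with h' | h' | h' <;> rw [h'] at h <;> omega

theorem rho_lt (p : ℕ) (hp : p.Prime) : rho ff p < p := by
  by_cases h2 : p = 2
  · subst h2; rw [rho_two]; norm_num
  by_cases h3 : p = 3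
  · subst h3
    have h := rho_odd hp h2
    have : ch 3 = -1 := by rw [ch_eq]; norm_num
    rw [this] at h
    omega
  · have h := rho_odd hp h2
    have h5 : 5 ≤ p := by
      have := hp.two_le
      by_contra hlt
      have : p = 4 := by omega
      subst this
      revert hp; decide
    rcases ch_cases p with h' | h' | h' <;> rw [h'] at h <;> omega

theorem rho_eq_one_add_rr (p : ℕ) (hp : p.Prime) : (rho ff p : ℝ) = 1 + rr p := by
  unfold rr
  by_cases h2 : p = 2
  · subst h2
    rw [rho_two]
    have : ch 2 = 0 := by rw [ch_eq]; norm_num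
    rw [this]; norm_num
  · have h := rho_odd hp h2
    have h' : (rho ff p : ℝ) = 2 + ch p := by exact_mod_cast h
    rw [h']
    have hne : ch p ≠ 0 := by
      rw [ch_eq]
      have : ¬ p % 2 = 0 := by
        intro h0
        have := (Nat.prime_dvd_prime_iff_eq Nat.prime_two hp).mp (Nat.dvd_of_mod_eq_zero h0)
        exact h2 this.symm
      rw [if_neg this]
      split_ifs <;> norm_num
    rcases ch_cases p with h' | h' | h'
    · exact absurd h' hne
    · rw [h']; norm_num
    · rw [h']; norm_num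

theorem cm_congr {t u : ℕ → ℝ} (h : ∀ p, p.Prime → t p = u p) (m : ℕ) : cm t m = cm u m := by
  by_cases hm : m = 0
  · subst hm
    have h1 := (cmf t).map_zero
    have h2 := (cmf u).map_zero
    rw [cmf_apply] at h1 h2
    rw [h1, h2]
  rw [cm_apply _ hm, cm_apply _ hm]
  unfold Finsupp.prod
  apply Finset.prod_congr rfl
  intro p hp
  simp only
  rw [h p (Nat.prime_of_mem_primeFactors (by simpa using hp))]

/-- Lower bound for the Selberg sum of `X (X^2 - 2)`. -/
theorem sum_rho_ge {A R : ℕ} (hAR : A * A ≤ R) :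
    (1 / 10) * (Real.log (A + 1)) ^ 2 ≤
      ∑ m ∈ Finset.Icc 1 R, cm (fun p => (rho ff p : ℝ) / p) m := by
  have h1 : ∀ m ∈ Finset.Icc 1 R,
      ((ζ : ArithmeticFunction ℝ) * cmf rr) m / m ≤ cm (fun p => (rho ff p : ℝ) / p) m := by
    intro m hm
    rw [Finset.mem_Icc] at hm
    have hm0 : m ≠ 0 := by omega
    rw [cm_div _ hm0]
    apply div_le_div_of_nonneg_right _ (Nat.cast_nonneg m)
    rw [coe_zeta_mul_apply]
    calc ∑ i ∈ m.divisors, cmf rr i ≤ cm (fun p => 1 + rr p) m :=
          sum_divisors_cm_le (fun p _ => rr_nonneg p) m hm0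
      _ = cm (fun p => (rho ff p : ℝ)) m := by
          apply cm_congr
          intro p hp
          rw [rho_eq_one_add_rr p hp]
  refine le_trans ?_ (Finset.sum_le_sum h1)
  have e : Icc 1 R = Ioc 0 R := by ext a; simp [Nat.succ_le_iff]
  rw [e]
  refine le_trans ?_ (le_sum_conv (ζ : ArithmeticFunction ℝ) (cmf rr) ?_ cmf_rr_nonneg hAR)
  · have h2 : ∑ a ∈ Ioc 0 A, (ζ : ArithmeticFunction ℝ) a / a = ∑ a ∈ Ioc 0 A, (a:ℝ)⁻¹ := by
      apply Finset.sum_congr rfl
      intro a ha
      rw [Finset.mem_Ioc] at ha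
      rw [natCoe_apply, zeta_apply, if_neg (by omega)]
      simp
    rw [h2]
    have h3 := log_le_harm A
    have h4 := sum_rr_ge A
    have h5 : 0 ≤ Real.log ((A:ℝ) + 1) := Real.log_nonneg (by
      have : (0:ℝ) ≤ A := Nat.cast_nonneg A
      linarith)
    calc (1 / 10) * (Real.log (A + 1)) ^ 2 = Real.log (A + 1) * ((1 / 10) * Real.log (A + 1)) := by
          ring
      _ ≤ _ := by
          apply mul_le_mul h3 h4 (by positivity) (h5.trans h3)
  · intro n
    rw [natCoe_apply, zeta_apply]
    split_ifs <;> norm_num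

end

end Pool.Agent.Work.MP_c971ef_nt
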