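import Mathlib
import Pool.Agent.Work.MP_c971ef_nt.PrimePairs

set_option autoImplicit false

namespace Pool.Agent.Work.MP_c971ef_nt

open Finset Nat ArithmeticFunction
open scoped BigOperators

noncomputable section

/-- Primes `p` with `p^2 - 2` prime, counted with Selberg's sieve. -/
theorem count_pp {N : ℕ} (hN : 2 ≤ N) :
    (((Finset.range N).filter (fun p : ℕ => p.Prime ∧ (p ^ 2 - 2).Prime)).card : ℝ) ≤
      2400 * N / (Real.log N) ^ 2 := by
  set x : ℝ := (N:ℝ) with hx
  have hx2 : (2:ℝ) ≤ x := by rw [hx]; exact_mod_cast hN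
  have hx0 : 0 < x := by linarith
  have hlog : 0 < Real.log x := Real.log_pos (by linarith)
  set y : ℝ := x ^ (1/14 : ℝ) with hy
  have hy1 : 1 ≤ y := Real.one_le_rpow (by linarith) (by norm_num)
  have hy0 : 0 < y := by linarith
  have hlogy : Real.log y = Real.log x / 14 := by
    rw [hy, Real.log_rpow hx0]; ring
  have hy14 : y ^ 14 = x := by
    rw [hy, ← Real.rpow_natCast, ← Real.rpow_mul hx0.le]; norm_num
  set A : ℕ := ⌊y⌋₊ with hA
  have hA1 : 1 ≤ A := Nat.one_le_floor_iff _ |>.mpr hy1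
  have hAy : (A:ℝ) ≤ y := Nat.floor_le hy0.le
  have hyA : y < A + 1 := Nat.lt_floor_add_one y
  have hlogA : Real.log x / 14 ≤ Real.log (A + 1) := by
    rw [← hlogy]
    exact Real.log_le_log hy0 hyA.le
  set R : ℕ := A * A with hR
  have hR1 : 1 ≤ R := Nat.mul_pos hA1 hA1
  have hsum := sum_rho_ge (A := A) (R := R) le_rfl
  have hsum2 : (Real.log x) ^ 2 / 1960 ≤
      ∑ m ∈ Finset.Icc 1 R, cm (fun p => (rho ff p : ℝ) / p) m := by
    refine le_trans ?_ hsum
    have : (Real.log x / 14) ^ 2 ≤ (Real.log (A + 1)) ^ 2 := by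
      apply pow_le_pow_left₀ (by positivity) hlogA
    calc (Real.log x) ^ 2 / 1960 = (1 / 10) * (Real.log x / 14) ^ 2 := by ring
      _ ≤ _ := by linarith
  have hsieve := poly_sieve ff rho_pos rho_lt N hR1
  have hR6 : (R:ℝ) ^ 6 ≤ y ^ 12 := by
    rw [hR]; push_cast
    calc ((A:ℝ) * A) ^ 6 = (A:ℝ) ^ 12 := by ring
      _ ≤ y ^ 12 := by gcongr
  have hR1' : (R:ℝ) ≤ y ^ 12 := by
    have : (1:ℝ) ≤ R := by exact_mod_cast hR1
    refine le_trans ?_ hR6
    calc (R:ℝ) = (R:ℝ) ^ 1 := by ring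
      _ ≤ (R:ℝ) ^ 6 := pow_le_pow_right₀ this (by norm_num)
  -- split into small primes and sifted elements
  have hsub : (Finset.range N).filter (fun p : ℕ => p.Prime ∧ (p ^ 2 - 2).Prime) ⊆
      (Finset.Icc 1 R) ∪ ((Finset.range N).filter
        (fun n : ℕ => Nat.Coprime (primorial R) (ff.eval (n : ℤ)).natAbs)) := by
    intro p hp
    rw [Finset.mem_filter, Finset.mem_range] at hp
    obtain ⟨hpN, hpp, hqp⟩ := hp
    rw [Finset.mem_union, Finset.mem_Icc, Finset.mem_filter, Finset.mem_range]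
    by_cases hpR : p ≤ R
    · left; exact ⟨hpp.one_lt.le, hpR⟩
    · right
      refine ⟨hpN, ?_⟩
      have hp2 : 2 ≤ p := hpp.two_le
      have hsq : 2 ≤ p ^ 2 := by nlinarith
      have hval : (ff.eval (p : ℤ)).natAbs = p * (p ^ 2 - 2) := by
        rw [ff_eval]
        have : ((p:ℤ) * ((p:ℤ) ^ 2 - 2)) = ((p * (p ^ 2 - 2) : ℕ) : ℤ) := by
          push_cast [Nat.cast_sub hsq]; ring
        rw [this, Int.natAbs_natCast]
      rw [hval]
      apply Nat.Coprime.mul_right
      · rw [Nat.coprime_comm, hpp.coprime_iff_not_dvd, hpp.dvd_primorial_iff]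
        exact hpR
      · rw [Nat.coprime_comm, hqp.coprime_iff_not_dvd, hqp.dvd_primorial_iff]
        have : p ≤ p ^ 2 - 2 := by
          have : p + 2 ≤ p ^ 2 := by nlinarith
          omega
        omega
  have hcard : (((Finset.range N).filter (fun p : ℕ => p.Prime ∧ (p ^ 2 - 2).Prime)).card : ℝ) ≤
      R + (((Finset.range N).filter
        (fun n : ℕ => Nat.Coprime (primorial R) (ff.eval (n : ℤ)).natAbs)).card : ℝ) := by
    have h1 := (Finset.card_le_card hsub).trans (Finset.card_union_le _ _)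
    rw [Nat.card_Icc] at h1
    have h2 : R + 1 - 1 = R := by omega
    rw [h2] at h1
    exact_mod_cast h1
  have hmain : x / (∑ m ∈ Finset.Icc 1 R, cm (fun p => (rho ff p : ℝ) / p) m) ≤
      1960 * x / (Real.log x) ^ 2 := by
    calc x / (∑ m ∈ Finset.Icc 1 R, cm (fun p => (rho ff p : ℝ) / p) m)
        ≤ x / ((Real.log x) ^ 2 / 1960) := by
          apply div_le_div_of_nonneg_left hx0.le (by positivity) hsum2
      _ = _ := by field_simp
  -- y ^ 12 is small
  have hlogle : Real.log x ≤ 14 * y := by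
    have := Real.log_le_self hy0.le
    rw [hlogy] at this
    linarith
  have hy12 : y ^ 12 ≤ 196 * x / (Real.log x) ^ 2 := by
    rw [le_div_iff₀ (by positivity)]
    calc y ^ 12 * (Real.log x) ^ 2 ≤ y ^ 12 * (14 * y) ^ 2 := by gcongr
      _ = 196 * y ^ 14 := by ring
      _ = 196 * x := by rw [hy14]
  have h0 : 0 ≤ x / (Real.log x) ^ 2 := by positivity
  have e1 : 1960 * x / (Real.log x) ^ 2 = 1960 * (x / (Real.log x) ^ 2) := by ring
  have e2 : 196 * x / (Real.log x) ^ 2 = 196 * (x / (Real.log x) ^ 2) := by ring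
  have e3 : 2400 * x / (Real.log x) ^ 2 = 2400 * (x / (Real.log x) ^ 2) := by ring
  rw [e3]
  rw [e1] at hmain
  rw [e2] at hy12
  refine hcard.trans ?_
  generalize (((Finset.range N).filter
        (fun n : ℕ => Nat.Coprime (primorial R) (ff.eval (n : ℤ)).natAbs)).card : ℝ) = c2 at *
  linarith

end

end Pool.Agent.Work.MP_c971ef_nt
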