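import Mathlib
import Pool.Agent.Work.MP_c971ef_nt.Count

set_option autoImplicit false

namespace Pool.Agent.Work.MP_c971ef_nt

open Finset Nat
open scoped BigOperators

noncomputable section

/-- Chebyshev-type upper bound for the primes in order. -/
theorem nth_prime_le {X : ℕ} (hX : 2 ≤ X) :
    (Nat.nth Nat.Prime X : ℝ) ≤ 41 * X * Real.log X := by
  set P : ℕ := Nat.nth Nat.Prime X with hP
  have hP4 : 4 ≤ P := by
    have := Nat.add_two_le_nth_prime X
    omega
  have hcount : Nat.primeCounting (P - 1) = X := by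
    rw [Nat.primeCounting_sub_one, hP, Nat.primeCounting'_nth_eq]
  have hpi := Chebyshev.pi_ge (P - 1)
  rw [hcount] at hpi
  have hPR : (4:ℝ) ≤ P := by exact_mod_cast hP4
  have hcast : ((P - 1 : ℕ) : ℝ) = (P:ℝ) - 1 := by
    rw [Nat.cast_sub (by omega)]; simp
  rw [hcast] at hpi
  have hlogpos : 0 < Real.log ((P:ℝ) - 1) := Real.log_pos (by linarith)
  rw [div_le_iff₀ hlogpos] at hpi
  have h1 : (P:ℝ) - 1 + 1 = P := by ring
  rw [h1] at hpi
  have hlogP : 0 < Real.log P := Real.log_pos (by linarith)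
  have hlog1 : Real.log ((P:ℝ) - 1) ≤ Real.log P := Real.log_le_log (by linarith) (by linarith)
  have hX2 : (2:ℝ) ≤ X := by exact_mod_cast hX
  have hlog2 : (0.69:ℝ) ≤ Real.log 2 := by have := Real.log_two_gt_d9; linarith
  -- (P - 1) log 2 <= (X + 1) log P
  have h2 : ((P:ℝ) - 1) * Real.log 2 ≤ (X + 1) * Real.log P := by
    have : (X:ℝ) * Real.log ((P:ℝ) - 1) ≤ X * Real.log P := by gcongr
    linarith
  have h3 : (P:ℝ) ≤ 4.5 * X * Real.log P := by
    have a1 : (P:ℝ) * (3/4) * 0.69 ≤ ((P:ℝ) - 1) * Real.log 2 := by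
      have : (P:ℝ) * (3/4) ≤ (P:ℝ) - 1 := by linarith
      calc (P:ℝ) * (3/4) * 0.69 ≤ ((P:ℝ) - 1) * 0.69 := by linarith
        _ ≤ _ := by
          apply mul_le_mul_of_nonneg_left hlog2; linarith
    have a2 : ((X:ℝ) + 1) * Real.log P ≤ (1.5 * X) * Real.log P := by
      apply mul_le_mul_of_nonneg_right _ hlogP.le
      linarith
    have a3 : 0 ≤ (X:ℝ) * Real.log P := by positivity
    linarith
  have h4 : Real.log P ≤ 2 * Real.sqrt P := by
    have hs : 0 < Real.sqrt P := Real.sqrt_pos.mpr (by linarith)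
    have e : Real.log P = 2 * Real.log (Real.sqrt P) := by
      rw [Real.log_sqrt (by linarith)]; ring
    rw [e]
    have := Real.log_le_self hs.le
    linarith
  have hs : 0 < Real.sqrt P := Real.sqrt_pos.mpr (by linarith)
  have h5 : Real.sqrt P ≤ 9 * X := by
    have e : (P:ℝ) = Real.sqrt P * Real.sqrt P := (Real.mul_self_sqrt (by linarith)).symm
    have h6 : Real.sqrt P * Real.sqrt P ≤ 9 * X * Real.sqrt P := by
      rw [← e]
      calc (P:ℝ) ≤ 4.5 * X * Real.log P := h3
        _ ≤ 4.5 * X * (2 * Real.sqrt P) := by gcongr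
        _ = 9 * X * Real.sqrt P := by ring
    exact le_of_mul_le_mul_right h6 hs
  have h6 : (P:ℝ) ≤ 81 * X ^ 2 := by
    have e : (P:ℝ) = Real.sqrt P ^ 2 := (Real.sq_sqrt (by linarith)).symm
    rw [e]
    calc Real.sqrt P ^ 2 ≤ (9 * X) ^ 2 := by gcongr
      _ = 81 * (X:ℝ) ^ 2 := by ring
  have hlogX : Real.log 2 ≤ Real.log X := Real.log_le_log (by norm_num) hX2
  have h7 : Real.log P ≤ 9 * Real.log X := by
    have a1 : Real.log P ≤ Real.log (81 * (X:ℝ) ^ 2) := Real.log_le_log (by linarith) h6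
    rw [Real.log_mul (by norm_num) (by positivity), Real.log_pow] at a1
    have a2 : Real.log 81 ≤ Real.log (2 ^ 7) := Real.log_le_log (by norm_num) (by norm_num)
    rw [Real.log_pow] at a2
    push_cast at a1 a2
    linarith
  calc (P:ℝ) ≤ 4.5 * X * Real.log P := h3
    _ ≤ 4.5 * X * (9 * Real.log X) := by gcongr
    _ = 40.5 * (X * Real.log X) := by ring
    _ ≤ 41 * (X * Real.log X) := by
        have : 0 ≤ (X:ℝ) * Real.log X := by
          have := Real.log_pos (show (1:ℝ) < X by linarith)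
          positivity
        linarith
    _ = 41 * X * Real.log X := by ring

/-- The indices `j` (from 1) for which `p_j^2 - 2` is prime. -/
def goodIdx (j : ℕ) : Prop := Nat.Prime ((Nat.nth Nat.Prime (j - 1)) ^ 2 - 2)

instance : DecidablePred goodIdx := fun _ => by unfold goodIdx; infer_instance

theorem card_goodIdx_le {X : ℕ} (hX : 2 ≤ X) :
    (((Finset.Icc 1 X).filter goodIdx).card : ℝ) ≤ 98400 * X / Real.log X := by
  set P : ℕ := Nat.nth Nat.Prime X with hP
  have hinf := Nat.infinite_setOfPred_prime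
  have hPX : X + 2 ≤ P := Nat.add_two_le_nth_prime X
  have h1 : ((Finset.Icc 1 X).filter goodIdx).card ≤
      ((Finset.range P).filter (fun p : ℕ => p.Prime ∧ (p ^ 2 - 2).Prime)).card := by
    apply Finset.card_le_card_of_injOn (fun j => Nat.nth Nat.Prime (j - 1))
    · intro j hj
      rw [Finset.mem_coe, Finset.mem_filter, Finset.mem_Icc] at hj
      obtain ⟨⟨hj1, hj2⟩, hj3⟩ := hj
      rw [Finset.mem_coe, Finset.mem_filter, Finset.mem_range]
      refine ⟨?_, Nat.prime_nth_prime _, hj3⟩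
      exact (Nat.nth_lt_nth hinf).mpr (by omega)
    · intro a ha b hb hab
      rw [Finset.mem_coe, Finset.mem_filter, Finset.mem_Icc] at ha hb
      have := Nat.nth_injective hinf hab
      omega
  have h2 := count_pp (N := P) (by omega)
  have h3 := nth_prime_le hX
  have hX2 : (2:ℝ) ≤ X := by exact_mod_cast hX
  have hPXr : (X:ℝ) ≤ P := by exact_mod_cast (by omega : X ≤ P)
  have hlogX : 0 < Real.log X := Real.log_pos (by linarith)
  have hlogP : Real.log X ≤ Real.log P := Real.log_le_log (by linarith) hPXr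
  have h1' : (((Finset.Icc 1 X).filter goodIdx).card : ℝ) ≤
      (((Finset.range P).filter (fun p : ℕ => p.Prime ∧ (p ^ 2 - 2).Prime)).card : ℝ) := by
    exact_mod_cast h1
  refine h1'.trans (h2.trans ?_)
  calc 2400 * (P:ℝ) / (Real.log P) ^ 2 ≤ 2400 * (41 * X * Real.log X) / (Real.log X) ^ 2 := by
        gcongr
    _ = 98400 * X / Real.log X := by
        field_simp
        ring

end

end Pool.Agent.Work.MP_c971ef_nt
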