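import Mathlib
import Pool.Agent.Work.MP_c971ef_nt.Conv

set_option autoImplicit false

namespace Pool.Agent.Work.MP_c971ef_nt

open Finset Nat
open scoped BigOperators

noncomputable section

/-- The harmonic sum up to `K`. -/
def hK (K : ℕ) : ℝ := ∑ k ∈ Ioc 0 K, (k:ℝ)⁻¹

/-- The number of divisors of `j` that are at most `K`. -/
def dK (K j : ℕ) : ℕ := ((Ioc 0 K).filter (fun k => k ∣ j)).card

theorem card_divisors_mul_le (a b : ℕ) :
    (a * b).divisors.card ≤ a.divisors.card * b.divisors.card := by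
  rw [Nat.divisors_mul]
  exact Finset.card_mul_le

theorem dK_mul_le (K k i : ℕ) (hk : 0 < k) : dK K (k * i) ≤ k.divisors.card * dK K i := by
  unfold dK
  rw [← Finset.card_product]
  apply Finset.card_le_card_of_injOn (fun e => (Nat.gcd e k, e / Nat.gcd e k))
  · intro e he
    rw [Finset.mem_coe, Finset.mem_filter, Finset.mem_Ioc] at he
    obtain ⟨⟨h1, h2⟩, h3⟩ := he
    rw [Finset.mem_coe, Finset.mem_product, Nat.mem_divisors, Finset.mem_filter, Finset.mem_Ioc]
    have hg : 0 < Nat.gcd e k := Nat.gcd_pos_of_pos_left _ h1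
    refine ⟨⟨Nat.gcd_dvd_right _ _, hk.ne'⟩, ⟨?_, ?_⟩, ?_⟩
    · exact Nat.div_pos (Nat.le_of_dvd h1 (Nat.gcd_dvd_left _ _)) hg
    · exact (Nat.div_le_self _ _).trans h2
    · have hcop : Nat.Coprime (e / Nat.gcd e k) (k / Nat.gcd e k) :=
        Nat.coprime_div_gcd_div_gcd hg
      apply hcop.dvd_of_dvd_mul_left
      have he' : Nat.gcd e k * (e / Nat.gcd e k) = e := Nat.mul_div_cancel' (Nat.gcd_dvd_left e k)
      have hk' : Nat.gcd e k * (k / Nat.gcd e k) = k := Nat.mul_div_cancel' (Nat.gcd_dvd_right e k)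
      apply Nat.dvd_of_mul_dvd_mul_left hg
      rw [he', ← mul_assoc, hk']
      exact h3
  · intro a ha b hb hab
    rw [Finset.mem_coe, Finset.mem_filter, Finset.mem_Ioc] at ha hb
    simp only [Prod.mk.injEq] at hab
    have h1 := Nat.div_mul_cancel (Nat.gcd_dvd_left a k)
    have h2 := Nat.div_mul_cancel (Nat.gcd_dvd_left b k)
    rw [← h1, ← h2, hab.2, hab.1]

/-- Sum of powers of the divisor function over `k ≤ K` with weight `1/k`. -/
def dsum (K s : ℕ) : ℝ := ∑ k ∈ Ioc 0 K, ((k.divisors.card : ℝ) ^ s) / k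

theorem dsum_nonneg (K s : ℕ) : 0 ≤ dsum K s := by
  unfold dsum
  exact Finset.sum_nonneg fun k _ => by positivity

theorem dsum_zero (K : ℕ) : dsum K 0 = hK K := by
  unfold dsum hK
  apply Finset.sum_congr rfl
  intro k _
  simp

theorem dsum_succ_le (K s : ℕ) : dsum K (s + 1) ≤ dsum K s ^ 2 := by
  set f : ArithmeticFunction ℝ := ⟨fun k => if k = 0 then 0 else (k.divisors.card : ℝ) ^ s, by simp⟩
    with hf
  have hf0 : ∀ n, 0 ≤ f n := by
    intro n
    change 0 ≤ (if n = 0 then (0:ℝ) else (n.divisors.card : ℝ) ^ s)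
    split_ifs <;> positivity
  have h1 : ∀ k ∈ Ioc 0 K, ((k.divisors.card : ℝ) ^ (s + 1)) / k ≤ (f * f) k / k := by
    intro k hk
    rw [Finset.mem_Ioc] at hk
    apply div_le_div_of_nonneg_right _ (Nat.cast_nonneg k)
    rw [ArithmeticFunction.mul_apply]
    have h2 : ∀ x ∈ k.divisorsAntidiagonal, (k.divisors.card : ℝ) ^ s ≤ f x.1 * f x.2 := by
      intro x hx
      obtain ⟨hx1, hx2⟩ := Nat.mem_divisorsAntidiagonal.mp hx
      have hx10 : x.1 ≠ 0 := by rintro h; rw [h] at hx1; simp at hx1; omega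
      have hx20 : x.2 ≠ 0 := by rintro h; rw [h] at hx1; simp at hx1; omega
      change _ ≤ (if x.1 = 0 then (0:ℝ) else (x.1.divisors.card : ℝ) ^ s) *
        (if x.2 = 0 then (0:ℝ) else (x.2.divisors.card : ℝ) ^ s)
      rw [if_neg hx10, if_neg hx20, ← mul_pow, ← hx1]
      apply pow_le_pow_left₀ (Nat.cast_nonneg _)
      exact_mod_cast card_divisors_mul_le x.1 x.2
    calc (k.divisors.card : ℝ) ^ (s + 1) = (k.divisors.card : ℝ) * (k.divisors.card : ℝ) ^ s := by
          ring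
      _ = ∑ x ∈ k.divisorsAntidiagonal, (k.divisors.card : ℝ) ^ s := by
          rw [Nat.sum_divisorsAntidiagonal (fun _ _ => (k.divisors.card : ℝ) ^ s),
            Finset.sum_const, nsmul_eq_mul]
      _ ≤ _ := Finset.sum_le_sum h2
  have h3 : ∑ a ∈ Ioc 0 K, f a / a = dsum K s := by
    unfold dsum
    apply Finset.sum_congr rfl
    intro a ha
    rw [Finset.mem_Ioc] at ha
    change (if a = 0 then (0:ℝ) else (a.divisors.card : ℝ) ^ s) / a = _
    rw [if_neg (by omega)]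
  calc dsum K (s + 1) ≤ ∑ k ∈ Ioc 0 K, (f * f) k / k := Finset.sum_le_sum h1
    _ ≤ (∑ a ∈ Ioc 0 K, f a / a) * ∑ c ∈ Ioc 0 K, f c / c := sum_conv_le f f hf0 hf0 K
    _ = dsum K s ^ 2 := by rw [h3, sq]

theorem dsum_le (K s : ℕ) : dsum K s ≤ hK K ^ (2 ^ s) := by
  induction s with
  | zero => rw [dsum_zero]; simp
  | succ s ih =>
    calc dsum K (s + 1) ≤ dsum K s ^ 2 := dsum_succ_le K s
      _ ≤ (hK K ^ (2 ^ s)) ^ 2 := pow_le_pow_left₀ (dsum_nonneg K s) ih 2
      _ = hK K ^ (2 ^ (s + 1)) := by rw [← pow_mul, pow_succ]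

theorem hK_nonneg (K : ℕ) : 0 ≤ hK K := by
  unfold hK
  exact Finset.sum_nonneg fun k _ => by positivity

theorem hK_le (K : ℕ) : hK K ≤ 1 + Real.log K := by
  have h := harmonic_le_one_add_log K
  rw [harmonic_eq_sum_Icc] at h
  push_cast at h
  have e : Icc 1 K = Ioc 0 K := by ext a; simp [Nat.succ_le_iff]
  rw [e] at h
  exact h

theorem one_le_hK {K : ℕ} (hK1 : 1 ≤ K) : 1 ≤ hK K := by
  unfold hK
  have : ((1:ℕ):ℝ)⁻¹ ≤ ∑ k ∈ Ioc 0 K, (k:ℝ)⁻¹ :=
    Finset.single_le_sum (f := fun k : ℕ => (k:ℝ)⁻¹) (fun k _ => by positivity)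
      (Finset.mem_Ioc.mpr ⟨one_pos, hK1⟩)
  simpa using this

/-- Moment bound for the truncated divisor function. -/
theorem moment_le (K s X : ℕ) :
    ∑ j ∈ Ioc 0 X, (dK K j : ℝ) ^ s ≤ X * hK K ^ (2 ^ s - 1) := by
  induction s generalizing X with
  | zero => simp
  | succ s ih =>
    -- expand one factor
    have h1 : ∀ j ∈ Ioc 0 X, (dK K j : ℝ) ^ (s + 1) =
        ∑ k ∈ Ioc 0 K, if k ∣ j then (dK K j : ℝ) ^ s else 0 := by
      intro j _
      rw [← Finset.sum_filter, Finset.sum_const, nsmul_eq_mul, pow_succ]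
      change _ = (dK K j : ℝ) * _
      ring
    rw [Finset.sum_congr rfl h1, Finset.sum_comm]
    have h2 : ∀ k ∈ Ioc 0 K, (∑ j ∈ Ioc 0 X, if k ∣ j then (dK K j : ℝ) ^ s else 0) ≤
        ((k.divisors.card : ℝ) ^ s / k) * (X * hK K ^ (2 ^ s - 1)) := by
      intro k hk
      rw [Finset.mem_Ioc] at hk
      rw [← Finset.sum_filter]
      have himg : (Ioc 0 X).filter (fun j => k ∣ j) = (Ioc 0 (X / k)).image (fun i => k * i) := by
        ext j
        simp only [mem_filter, mem_Ioc, mem_image]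
        constructor
        · rintro ⟨⟨h1, h2⟩, ⟨i, rfl⟩⟩
          refine ⟨i, ⟨?_, ?_⟩, rfl⟩
          · exact Nat.pos_of_ne_zero (by rintro rfl; simp at h1)
          · rw [Nat.le_div_iff_mul_le hk.1, mul_comm]; exact h2
        · rintro ⟨i, ⟨h1, h2⟩, rfl⟩
          rw [Nat.le_div_iff_mul_le hk.1, mul_comm] at h2
          exact ⟨⟨Nat.mul_pos hk.1 h1, h2⟩, Dvd.intro _ rfl⟩
      rw [himg, Finset.sum_image (by
        intro a _ b _ hab
        exact Nat.eq_of_mul_eq_mul_left hk.1 hab)]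
      calc ∑ i ∈ Ioc 0 (X / k), (dK K (k * i) : ℝ) ^ s
          ≤ ∑ i ∈ Ioc 0 (X / k), (k.divisors.card : ℝ) ^ s * (dK K i : ℝ) ^ s := by
            apply Finset.sum_le_sum
            intro i _
            rw [← mul_pow]
            apply pow_le_pow_left₀ (Nat.cast_nonneg _)
            exact_mod_cast dK_mul_le K k i hk.1
        _ = (k.divisors.card : ℝ) ^ s * ∑ i ∈ Ioc 0 (X / k), (dK K i : ℝ) ^ s := by
            rw [Finset.mul_sum]
        _ ≤ (k.divisors.card : ℝ) ^ s * (((X / k : ℕ) : ℝ) * hK K ^ (2 ^ s - 1)) := by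
            apply mul_le_mul_of_nonneg_left (ih (X / k)) (by positivity)
        _ ≤ (k.divisors.card : ℝ) ^ s * (((X : ℝ) / k) * hK K ^ (2 ^ s - 1)) := by
            apply mul_le_mul_of_nonneg_left _ (by positivity)
            apply mul_le_mul_of_nonneg_right Nat.cast_div_le
            exact pow_nonneg (hK_nonneg K) _
        _ = _ := by ring
    calc ∑ k ∈ Ioc 0 K, ∑ j ∈ Ioc 0 X, (if k ∣ j then (dK K j : ℝ) ^ s else 0)
        ≤ ∑ k ∈ Ioc 0 K, ((k.divisors.card : ℝ) ^ s / k) * (X * hK K ^ (2 ^ s - 1)) :=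
          Finset.sum_le_sum h2
      _ = dsum K s * (X * hK K ^ (2 ^ s - 1)) := by rw [← Finset.sum_mul]; rfl
      _ ≤ hK K ^ (2 ^ s) * (X * hK K ^ (2 ^ s - 1)) := by
          apply mul_le_mul_of_nonneg_right (dsum_le K s)
          exact mul_nonneg (Nat.cast_nonneg _) (pow_nonneg (hK_nonneg K) _)
      _ = X * (hK K ^ (2 ^ s) * hK K ^ (2 ^ s - 1)) := by ring
      _ = X * hK K ^ (2 ^ (s + 1) - 1) := by
          rw [← pow_add]
          congr 2
          have : 1 ≤ 2 ^ s := Nat.one_le_two_pow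
          rw [pow_succ]
          omega

end

end Pool.Agent.Work.MP_c971ef_nt
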