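import Mathlib
import Pool.Agent.Work.MP_c971ef_nt.Index
import Pool.Agent.Work.MP_c971ef_nt.Moment

set_option autoImplicit false

namespace Pool.Agent.Work.MP_c971ef_nt

open Finset Nat
open scoped BigOperators

noncomputable section

/-- Pairs `(n, k)` with `n ≤ N`, `k ≤ K` and good index `k * n`. -/
def pairs (N K : ℕ) : Finset (ℕ × ℕ) :=
  (Icc 1 N ×ˢ Icc 1 K).filter (fun x => goodIdx (x.2 * x.1))

theorem pairs_card_le (N K : ℕ) :
    (pairs N K).card ≤ ∑ j ∈ (Icc 1 (K * N)).filter goodIdx, dK K j := by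
  have hmaps : ∀ x ∈ pairs N K, x.2 * x.1 ∈ (Icc 1 (K * N)).filter goodIdx := by
    intro x hx
    rw [pairs, Finset.mem_filter, Finset.mem_product, Finset.mem_Icc, Finset.mem_Icc] at hx
    obtain ⟨⟨⟨h1, h2⟩, h3, h4⟩, h5⟩ := hx
    rw [Finset.mem_filter, Finset.mem_Icc]
    exact ⟨⟨Nat.mul_pos h3 h1, Nat.mul_le_mul h4 h2⟩, h5⟩
  rw [Finset.card_eq_sum_card_fiberwise hmaps]
  apply Finset.sum_le_sum
  intro j hj
  rw [Finset.mem_filter, Finset.mem_Icc] at hj
  unfold dK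
  apply Finset.card_le_card_of_injOn (fun x => x.2)
  · intro x hx
    rw [Finset.mem_coe, Finset.mem_filter, pairs, Finset.mem_filter, Finset.mem_product,
      Finset.mem_Icc, Finset.mem_Icc] at hx
    obtain ⟨⟨⟨⟨h1, h2⟩, h3, h4⟩, _⟩, h6⟩ := hx
    rw [Finset.mem_coe, Finset.mem_filter, Finset.mem_Ioc]
    exact ⟨⟨h3, h4⟩, Dvd.intro _ h6⟩
  · intro a ha b hb hab
    rw [Finset.mem_coe, Finset.mem_filter, pairs, Finset.mem_filter, Finset.mem_product,
      Finset.mem_Icc, Finset.mem_Icc] at ha hb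
    obtain ⟨⟨⟨⟨a1, a2⟩, a3, a4⟩, _⟩, a6⟩ := ha
    obtain ⟨⟨⟨⟨b1, b2⟩, b3, b4⟩, _⟩, b6⟩ := hb
    simp only at hab
    have : a.1 = b.1 := by
      rw [← b6, hab] at a6
      exact Nat.eq_of_mul_eq_mul_left (by omega) a6
    exact Prod.ext this hab

theorem pairs_pow_le (N K s : ℕ) :
    ((pairs N K).card : ℝ) ^ (s + 1) ≤
      (((Icc 1 (K * N)).filter goodIdx).card : ℝ) ^ s * ((K * N : ℕ) * hK K ^ (2 ^ (s + 1) - 1)) := by
  have h1 : ((pairs N K).card : ℝ) ≤ ∑ j ∈ (Icc 1 (K * N)).filter goodIdx, (dK K j : ℝ) := by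
    exact_mod_cast pairs_card_le N K
  calc ((pairs N K).card : ℝ) ^ (s + 1)
      ≤ (∑ j ∈ (Icc 1 (K * N)).filter goodIdx, (dK K j : ℝ)) ^ (s + 1) :=
        pow_le_pow_left₀ (Nat.cast_nonneg _) h1 _
    _ ≤ (((Icc 1 (K * N)).filter goodIdx).card : ℝ) ^ s *
          ∑ j ∈ (Icc 1 (K * N)).filter goodIdx, (dK K j : ℝ) ^ (s + 1) :=
        pow_sum_le_card_mul_sum_pow (fun _ _ => Nat.cast_nonneg _) s
    _ ≤ _ := by
        apply mul_le_mul_of_nonneg_left _ (by positivity)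
        refine le_trans ?_ (moment_le K (s + 1) (K * N))
        apply Finset.sum_le_sum_of_subset_of_nonneg
        · intro j hj
          rw [Finset.mem_filter, Finset.mem_Icc] at hj
          rw [Finset.mem_Ioc]
          exact ⟨by omega, hj.1.2⟩
        · intro j _ _; positivity

/-- The elements `n ≤ N` having an admissible `k ≤ K`. -/
def exc (N K : ℕ) : Finset ℕ :=
  (Icc 1 N).filter (fun n => ∃ k ∈ Icc 1 K, goodIdx (k * n))

theorem exc_card_le_pairs (N K : ℕ) : (exc N K).card ≤ (pairs N K).card := by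
  have : exc N K ⊆ (pairs N K).image (fun x => x.1) := by
    intro n hn
    rw [exc, Finset.mem_filter] at hn
    obtain ⟨hn1, k, hk, hg⟩ := hn
    rw [Finset.mem_image]
    refine ⟨(n, k), ?_, rfl⟩
    rw [pairs, Finset.mem_filter, Finset.mem_product]
    exact ⟨⟨hn1, hk⟩, hg⟩
  exact (Finset.card_le_card this).trans Finset.card_image_le

theorem exc_card_le (N K : ℕ) : (exc N K).card ≤ N := by
  unfold exc
  refine (Finset.card_filter_le _ _).trans ?_
  simp

theorem almost_all (ε : ℝ) (hε : 0 < ε) :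
    ∃ C : ℝ, 0 < C ∧ ∀ N K : ℕ, 3 ≤ N → 1 ≤ K →
      ((exc N K).card : ℝ) ≤ C * K * N / (Real.log N) ^ (1 - ε) := by
  set s : ℕ := ⌈2 / ε⌉₊ with hs
  have hsε : 2 / ε ≤ s := Nat.le_ceil _
  set m : ℕ := s + 1 with hm
  have hmε : 2 ≤ (m:ℝ) * ε := by
    have h1 : 2 ≤ (s:ℝ) * ε := by
      rw [div_le_iff₀ hε] at hsε; exact hsε
    have h2 : (m:ℝ) = s + 1 := by rw [hm]; push_cast; ring
    rw [h2]; nlinarith
  set D : ℝ := (1 + 2 ^ m) ^ (2 ^ m - 1) with hD
  have hD1 : 1 ≤ D := by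
    rw [hD]; apply one_le_pow₀
    have : (0:ℝ) < 2 ^ m := by positivity
    linarith
  set C : ℝ := 98400 ^ s * D with hC
  have hC1 : 1 ≤ C := by
    rw [hC]
    have : (1:ℝ) ≤ 98400 ^ s := one_le_pow₀ (by norm_num)
    nlinarith
  refine ⟨C, by linarith, ?_⟩
  intro N K hN hK1
  have hNR : (3:ℝ) ≤ N := by exact_mod_cast hN
  have hKR : (1:ℝ) ≤ K := by exact_mod_cast hK1
  set L : ℝ := Real.log N with hL
  have hL1 : 1 ≤ L := by
    rw [hL, Real.le_log_iff_exp_le (by linarith)]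
    have := Real.exp_one_lt_d9
    linarith
  have hL0 : 0 < L := by linarith
  have hrp : (Real.log N) ^ (1 - ε) = (L ^ (ε - 1))⁻¹ := by
    rw [← hL, ← Real.rpow_neg hL0.le]; congr 1; ring
  rw [hrp, div_inv_eq_mul]
  have hLp : 0 < L ^ (ε - 1) := Real.rpow_pos_of_pos hL0 _
  have hNK0 : 0 ≤ (K:ℝ) * N := by positivity
  rcases lt_or_ge L (K:ℝ) with hcase | hcase
  · -- K > L: trivial bound
    have h1 : ((exc N K).card : ℝ) ≤ N := by exact_mod_cast exc_card_le N K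
    have h2 : L ^ (-1:ℝ) ≤ L ^ (ε - 1) := Real.rpow_le_rpow_of_exponent_le hL1 (by linarith)
    rw [Real.rpow_neg_one] at h2
    have h3 : 1 ≤ (K:ℝ) * L⁻¹ := by
      rw [← div_eq_mul_inv, one_le_div hL0]; exact hcase.le
    calc ((exc N K).card : ℝ) ≤ N := h1
      _ ≤ ((K:ℝ) * L⁻¹) * N := by nlinarith
      _ = 1 * K * N * L⁻¹ := by ring
      _ ≤ C * K * N * L ^ (ε - 1) := by gcongr
  · -- K ≤ L
    have hP : ((exc N K).card : ℝ) ≤ ((pairs N K).card : ℝ) := by
      exact_mod_cast exc_card_le_pairs N K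
    refine hP.trans ?_
    set P : ℝ := ((pairs N K).card : ℝ) with hPdef
    have hP0 : 0 ≤ P := Nat.cast_nonneg _
    have hKN : 2 ≤ K * N := by nlinarith
    have hJ := card_goodIdx_le (X := K * N) hKN
    have hcast : ((K * N : ℕ) : ℝ) = (K:ℝ) * N := by push_cast; ring
    rw [hcast] at hJ
    have hlogKN : L ≤ Real.log ((K:ℝ) * N) := by
      rw [hL]; apply Real.log_le_log (by linarith); nlinarith
    have hJ2 : (((Icc 1 (K * N)).filter goodIdx).card : ℝ) ≤ 98400 * (K * N) / L := by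
      refine hJ.trans ?_
      exact div_le_div_of_nonneg_left (by positivity) hL0 hlogKN
    have hpow := pairs_pow_le N K s
    rw [hcast] at hpow
    -- bound for hK
    have hhK : hK K ≤ (1 + 2 ^ m) * L ^ ((2 ^ m : ℝ)⁻¹) := by
      have h2m : (0:ℝ) < 2 ^ m := by positivity
      have h1 : hK K ≤ 1 + Real.log K := hK_le K
      have h2 : Real.log K ≤ Real.log L := Real.log_le_log (by linarith) hcase
      have h3 : Real.log L ≤ L ^ ((2 ^ m : ℝ)⁻¹) / ((2 ^ m : ℝ)⁻¹) :=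
        Real.log_le_rpow_div hL0.le (by positivity)
      have h4 : 1 ≤ L ^ ((2 ^ m : ℝ)⁻¹) := Real.one_le_rpow hL1 (by positivity)
      rw [div_inv_eq_mul] at h3
      nlinarith
    have hhK0 := hK_nonneg K
    have hhKpow : hK K ^ (2 ^ m - 1) ≤ D * L := by
      calc hK K ^ (2 ^ m - 1) ≤ ((1 + 2 ^ m) * L ^ ((2 ^ m : ℝ)⁻¹)) ^ (2 ^ m - 1) :=
            pow_le_pow_left₀ hhK0 hhK _
        _ = D * (L ^ ((2 ^ m : ℝ)⁻¹)) ^ (2 ^ m - 1) := by rw [mul_pow]
        _ ≤ D * L := by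
            apply mul_le_mul_of_nonneg_left _ (by linarith)
            rw [← Real.rpow_natCast, ← Real.rpow_mul hL0.le]
            conv_rhs => rw [← Real.rpow_one L]
            apply Real.rpow_le_rpow_of_exponent_le hL1
            have h2m : (0:ℝ) < 2 ^ m := by positivity
            rw [inv_mul_le_iff₀ h2m, mul_one]
            have : ((2 ^ m - 1 : ℕ) : ℝ) ≤ ((2 ^ m : ℕ) : ℝ) := by
              exact_mod_cast Nat.sub_le _ _
            push_cast at this ⊢
            linarith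
    have hfin : P ^ m ≤ (C * K * N * L ^ (ε - 1)) ^ m := by
      have h1 : P ^ m ≤ (98400 * (K * N) / L) ^ s * ((K:ℝ) * N * (D * L)) := by
        refine hpow.trans ?_
        gcongr
      have h2 : (98400 * ((K:ℝ) * N) / L) ^ s * ((K:ℝ) * N * (D * L)) =
          C * ((K:ℝ) * N) ^ m * (L * (L ^ s)⁻¹) := by
        rw [hC, hm, div_pow, mul_pow, pow_succ]
        field_simp
      have h3 : L * (L ^ s)⁻¹ ≤ (L ^ (ε - 1)) ^ m := by
        have e1 : L * (L ^ s)⁻¹ = L ^ ((1:ℝ) - s) := by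
          rw [Real.rpow_sub hL0, Real.rpow_one, Real.rpow_natCast, div_eq_mul_inv]
        rw [e1, ← Real.rpow_natCast, ← Real.rpow_mul hL0.le]
        apply Real.rpow_le_rpow_of_exponent_le hL1
        have : (m:ℝ) = s + 1 := by rw [hm]; push_cast; ring
        nlinarith
      have h4 : C ≤ C ^ m := by
        calc C = C ^ 1 := by ring
          _ ≤ C ^ m := pow_le_pow_right₀ hC1 (by omega)
      calc P ^ m ≤ C * ((K:ℝ) * N) ^ m * (L * (L ^ s)⁻¹) := by rw [← h2]; exact h1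
        _ ≤ C ^ m * ((K:ℝ) * N) ^ m * (L ^ (ε - 1)) ^ m := by gcongr
        _ = _ := by rw [← mul_pow, ← mul_pow]; ring
    exact le_of_pow_le_pow_left₀ (by omega) (by positivity) hfin

end

end Pool.Agent.Work.MP_c971ef_nt
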