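import Mathlib

set_option autoImplicit false

namespace Pool.Agent.Work.MP_c971ef_nt

open Finset Nat
open scoped BigOperators

noncomputable section

/-- `∑_{p ≤ n} log p / p`. -/
def mA (n : ℕ) : ℝ := ∑ p ∈ (Ioc 0 n).filter Nat.Prime, Real.log p / p

/-- `∑_{p ≤ n} 1 / p`. -/
def mB (n : ℕ) : ℝ := ∑ p ∈ (Ioc 0 n).filter Nat.Prime, (p:ℝ)⁻¹

theorem sum_log_primeFactors_le {k : ℕ} (hk : 0 < k) :
    ∑ p ∈ k.primeFactors, Real.log p ≤ Real.log k := by
  rw [← Real.log_prod (fun p hp => by
    have := (Nat.prime_of_mem_primeFactors hp).pos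
    positivity)]
  have h1 : 0 < ∏ p ∈ k.primeFactors, p :=
    Finset.prod_pos fun p hp => (Nat.prime_of_mem_primeFactors hp).pos
  have h2 : ∏ p ∈ k.primeFactors, p ≤ k := Nat.le_of_dvd hk (Nat.prod_primeFactors_dvd k)
  have h3 : ((∏ p ∈ k.primeFactors, (p:ℝ))) = ((∏ p ∈ k.primeFactors, p : ℕ) : ℝ) := by
    push_cast; rfl
  rw [h3]
  apply Real.log_le_log
  · exact_mod_cast h1
  · exact_mod_cast h2

/-- Mertens' first theorem, upper bound. -/
theorem mA_le {n : ℕ} (hn : 1 ≤ n) : mA n ≤ Real.log n + Real.log 4 := by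
  have hnR : (0:ℝ) < n := by exact_mod_cast hn
  have h1 : ∑ k ∈ Ioc 0 n, ∑ p ∈ k.primeFactors, Real.log p =
      ∑ p ∈ (Ioc 0 n).filter Nat.Prime, ((n / p : ℕ) : ℝ) * Real.log p := by
    have e1 : ∀ k ∈ Ioc 0 n, ∑ p ∈ k.primeFactors, Real.log p =
        ∑ p ∈ (Ioc 0 n).filter Nat.Prime, if p ∣ k then Real.log p else 0 := by
      intro k hk
      rw [Finset.mem_Ioc] at hk
      rw [← Finset.sum_filter]
      apply Finset.sum_congr _ (fun _ _ => rfl)
      ext p
      simp only [Nat.mem_primeFactors, Finset.mem_filter, Finset.mem_Ioc]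
      constructor
      · rintro ⟨h1, h2, h3⟩
        exact ⟨⟨⟨h1.pos, (Nat.le_of_dvd hk.1 h2).trans hk.2⟩, h1⟩, h2⟩
      · rintro ⟨⟨_, h1⟩, h2⟩
        exact ⟨h1, h2, by omega⟩
    rw [Finset.sum_congr rfl e1, Finset.sum_comm]
    apply Finset.sum_congr rfl
    intro p _
    rw [← Finset.sum_filter, Finset.sum_const, nsmul_eq_mul, Nat.Ioc_filter_dvd_card_eq_div]
  have h2 : ∑ k ∈ Ioc 0 n, ∑ p ∈ k.primeFactors, Real.log p ≤ n * Real.log n := by
    calc ∑ k ∈ Ioc 0 n, ∑ p ∈ k.primeFactors, Real.log p ≤ ∑ k ∈ Ioc 0 n, Real.log n := by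
          apply Finset.sum_le_sum
          intro k hk
          rw [Finset.mem_Ioc] at hk
          refine (sum_log_primeFactors_le hk.1).trans ?_
          apply Real.log_le_log
          · exact_mod_cast hk.1
          · exact_mod_cast hk.2
      _ = n * Real.log n := by simp
  have h3 : (n:ℝ) * mA n - Chebyshev.theta n ≤
      ∑ p ∈ (Ioc 0 n).filter Nat.Prime, ((n / p : ℕ) : ℝ) * Real.log p := by
    rw [Chebyshev.theta, Nat.floor_natCast, mA, Finset.mul_sum, ← Finset.sum_sub_distrib]
    apply Finset.sum_le_sum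
    intro p hp
    rw [Finset.mem_filter, Finset.mem_Ioc] at hp
    have hp0 : (0:ℝ) < p := by exact_mod_cast hp.1.1
    have hlog : 0 ≤ Real.log p := Real.log_natCast_nonneg p
    have h4 : (n:ℝ) / p - 1 ≤ ((n / p : ℕ) : ℝ) := by
      have := Nat.lt_floor_add_one ((n:ℝ) / p)
      rw [Nat.floor_div_natCast, Nat.floor_natCast] at this
      linarith
    calc (n:ℝ) * (Real.log p / p) - Real.log p = ((n:ℝ) / p - 1) * Real.log p := by ring
      _ ≤ _ := mul_le_mul_of_nonneg_right h4 hlog
  have h5 : Chebyshev.theta n ≤ Real.log 4 * n := Chebyshev.theta_le_log4_mul_x hnR.le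
  have h6 : (n:ℝ) * mA n ≤ n * (Real.log n + Real.log 4) := by
    rw [h1] at h2
    nlinarith
  exact le_of_mul_le_mul_left h6 hnR

theorem mA_nonneg (n : ℕ) : 0 ≤ mA n := by
  unfold mA
  apply Finset.sum_nonneg
  intro p _
  exact div_nonneg (Real.log_natCast_nonneg p) (Nat.cast_nonneg p)

theorem mA_succ (n : ℕ) : mA (n + 1) = mA n +
    if (n + 1).Prime then Real.log ((n + 1 : ℕ) : ℝ) / ((n + 1 : ℕ) : ℝ) else 0 := by
  unfold mA
  have : Ioc 0 (n + 1) = insert (n + 1) (Ioc 0 n) := by
    ext x; simp only [Finset.mem_Ioc, Finset.mem_insert]; omega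
  rw [this, Finset.filter_insert]
  split_ifs with h
  · rw [Finset.sum_insert (by simp)]; ring
  · simp

theorem mB_succ (n : ℕ) : mB (n + 1) = mB n +
    if (n + 1).Prime then (((n + 1 : ℕ) : ℝ))⁻¹ else 0 := by
  unfold mB
  have : Ioc 0 (n + 1) = insert (n + 1) (Ioc 0 n) := by
    ext x; simp only [Finset.mem_Ioc, Finset.mem_insert]; omega
  rw [this, Finset.filter_insert]
  split_ifs with h
  · rw [Finset.sum_insert (by simp)]; ring
  · simp

/-- Mertens' second theorem, upper bound. -/
theorem mB_le {n : ℕ} (hn : 2 ≤ n) :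
    mB n ≤ Real.log (Real.log (n + 1)) + 5 := by
  -- telescoping quantity
  have key : ∀ n : ℕ, 2 ≤ n → mB n - mA n / Real.log (n + 1) ≤
      Real.log (Real.log (n + 1)) - Real.log (Real.log 2) +
        Real.log 4 * (1 / Real.log 2 - 1 / Real.log (n + 1)) := by
    intro n hn
    induction n, hn using Nat.le_induction with
    | base =>
      have hB : mB 2 = 1 / 2 := by
        have : (Ioc 0 2).filter Nat.Prime = {2} := by decide
        rw [mB, this]; norm_num
      have hA : mA 2 = Real.log 2 / 2 := by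
        have : (Ioc 0 2).filter Nat.Prime = {2} := by decide
        rw [mA, this]; norm_num
      rw [hB, hA]
      have hl2 : 0 < Real.log 2 := Real.log_pos (by norm_num)
      have hl3 : 0 < Real.log 3 := Real.log_pos (by norm_num)
      have hl23 : Real.log 2 ≤ Real.log 3 := Real.log_le_log (by norm_num) (by norm_num)
      have e3 : ((2:ℕ):ℝ) + 1 = 3 := by norm_num
      rw [e3]
      have h4 : Real.log 4 = 2 * Real.log 2 := by
        rw [show (4:ℝ) = 2 ^ 2 by norm_num, Real.log_pow]; push_cast; ring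
      rw [h4]
      have h5 : Real.log (Real.log 2) ≤ Real.log (Real.log 3) := Real.log_le_log hl2 hl23
      have h6 : 1 / 2 - Real.log 2 / 2 / Real.log 3 ≤
          2 * Real.log 2 * (1 / Real.log 2 - 1 / Real.log 3) := by
        have e : 2 * Real.log 2 * (1 / Real.log 2 - 1 / Real.log 3) -
          (1 / 2 - Real.log 2 / 2 / Real.log 3) = (3 / 2) * (1 - Real.log 2 / Real.log 3) := by
          field_simp; ring
        have : Real.log 2 / Real.log 3 ≤ 1 := (div_le_one hl3).mpr hl23
        linarith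
      linarith
    | succ n hn ih =>
      have hn' : (2:ℝ) ≤ n := by exact_mod_cast hn
      set l1 := Real.log ((n:ℝ) + 1) with hl1
      set l2 := Real.log ((n:ℝ) + 1 + 1) with hl2
      have hl1pos : 0 < l1 := Real.log_pos (by linarith)
      have hl12 : l1 ≤ l2 := Real.log_le_log (by linarith) (by linarith)
      have hl2pos : 0 < l2 := by linarith
      have hAle := mA_le (n := n + 1) (by omega)
      have hAn := mA_nonneg (n + 1)
      have hcast : (((n + 1 : ℕ)) : ℝ) = (n:ℝ) + 1 := by push_cast; ring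
      rw [hcast] at hAle ⊢
      -- difference
      have hdiff : mB (n + 1) - mA (n + 1) / l2 =
          (mB n - mA n / l1) + mA (n + 1) * (1 / l1 - 1 / l2) := by
        rw [mB_succ, mA_succ]
        split_ifs with hp
        · rw [hcast, ← hl1]
          field_simp
          ring
        · field_simp
          ring
      have hlog1 : l1 * (1 / l1 - 1 / l2) ≤ Real.log l2 - Real.log l1 := by
        have h1 : l1 * (1 / l1 - 1 / l2) = 1 - l1 / l2 := by field_simp
        rw [h1, ← Real.log_div hl2pos.ne' hl1pos.ne']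
        have := Real.one_sub_inv_le_log_of_pos (div_pos hl2pos hl1pos)
        rw [inv_div] at this
        exact this
      have hnn : 0 ≤ 1 / l1 - 1 / l2 := by
        have := one_div_le_one_div_of_le hl1pos hl12
        linarith
      have hmul : mA (n + 1) * (1 / l1 - 1 / l2) ≤ (l1 + Real.log 4) * (1 / l1 - 1 / l2) :=
        mul_le_mul_of_nonneg_right hAle hnn
      rw [hdiff]
      have e : (l1 + Real.log 4) * (1 / l1 - 1 / l2) =
        l1 * (1 / l1 - 1 / l2) + Real.log 4 * (1 / l1 - 1 / l2) := by ring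
      have e2 : Real.log 4 * (1 / Real.log 2 - 1 / l2) = Real.log 4 * (1 / Real.log 2 - 1 / l1) +
        Real.log 4 * (1 / l1 - 1 / l2) := by ring
      rw [e2]
      linarith
  have hk := key n hn
  have hn' : (2:ℝ) ≤ n := by exact_mod_cast hn
  set l := Real.log ((n:ℝ) + 1) with hl
  have hl2 : 0 < Real.log 2 := Real.log_pos (by norm_num)
  have hlpos : 0 < l := Real.log_pos (by linarith)
  have h4 : Real.log 4 = 2 * Real.log 2 := by
    rw [show (4:ℝ) = 2 ^ 2 by norm_num, Real.log_pow]; push_cast; ring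
  have hA := mA_le (n := n) (by omega)
  have hlogn : Real.log n ≤ l := Real.log_le_log (by linarith) (by linarith)
  have hA2 : mA n / l ≤ 1 + Real.log 4 / l := by
    rw [div_le_iff₀ hlpos]
    have : (1 + Real.log 4 / l) * l = l + Real.log 4 := by field_simp
    rw [this]; linarith
  have h5 : Real.log 4 * (1 / Real.log 2 - 1 / l) = 2 - Real.log 4 / l := by
    rw [mul_sub, h4]; field_simp
  rw [h5] at hk
  -- - log log 2 <= 2
  have h6 : -Real.log (Real.log 2) ≤ 2 := by
    have h7 : (0.69:ℝ) ≤ Real.log 2 := by have := Real.log_two_gt_d9; linarith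
    have h8 : 1 - (Real.log 2)⁻¹ ≤ Real.log (Real.log 2) := Real.one_sub_inv_le_log_of_pos hl2
    have h9 : (Real.log 2)⁻¹ ≤ (0.69:ℝ)⁻¹ := inv_anti₀ (by norm_num) h7
    have h10 : ((0.69:ℝ))⁻¹ ≤ 1.5 := by norm_num
    linarith
  linarith

end

end Pool.Agent.Work.MP_c971ef_nt
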