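import Mathlib
import Pool.Agent.Work.MP_c971ef_nt.Mertens
import Pool.Agent.Work.MP_c971ef_nt.AlmostAll

set_option autoImplicit false

namespace Pool.Agent.Work.MP_c971ef_nt

open Finset Nat
open scoped BigOperators

noncomputable section

theorem exp_le_one_sub {x : ℝ} (hx0 : 0 ≤ x) (hx : x ≤ 1 / 2) :
    Real.exp (-(x + 2 * x ^ 2)) ≤ 1 - x := by
  have h1 : 0 < 1 - x := by linarith
  have h2 : 1 - (1 - x)⁻¹ ≤ Real.log (1 - x) := Real.one_sub_inv_le_log_of_pos h1
  have h3 : -(x + 2 * x ^ 2) ≤ Real.log (1 - x) := by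
    refine le_trans ?_ h2
    have h4 : (1 - x)⁻¹ ≤ 1 + x + 2 * x ^ 2 := by
      rw [inv_le_comm₀ h1 (by positivity)]
      rw [inv_le_iff_one_le_mul₀ (by positivity)]
      nlinarith [mul_nonneg hx0 hx0, mul_nonneg (mul_nonneg hx0 hx0) (sub_nonneg.mpr hx)]
    linarith
  calc Real.exp (-(x + 2 * x ^ 2)) ≤ Real.exp (Real.log (1 - x)) := Real.exp_le_exp.mpr h3
    _ = 1 - x := Real.exp_log h1

/-- Lower bound for `∏_{p ≤ K} (1 - 1/p)`. -/
theorem prod_one_sub_ge {K : ℕ} (hK : 2 ≤ K) :
    Real.exp (-9) / Real.log (K + 1) ≤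
      ∏ p ∈ (Ioc 0 K).filter Nat.Prime, (1 - (p:ℝ)⁻¹) := by
  have h1 : ∏ p ∈ (Ioc 0 K).filter Nat.Prime, Real.exp (-((p:ℝ)⁻¹ + 2 * ((p:ℝ)⁻¹) ^ 2)) ≤
      ∏ p ∈ (Ioc 0 K).filter Nat.Prime, (1 - (p:ℝ)⁻¹) := by
    apply Finset.prod_le_prod
    · intro p _; exact (Real.exp_pos _).le
    · intro p hp
      rw [Finset.mem_filter] at hp
      have h2 : (2:ℝ) ≤ p := by exact_mod_cast hp.2.two_le
      apply exp_le_one_sub (by positivity)
      rw [one_div]
      exact inv_anti₀ (by norm_num) h2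
  refine le_trans ?_ h1
  rw [← Real.exp_sum]
  have hK' : (2:ℝ) ≤ K := by exact_mod_cast hK
  have hl : 0 < Real.log ((K:ℝ) + 1) := Real.log_pos (by linarith)
  have h2 : Real.exp (-9) / Real.log (K + 1) = Real.exp (-9 - Real.log (Real.log (K + 1))) := by
    rw [Real.exp_sub, Real.exp_log hl]
  rw [h2]
  apply Real.exp_le_exp.mpr
  rw [Finset.sum_neg_distrib]
  have h3 : ∑ p ∈ (Ioc 0 K).filter Nat.Prime, ((p:ℝ)⁻¹ + 2 * ((p:ℝ)⁻¹) ^ 2) =
      mB K + 2 * ∑ p ∈ (Ioc 0 K).filter Nat.Prime, ((p:ℝ)⁻¹) ^ 2 := by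
    rw [Finset.sum_add_distrib, ← Finset.mul_sum]; rfl
  have h4 : ∑ p ∈ (Ioc 0 K).filter Nat.Prime, ((p:ℝ)⁻¹) ^ 2 ≤ 2 := by
    calc ∑ p ∈ (Ioc 0 K).filter Nat.Prime, ((p:ℝ)⁻¹) ^ 2 ≤ ∑ p ∈ Ioc 0 K, ((p:ℝ)⁻¹) ^ 2 := by
          apply Finset.sum_le_sum_of_subset_of_nonneg (Finset.filter_subset _ _)
          intro p _ _; positivity
      _ = ∑ p ∈ Ioo 0 (K + 1), ((p:ℝ) ^ 2)⁻¹ := by
          apply Finset.sum_congr
          · ext x; simp only [Finset.mem_Ioc, Finset.mem_Ioo]; omega
          · intro x _; rw [inv_pow]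
      _ ≤ 2 / ((0:ℕ) + 1) := sum_Ioo_inv_sq_le 0 (K + 1)
      _ = 2 := by norm_num
  have h5 := mB_le hK
  rw [h3]
  linarith

theorem totient_primorial_ge {K : ℕ} (hK : 2 ≤ K) :
    Real.exp (-9) / Real.log (K + 1) * primorial K ≤ (Nat.totient (primorial K) : ℝ) := by
  have h1 := Nat.totient_eq_mul_prod_factors (primorial K)
  have h2 : (Nat.totient (primorial K) : ℝ) =
      primorial K * ∏ p ∈ (primorial K).primeFactors, (1 - (p:ℝ)⁻¹) := by
    have := congrArg (fun q : ℚ => (q : ℝ)) h1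
    push_cast at this
    exact this
  have h3 : (primorial K).primeFactors = (Ioc 0 K).filter Nat.Prime := by
    rw [primeFactors_primorial]
    ext p
    rw [Nat.mem_primesLE, Finset.mem_filter, Finset.mem_Ioc]
    constructor
    · rintro ⟨h1, h2⟩; exact ⟨⟨h2.pos, h1⟩, h2⟩
    · rintro ⟨⟨_, h1⟩, h2⟩; exact ⟨h1, h2⟩
  rw [h2, h3, mul_comm]
  exact mul_le_mul_of_nonneg_left (prod_one_sub_ge hK) (Nat.cast_nonneg _)

/-- The integers in `[1, N]` free of primes up to `K`. -/
def rough (N K : ℕ) : Finset ℕ := (Icc 1 N).filter (fun n => Nat.Coprime (primorial K) n)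

theorem rough_card_ge {N K : ℕ} (hK : 2 ≤ K) (hN : 2 * primorial K ≤ N) :
    Real.exp (-9) / Real.log (K + 1) * (N / 2) ≤ ((rough N K).card : ℝ) := by
  set P := primorial K with hP
  have hP2 : 2 ≤ P := by
    have : 2 ∣ P := Nat.prime_two.dvd_primorial_iff.mpr hK
    exact Nat.le_of_dvd (primorial_pos K) this
  have hP0 : 0 < P := by omega
  set q := N / P with hq
  have h1 : Nat.count (Nat.Coprime P) (P * q) = q * Nat.totient P := by
    rw [count_mul _ P (Nat.periodic_coprime P) q, Nat.totient_eq_card_coprime,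
      Nat.count_eq_card_filter_range]
  have h2 : Nat.count (Nat.Coprime P) (P * q) ≤ (rough N K).card := by
    rw [Nat.count_eq_card_filter_range]
    apply Finset.card_le_card
    intro n hn
    rw [Finset.mem_filter, Finset.mem_range] at hn
    rw [rough, Finset.mem_filter, Finset.mem_Icc]
    refine ⟨⟨?_, ?_⟩, hn.2⟩
    · rcases Nat.eq_zero_or_pos n with h | h
      · subst h
        have := hn.2
        rw [Nat.coprime_zero_right] at this
        omega
      · exact h
    · have := Nat.mul_div_le N P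
      rw [← hq] at this
      omega
  have h3 : (N:ℝ) / 2 ≤ P * q := by
    have h4 : N ≤ P * (q + 1) := (Nat.lt_mul_div_succ N hP0).le
    have h5 : N ≤ 2 * (P * q) := by
      have : P * (q + 1) = P * q + P := by ring
      omega
    have h6 : (N:ℝ) ≤ 2 * (P * q) := by exact_mod_cast h5
    linarith
  have h7 := totient_primorial_ge hK
  have h8 : ((q * Nat.totient P : ℕ) : ℝ) ≤ ((rough N K).card : ℝ) := by
    rw [← h1]; exact_mod_cast h2
  push_cast at h8
  have hK' : (2:ℝ) ≤ K := by exact_mod_cast hK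
  have hl : 0 < Real.log ((K:ℝ) + 1) := Real.log_pos (by linarith)
  have hc : 0 ≤ Real.exp (-9) / Real.log (K + 1) := by positivity
  calc Real.exp (-9) / Real.log (K + 1) * (N / 2)
      ≤ Real.exp (-9) / Real.log (K + 1) * (P * q) := mul_le_mul_of_nonneg_left h3 hc
    _ = q * (Real.exp (-9) / Real.log (K + 1) * P) := by ring
    _ ≤ q * Nat.totient P := mul_le_mul_of_nonneg_left h7 (Nat.cast_nonneg _)
    _ ≤ _ := h8

/-- Rough `n` with an admissible `k ≤ K` inject into the good indices up to `K N`. -/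
theorem rough_exc_card_le (N K : ℕ) :
    ((rough N K).filter (fun n => ∃ k ∈ Icc 1 K, goodIdx (k * n))).card ≤
      ((Icc 1 (K * N)).filter goodIdx).card := by
  classical
  set T := (rough N K).filter (fun n => ∃ k ∈ Icc 1 K, goodIdx (k * n)) with hT
  have hex : ∀ n ∈ T, ∃ k, k ∈ Icc 1 K ∧ goodIdx (k * n) := by
    intro n hn
    rw [hT, Finset.mem_filter] at hn
    obtain ⟨_, k, hk, hg⟩ := hn
    exact ⟨k, hk, hg⟩
  choose! κ hκ1 hκ2 using hex
  apply Finset.card_le_card_of_injOn (fun n => κ n * n)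
  · intro n hn
    have h1 := hκ1 n hn
    have h2 := hκ2 n hn
    rw [Finset.mem_coe, hT, Finset.mem_filter, rough, Finset.mem_filter, Finset.mem_Icc] at hn
    rw [Finset.mem_Icc] at h1
    rw [Finset.mem_coe, Finset.mem_filter, Finset.mem_Icc]
    exact ⟨⟨Nat.mul_pos h1.1 hn.1.1.1, Nat.mul_le_mul h1.2 hn.1.1.2⟩, h2⟩
  · have hcop : ∀ a b : ℕ, a ∈ Icc 1 K → b ∈ rough N K → Nat.Coprime a b := by
      intro a b ha hb
      rw [Finset.mem_Icc] at ha
      rw [rough, Finset.mem_filter] at hb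
      rw [Nat.coprime_iff_gcd_eq_one]
      by_contra hne
      obtain ⟨p, hp, hpd⟩ := Nat.exists_prime_and_dvd hne
      have h1 : p ∣ a := hpd.trans (Nat.gcd_dvd_left _ _)
      have h2 : p ∣ b := hpd.trans (Nat.gcd_dvd_right _ _)
      have h3 : p ≤ K := (Nat.le_of_dvd (by omega) h1).trans ha.2
      have h4 : p ∣ primorial K := hp.dvd_primorial_iff.mpr h3
      have h5 := Nat.dvd_gcd h4 h2
      rw [Nat.coprime_iff_gcd_eq_one.mp hb.2] at h5
      exact hp.one_lt.ne' (Nat.dvd_one.mp h5)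
    intro a ha b hb hab
    simp only at hab
    have ha1 := hκ1 a ha
    have hb1 := hκ1 b hb
    have har : a ∈ rough N K := (Finset.mem_filter.mp (Finset.mem_coe.mp ha)).1
    have hbr : b ∈ rough N K := (Finset.mem_filter.mp (Finset.mem_coe.mp hb)).1
    have h1 : κ a ∣ κ b := by
      have : κ a ∣ κ b * b := by rw [← hab]; exact Nat.dvd_mul_right _ _
      exact (hcop _ _ ha1 hbr).dvd_of_dvd_mul_right this
    have h2 : κ b ∣ κ a := by
      have : κ b ∣ κ a * a := by rw [hab]; exact Nat.dvd_mul_right _ _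
      exact (hcop _ _ hb1 har).dvd_of_dvd_mul_right this
    have h3 : κ a = κ b := Nat.dvd_antisymm h1 h2
    rw [h3] at hab
    rw [Finset.mem_Icc] at hb1
    exact Nat.eq_of_mul_eq_mul_left (by omega) hab

theorem many_large (N : ℕ) (hN : 16 ≤ N) :
    Real.exp (-9) / 400000 * N / Real.log (Real.log N) ≤
      (((Icc 1 N).filter (fun n : ℕ => ∀ k ∈ Icc 1 ⌊Real.exp (-9) / 400000 * Real.log N /
        Real.log (Real.log N)⌋₊, ¬ goodIdx (k * n))).card : ℝ) := by
  set c : ℝ := Real.exp (-9) / 400000 with hc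
  have hNR : (16:ℝ) ≤ N := by exact_mod_cast hN
  have he9 : 0 < Real.exp (-9) := Real.exp_pos _
  have he9' : Real.exp (-9) ≤ 1 := by rw [Real.exp_le_one_iff]; norm_num
  have hc0 : 0 < c := by rw [hc]; positivity
  have hc1 : c ≤ 1 / 400000 := by rw [hc]; linarith
  set L := Real.log N with hL
  have hlog16 : (2.76:ℝ) ≤ L := by
    have h1 : Real.log 16 ≤ L := Real.log_le_log (by norm_num) hNR
    have h2 : Real.log 16 = 4 * Real.log 2 := by
      rw [show (16:ℝ) = 2 ^ 4 by norm_num, Real.log_pow]; push_cast; ring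
    have h3 := Real.log_two_gt_d9
    linarith
  set l := Real.log L with hl
  have hl1 : 1 ≤ l := by
    rw [hl, Real.le_log_iff_exp_le (by linarith)]
    have := Real.exp_one_lt_d9
    linarith
  set K := ⌊c * L / l⌋₊ with hK
  have hcL0 : 0 ≤ c * L / l := by positivity
  have hKle : (K:ℝ) ≤ c * L / l := Nat.floor_le hcL0
  have hN0 : (0:ℝ) ≤ N := by linarith
  rcases Nat.eq_zero_or_pos K with hK0 | hKpos
  · -- trivial case
    have : (Icc 1 N).filter (fun n : ℕ => ∀ k ∈ Icc 1 K, ¬ goodIdx (k * n)) = Icc 1 N := by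
      apply Finset.filter_true_of_mem
      intro n _ k hk
      rw [hK0, Finset.mem_Icc] at hk
      omega
    rw [this, Nat.card_Icc]
    have h2 : ((N + 1 - 1 : ℕ) : ℝ) = N := by simp
    rw [h2, div_le_iff₀ (by linarith)]
    nlinarith
  · set K1 := max K 2 with hK1
    have hK12 : 2 ≤ K1 := le_max_right _ _
    have hKK1 : K ≤ K1 := le_max_left _ _
    have hK1le : (K1:ℝ) ≤ 2 * (c * L / l) := by
      have h1 : K1 ≤ 2 * K := by omega
      have h2 : (K1:ℝ) ≤ 2 * K := by exact_mod_cast h1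
      linarith
    have hLl : c * L / l ≤ c * L := by
      rw [div_le_iff₀ (by linarith)]
      nlinarith [mul_pos hc0 (show 0 < L by linarith)]
    have hK1L : (K1:ℝ) ≤ L / 200000 := by nlinarith
    -- primorial bound
    have hprim : 2 * primorial K1 ≤ N := by
      have h1 : primorial K1 ≤ 4 ^ K1 := primorial_le_four_pow K1
      have h2 : (2:ℝ) * 4 ^ K1 ≤ N := by
        have h3 : ((4:ℝ) ^ K1) ≤ Real.exp (L / 2) := by
          have e : (4:ℝ) ^ K1 = Real.exp (K1 * Real.log 4) := by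
            rw [mul_comm, Real.exp_mul, Real.exp_log (by norm_num), Real.rpow_natCast]
          rw [e]
          apply Real.exp_le_exp.mpr
          have h4 : Real.log 4 = 2 * Real.log 2 := by
            rw [show (4:ℝ) = 2 ^ 2 by norm_num, Real.log_pow]; push_cast; ring
          have h5 := Real.log_two_lt_d9
          have h6 : Real.log 4 ≤ 2 := by linarith
          have h7 : 0 ≤ (K1:ℝ) := Nat.cast_nonneg _
          nlinarith
        have h8 : Real.exp (L / 2) * Real.exp (L / 2) = N := by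
          rw [← Real.exp_add]
          have : L / 2 + L / 2 = L := by ring
          rw [this, hL, Real.exp_log (by linarith)]
        have h9 : 2 ≤ Real.exp (L / 2) := by
          have := Real.add_one_le_exp (L / 2)
          linarith
        nlinarith
      have h3 : ((2 * 4 ^ K1 : ℕ) : ℝ) ≤ N := by push_cast; exact h2
      have h4 : 2 * 4 ^ K1 ≤ N := by exact_mod_cast h3
      omega
    have hrough := rough_card_ge hK12 hprim
    have hlogK1 : Real.log ((K1:ℝ) + 1) ≤ l := by
      rw [hl]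
      apply Real.log_le_log (by positivity)
      linarith
    have hK1pos : (2:ℝ) ≤ K1 := by exact_mod_cast hK12
    have hlogK1pos : 0 < Real.log ((K1:ℝ) + 1) := Real.log_pos (by linarith)
    have hrough2 : Real.exp (-9) * N / (2 * l) ≤ ((rough N K1).card : ℝ) := by
      refine le_trans ?_ hrough
      calc Real.exp (-9) * N / (2 * l) = Real.exp (-9) / l * (N / 2) := by
            field_simp
        _ ≤ _ := by
            apply mul_le_mul_of_nonneg_right _ (by linarith)
            exact div_le_div_of_nonneg_left he9.le hlogK1pos hlogK1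
    have hbad := rough_exc_card_le N K1
    have hKN : 2 ≤ K1 * N := by nlinarith
    have hJ := card_goodIdx_le (X := K1 * N) hKN
    have hcast : ((K1 * N : ℕ) : ℝ) = (K1:ℝ) * N := by push_cast; ring
    rw [hcast] at hJ
    have hlogKN : L ≤ Real.log ((K1:ℝ) * N) := by
      rw [hL]; apply Real.log_le_log (by linarith); nlinarith
    have hJ2 : (((Icc 1 (K1 * N)).filter goodIdx).card : ℝ) ≤ 196800 * c * N / l := by
      refine hJ.trans ?_
      calc 98400 * ((K1:ℝ) * N) / Real.log ((K1:ℝ) * N)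
          ≤ 98400 * ((2 * (c * L / l)) * N) / L := by
            apply div_le_div₀ (by positivity) _ (by linarith) hlogKN
            gcongr
        _ = 196800 * c * N / l := by field_simp; ring
    -- complement inside the rough numbers
    have hsplit := Finset.card_filter_add_card_filter_not (s := rough N K1)
      (fun n => ∃ k ∈ Icc 1 K1, goodIdx (k * n))
    have hsub : (rough N K1).filter (fun n => ¬ ∃ k ∈ Icc 1 K1, goodIdx (k * n)) ⊆
        (Icc 1 N).filter (fun n : ℕ => ∀ k ∈ Icc 1 K, ¬ goodIdx (k * n)) := by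
      intro n hn
      rw [Finset.mem_filter, rough, Finset.mem_filter] at hn
      rw [Finset.mem_filter]
      refine ⟨hn.1.1, ?_⟩
      intro k hk hg
      apply hn.2
      rw [Finset.mem_Icc] at hk
      exact ⟨k, Finset.mem_Icc.mpr ⟨hk.1, hk.2.trans hKK1⟩, hg⟩
    have hcard := Finset.card_le_card hsub
    have h1 : ((rough N K1).card : ℝ) ≤
        (((Icc 1 (K1 * N)).filter goodIdx).card : ℝ) +
        (((Icc 1 N).filter (fun n : ℕ => ∀ k ∈ Icc 1 K, ¬ goodIdx (k * n))).card : ℝ) := by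
      have : (rough N K1).card ≤ ((Icc 1 (K1 * N)).filter goodIdx).card +
        ((Icc 1 N).filter (fun n : ℕ => ∀ k ∈ Icc 1 K, ¬ goodIdx (k * n))).card := by omega
      exact_mod_cast this
    have h2 : Real.exp (-9) * N / (2 * l) = 200000 * (c * N / l) := by
      rw [hc]; field_simp; ring
    have h3 : 196800 * c * N / l = 196800 * (c * N / l) := by ring
    rw [h2] at hrough2
    rw [h3] at hJ2
    have h4 : 0 ≤ c * N / l := by positivity
    linarith

end

end Pool.Agent.Work.MP_c971ef_nt
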