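import Mathlib
import Pool.Agent.Work.MP_c971ef_nt.Rough

set_option autoImplicit false

namespace Pool.Agent.Work.MP_c971ef_nt

open Finset Nat
open scoped BigOperators ArithmeticFunction.vonMangoldt

noncomputable section

/-- Value at the prime `p` of the weight: `y` from `8` on, and `1` below. -/
def tz (y : ℝ) (p : ℕ) : ℝ := if p < 8 then 1 else y

theorem tz_pos {y : ℝ} (hy : 0 < y) (p : ℕ) : 0 < tz y p := by
  unfold tz; split_ifs <;> linarith

theorem exp_one_le_sqrt {p : ℕ} (hp : 8 ≤ p) : Real.exp 1 ≤ Real.sqrt p := by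
  apply Real.le_sqrt_of_sq_le
  have h1 := Real.exp_one_lt_d9
  have h2 := Real.exp_pos 1
  have h3 : (8:ℝ) ≤ p := by exact_mod_cast hp
  nlinarith

theorem cm_tz_le_sqrt {y : ℝ} (hy : 0 < y) (hy2 : y ≤ Real.exp 1) (m : ℕ) :
    cm (tz y) m ≤ Real.sqrt m := by
  induction m using induction_on_primes with
  | zero =>
    have h0 : cm (tz y) 0 = 0 := by
      change (if (0:ℕ) = 0 then (0:ℝ) else (Nat.factorization 0).prod (fun p e => tz y p ^ e)) = 0
      simp
    rw [h0]; exact Real.sqrt_nonneg _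
  | one => simp
  | prime_mul p a hp ih =>
    rw [map_mul, cm_prime _ hp, Nat.cast_mul, Real.sqrt_mul (Nat.cast_nonneg p)]
    apply mul_le_mul _ ih (cm_nonneg (fun p _ => (tz_pos hy p).le) a) (Real.sqrt_nonneg _)
    unfold tz
    split_ifs with h
    · rw [Real.one_le_sqrt]
      exact_mod_cast hp.one_lt.le
    · exact hy2.trans (exp_one_le_sqrt (by omega))

theorem cm_tz_mul_mangoldt_sum_le : ∃ C : ℝ, 0 < C ∧ ∀ y : ℝ, 0 < y → y ≤ Real.exp 1 → ∀ X : ℕ,
    ∑ d ∈ Ioc 0 X, cm (tz y) d * Λ d ≤ C * X := by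
  obtain ⟨C, hC⟩ := Chebyshev.psi_sub_theta_le_mul_sqrt
  refine ⟨3 * Real.log 4 + |C|, ?_, ?_⟩
  · have := Real.log_pos (show (1:ℝ) < 4 by norm_num)
    positivity
  intro y hy hy2 X
  have he : Real.exp 1 ≤ 3 := by have := Real.exp_one_lt_d9; linarith
  have h1 : ∀ d ∈ Ioc 0 X, cm (tz y) d * Λ d ≤
      3 * (if d.Prime then Real.log d else 0) +
        Real.sqrt X * (Λ d - (if d.Prime then Real.log d else 0)) := by
    intro d hd
    rw [Finset.mem_Ioc] at hd
    by_cases hp : d.Prime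
    · rw [if_pos hp, ArithmeticFunction.vonMangoldt_apply_prime hp, cm_prime _ hp]
      have : tz y d ≤ 3 := by unfold tz; split_ifs <;> linarith
      have hl : 0 ≤ Real.log d := Real.log_natCast_nonneg d
      nlinarith
    · rw [if_neg hp]
      have h2 := cm_tz_le_sqrt hy hy2 d
      have h3 : Real.sqrt d ≤ Real.sqrt X := Real.sqrt_le_sqrt (by exact_mod_cast hd.2)
      have h4 : (0:ℝ) ≤ Λ d := ArithmeticFunction.vonMangoldt_nonneg
      have := mul_le_mul_of_nonneg_right (h2.trans h3) h4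
      linarith
  refine (Finset.sum_le_sum h1).trans ?_
  rw [Finset.sum_add_distrib, ← Finset.mul_sum, ← Finset.mul_sum, Finset.sum_sub_distrib]
  have hth : ∑ d ∈ Ioc 0 X, (if d.Prime then Real.log (d:ℝ) else 0) = Chebyshev.theta (X:ℝ) := by
    rw [Chebyshev.theta, Nat.floor_natCast, Finset.sum_filter]
  have hps : ∑ d ∈ Ioc 0 X, Λ d = Chebyshev.psi (X:ℝ) := by
    rw [Chebyshev.psi, Nat.floor_natCast]
  rw [hth, hps]
  have h5 := hC (X:ℝ)
  have h6 := Chebyshev.theta_le_log4_mul_x (x := (X:ℝ)) (Nat.cast_nonneg X)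
  have h7 : Real.sqrt X * (Chebyshev.psi (X:ℝ) - Chebyshev.theta (X:ℝ)) ≤ |C| * X := by
    calc Real.sqrt X * (Chebyshev.psi (X:ℝ) - Chebyshev.theta (X:ℝ))
        ≤ Real.sqrt X * (C * Real.sqrt X) := by
          apply mul_le_mul_of_nonneg_left h5 (Real.sqrt_nonneg _)
      _ = C * X := by
          have := Real.mul_self_sqrt (Nat.cast_nonneg X : (0:ℝ) ≤ X)
          calc _ = C * (Real.sqrt X * Real.sqrt X) := by ring
            _ = _ := by rw [this]
      _ ≤ |C| * X := by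
          apply mul_le_mul_of_nonneg_right (le_abs_self C) (Nat.cast_nonneg X)
  nlinarith

/-- Summatory function of the weight. -/
def gS (y : ℝ) (x : ℕ) : ℝ := ∑ m ∈ Ioc 0 x, cm (tz y) m

theorem gS_nonneg {y : ℝ} (hy : 0 < y) (x : ℕ) : 0 ≤ gS y x :=
  Finset.sum_nonneg fun m _ => cm_nonneg (fun p _ => (tz_pos hy p).le) m

theorem gS_mono {y : ℝ} (hy : 0 < y) {a b : ℕ} (hab : a ≤ b) : gS y a ≤ gS y b := by
  unfold gS
  apply Finset.sum_le_sum_of_subset_of_nonneg
  · intro m hm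
    rw [Finset.mem_Ioc] at hm ⊢
    omega
  · intro m _ _
    exact cm_nonneg (fun p _ => (tz_pos hy p).le) m

theorem gS_mul_log_le : ∃ C : ℝ, 0 < C ∧ ∀ y : ℝ, 0 < y → y ≤ Real.exp 1 → ∀ x : ℕ, 1 ≤ x →
    (1 + Real.log x) * gS y x ≤ C * x * ∑ m ∈ Ioc 0 x, cm (tz y) m / m := by
  obtain ⟨C, hC0, hC⟩ := cm_tz_mul_mangoldt_sum_le
  refine ⟨C + 1, by positivity, ?_⟩
  intro y hy hy2 x hx
  have hg : ∀ m, 0 ≤ cm (tz y) m := cm_nonneg (fun p _ => (tz_pos hy p).le)
  have h1 : ∑ m ∈ Ioc 0 x, cm (tz y) m * Real.log m ≤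
      C * x * ∑ m ∈ Ioc 0 x, cm (tz y) m / m := by
    have e1 : ∀ m ∈ Ioc 0 x, cm (tz y) m * Real.log m =
        ∑ z ∈ m.divisorsAntidiagonal, cm (tz y) z.1 * (cm (tz y) z.2 * Λ z.2) := by
      intro m hm
      rw [← ArithmeticFunction.vonMangoldt_sum,
        ← Nat.sum_divisorsAntidiagonal' (fun _ i => Λ i), Finset.mul_sum]
      apply Finset.sum_congr rfl
      intro z hz
      rw [Nat.mem_divisorsAntidiagonal] at hz
      rw [← hz.1, map_mul]
      ring
    rw [Finset.sum_congr rfl e1, sum_conv (fun a c => cm (tz y) a * (cm (tz y) c * Λ c)),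
      Finset.mul_sum]
    apply Finset.sum_le_sum
    intro a ha
    rw [Finset.mem_Ioc] at ha
    rw [← Finset.mul_sum]
    have ha0 : (0:ℝ) < a := by exact_mod_cast ha.1
    calc cm (tz y) a * ∑ c ∈ Ioc 0 (x / a), cm (tz y) c * Λ c
        ≤ cm (tz y) a * (C * ((x / a : ℕ) : ℝ)) :=
          mul_le_mul_of_nonneg_left (hC y hy hy2 _) (hg a)
      _ ≤ cm (tz y) a * (C * ((x:ℝ) / a)) := by
          apply mul_le_mul_of_nonneg_left _ (hg a)
          apply mul_le_mul_of_nonneg_left Nat.cast_div_le hC0.le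
      _ = _ := by ring
  have h2 : ∑ m ∈ Ioc 0 x, cm (tz y) m * (1 + Real.log x - Real.log m) ≤
      x * ∑ m ∈ Ioc 0 x, cm (tz y) m / m := by
    rw [Finset.mul_sum]
    apply Finset.sum_le_sum
    intro m hm
    rw [Finset.mem_Ioc] at hm
    have hm0 : (0:ℝ) < m := by exact_mod_cast hm.1
    have hx0 : (0:ℝ) < x := by exact_mod_cast hx
    have h3 : 1 + Real.log x - Real.log m ≤ x / m := by
      have := Real.log_le_sub_one_of_pos (show (0:ℝ) < x / m by positivity)
      rw [Real.log_div hx0.ne' hm0.ne'] at this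
      linarith
    calc cm (tz y) m * (1 + Real.log x - Real.log m) ≤ cm (tz y) m * (x / m) :=
          mul_le_mul_of_nonneg_left h3 (hg m)
      _ = _ := by ring
  have h4 : (1 + Real.log x) * gS y x = ∑ m ∈ Ioc 0 x, cm (tz y) m * Real.log m +
      ∑ m ∈ Ioc 0 x, cm (tz y) m * (1 + Real.log x - Real.log m) := by
    rw [← Finset.sum_add_distrib, gS, Finset.mul_sum]
    apply Finset.sum_congr rfl
    intro m _
    ring
  rw [h4]
  calc _ ≤ C * x * ∑ m ∈ Ioc 0 x, cm (tz y) m / m + x * ∑ m ∈ Ioc 0 x, cm (tz y) m / m :=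
        add_le_add h1 h2
    _ = _ := by ring

theorem sum_inv_sq_le (x : ℕ) : ∑ p ∈ (Ioc 0 x).filter Nat.Prime, ((p:ℝ)⁻¹) ^ 2 ≤ 1 := by
  have h1 : (Ioc 0 x).filter Nat.Prime ⊆ Ioc 1 x := by
    intro p hp
    rw [Finset.mem_filter, Finset.mem_Ioc] at hp
    rw [Finset.mem_Ioc]
    exact ⟨hp.2.one_lt, hp.1.2⟩
  calc ∑ p ∈ (Ioc 0 x).filter Nat.Prime, ((p:ℝ)⁻¹) ^ 2
      ≤ ∑ p ∈ Ioc 1 x, ((p:ℝ)⁻¹) ^ 2 :=
        Finset.sum_le_sum_of_subset_of_nonneg h1 (fun _ _ _ => by positivity)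
    _ ≤ 1 := by
        rcases Nat.lt_or_ge x 1 with hx | hx
        · rw [Finset.Ioc_eq_empty (by omega)]; simp
        have := sum_Ioc_inv_sq_le_sub (α := ℝ) (k := 1) (n := x) one_ne_zero hx
        simp only [inv_pow] at this ⊢
        have h3 : (0:ℝ) ≤ (x:ℝ)⁻¹ := by positivity
        simp at this
        linarith

theorem inv_one_sub_le {u : ℝ} (hu0 : 0 ≤ u) (hu : u ≤ 1 / 2) :
    (1 - u)⁻¹ ≤ Real.exp (u + 2 * u ^ 2) := by
  have h := exp_le_one_sub hu0 hu
  have h1 : (0:ℝ) < 1 - u := by linarith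
  rw [inv_le_comm₀ h1 (Real.exp_pos _), ← Real.exp_neg]
  exact h

theorem sum_tz_div_le {y : ℝ} (hy : 0 < y) (hy2 : y ≤ Real.exp 1) {x : ℕ} (hx : 1 ≤ x) :
    ∑ m ∈ Ioc 0 x, cm (tz y) m / m ≤ Real.exp 40 * (1 + Real.log x) ^ y := by
  have he : Real.exp 1 ≤ 3 := by have := Real.exp_one_lt_d9; linarith
  set f : ℕ → ℝ := fun p => tz y p / p with hf
  have hfp : ∀ p, p.Prime → 0 ≤ f p := fun p _ => div_nonneg (tz_pos hy p).le (Nat.cast_nonneg p)
  have hfh : ∀ p, p.Prime → f p ≤ 1 / 2 := by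
    intro p hp
    have hp2 : (2:ℝ) ≤ p := by exact_mod_cast hp.two_le
    change tz y p / p ≤ 1 / 2
    rw [div_le_iff₀ (by linarith)]
    unfold tz
    split_ifs with h
    · linarith
    · have : (8:ℝ) ≤ p := by exact_mod_cast (by omega : 8 ≤ p)
      linarith
  have hnorm : ∀ {p : ℕ}, p.Prime → ‖cm f p‖ < 1 := by
    intro p hp
    rw [cm_prime f hp, Real.norm_of_nonneg (hfp p hp)]
    have := hfh p hp
    linarith
  have hHS := (EulerProduct.summable_and_hasSum_smoothNumbers_prod_primesBelow_geometric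
    hnorm (x + 1)).2
  have hHS' : HasSum ((Nat.smoothNumbers (x + 1)).indicator (fun m => cm f m))
      (∏ p ∈ Nat.primesBelow (x + 1), (1 - cm f p)⁻¹) := by
    rw [← hasSum_subtype_iff_indicator]
    exact hHS
  have h1 : ∑ m ∈ Ioc 0 x, cm (tz y) m / m =
      ∑ m ∈ Ioc 0 x, (Nat.smoothNumbers (x + 1)).indicator (fun m => cm f m) m := by
    apply Finset.sum_congr rfl
    intro m hm
    rw [Finset.mem_Ioc] at hm
    rw [Set.indicator_of_mem]
    · rw [hf, cm_div (tz y) (by omega)]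
    · rw [Nat.mem_smoothNumbers']
      intro p _ hpm
      have := Nat.le_of_dvd hm.1 hpm
      omega
  have hpb : Nat.primesBelow (x + 1) = (Ioc 0 x).filter Nat.Prime := by
    ext p
    rw [Nat.mem_primesBelow, Finset.mem_filter, Finset.mem_Ioc]
    constructor
    · rintro ⟨h1, h2⟩; exact ⟨⟨h2.pos, by omega⟩, h2⟩
    · rintro ⟨⟨_, h1⟩, h2⟩; exact ⟨by omega, h2⟩
  have h2 : ∑ m ∈ Ioc 0 x, cm (tz y) m / m ≤ ∏ p ∈ (Ioc 0 x).filter Nat.Prime, (1 - f p)⁻¹ := by
    rw [h1, ← hpb]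
    have e : ∏ p ∈ Nat.primesBelow (x + 1), (1 - f p)⁻¹ =
        ∏ p ∈ Nat.primesBelow (x + 1), (1 - cm f p)⁻¹ := by
      apply Finset.prod_congr rfl
      intro p hp
      rw [cm_prime f (Nat.mem_primesBelow.mp hp).2]
    rw [e]
    apply sum_le_hasSum _ _ hHS'
    intro i _
    exact Set.indicator_nonneg (fun m _ => cm_nonneg hfp m) i
  refine h2.trans ?_
  have h3 : ∏ p ∈ (Ioc 0 x).filter Nat.Prime, (1 - f p)⁻¹ ≤
      ∏ p ∈ (Ioc 0 x).filter Nat.Prime, Real.exp (f p + 2 * (f p) ^ 2) := by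
    apply Finset.prod_le_prod
    · intro p hp
      have := hfh p (Finset.mem_filter.mp hp).2
      exact inv_nonneg.mpr (by linarith)
    · intro p hp
      exact inv_one_sub_le (hfp p (Finset.mem_filter.mp hp).2) (hfh p (Finset.mem_filter.mp hp).2)
  refine h3.trans ?_
  rw [← Real.exp_sum]
  -- bound the exponent
  have h4 : ∀ p ∈ (Ioc 0 x).filter Nat.Prime, f p + 2 * (f p) ^ 2 ≤
      y * (p:ℝ)⁻¹ + (if p < 8 then 1 else 0) + 18 * ((p:ℝ)⁻¹) ^ 2 := by
    intro p hp
    have hpp := (Finset.mem_filter.mp hp).2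
    have hp2 : (2:ℝ) ≤ p := by exact_mod_cast hpp.two_le
    have hinv : 0 < (p:ℝ)⁻¹ := by positivity
    have hinv2 : (p:ℝ)⁻¹ ≤ 1 / 2 := by
      rw [inv_le_comm₀ (by linarith) (by norm_num)]; linarith
    change tz y p / p + 2 * (tz y p / p) ^ 2 ≤ _
    unfold tz
    split_ifs with h
    · rw [div_eq_mul_inv]
      nlinarith [mul_pos hy hinv, mul_pos hinv hinv]
    · rw [div_eq_mul_inv]
      have hy3 : y ≤ 3 := hy2.trans he
      have : y ^ 2 ≤ 9 := by nlinarith
      nlinarith [mul_pos hinv hinv]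
  have h5 : ∑ p ∈ (Ioc 0 x).filter Nat.Prime, (f p + 2 * (f p) ^ 2) ≤
      y * mB x + 8 + 18 := by
    refine (Finset.sum_le_sum h4).trans ?_
    rw [Finset.sum_add_distrib, Finset.sum_add_distrib, ← Finset.mul_sum, ← Finset.mul_sum]
    have a1 : ∑ p ∈ (Ioc 0 x).filter Nat.Prime, (if p < 8 then (1:ℝ) else 0) ≤ 8 := by
      rw [← Finset.sum_filter, Finset.sum_const, nsmul_eq_mul, mul_one]
      have : (((Ioc 0 x).filter Nat.Prime).filter (fun p => p < 8)).card ≤ (Finset.range 8).card := by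
        apply Finset.card_le_card
        intro p hp
        rw [Finset.mem_filter] at hp
        exact Finset.mem_range.mpr hp.2
      rw [Finset.card_range] at this
      exact_mod_cast this
    have a2 := sum_inv_sq_le x
    have a3 : ∑ p ∈ (Ioc 0 x).filter Nat.Prime, (p:ℝ)⁻¹ = mB x := rfl
    rw [a3]
    linarith
  have hlogx : 0 ≤ Real.log x := Real.log_natCast_nonneg x
  have h6 : y * mB x ≤ y * Real.log (1 + Real.log x) + 14 := by
    rcases Nat.lt_or_ge x 2 with hx2 | hx2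
    · have : x = 1 := by omega
      subst this
      have : mB 1 = 0 := by
        have : (Ioc 0 1).filter Nat.Prime = ∅ := by decide
        rw [mB, this]; simp
      rw [this]
      simp
    · have a1 := mB_le hx2
      have hx2' : (2:ℝ) ≤ x := by exact_mod_cast hx2
      have a2 : Real.log ((x:ℝ) + 1) ≤ 1 + Real.log x := by
        have : Real.log ((x:ℝ) + 1) ≤ Real.log (2 * x) := Real.log_le_log (by linarith) (by linarith)
        rw [Real.log_mul (by norm_num) (by linarith)] at this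
        have := Real.log_two_lt_d9
        linarith
      have a3 : 0 < Real.log ((x:ℝ) + 1) := Real.log_pos (by linarith)
      have a4 : Real.log (Real.log ((x:ℝ) + 1)) ≤ Real.log (1 + Real.log x) :=
        Real.log_le_log a3 a2
      have a5 : y * mB x ≤ y * (Real.log (1 + Real.log x) + 5) := by
        apply mul_le_mul_of_nonneg_left _ hy.le
        linarith
      have hy3 : y ≤ 2.7182818286 := by have := Real.exp_one_lt_d9; linarith
      nlinarith
  have h7 : ∑ p ∈ (Ioc 0 x).filter Nat.Prime, (f p + 2 * (f p) ^ 2) ≤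
      40 + y * Real.log (1 + Real.log x) := by linarith
  calc Real.exp (∑ p ∈ (Ioc 0 x).filter Nat.Prime, (f p + 2 * (f p) ^ 2))
      ≤ Real.exp (40 + y * Real.log (1 + Real.log x)) := Real.exp_le_exp.mpr h7
    _ = Real.exp 40 * (1 + Real.log x) ^ y := by
        rw [Real.exp_add, Real.rpow_def_of_pos (by linarith), mul_comm y]

/-- Upper bound for the summatory function of the weight. -/
theorem gS_le : ∃ C : ℝ, 0 < C ∧ ∀ y : ℝ, 0 < y → y ≤ Real.exp 1 → ∀ x : ℕ, 1 ≤ x →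
    gS y x ≤ C * x * (1 + Real.log x) ^ (y - 1) := by
  obtain ⟨C, hC0, hC⟩ := gS_mul_log_le
  refine ⟨C * Real.exp 40, by positivity, ?_⟩
  intro y hy hy2 x hx
  have h1 := hC y hy hy2 x hx
  have h2 := sum_tz_div_le hy hy2 hx
  have hl : 0 < 1 + Real.log x := by
    have := Real.log_natCast_nonneg x
    linarith
  have h3 : (1 + Real.log x) * gS y x ≤ C * x * (Real.exp 40 * (1 + Real.log x) ^ y) := by
    refine h1.trans ?_
    apply mul_le_mul_of_nonneg_left h2
    positivity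
  rw [Real.rpow_sub_one hl.ne']
  rw [mul_comm, ← le_div_iff₀ hl] at h3
  refine h3.trans (le_of_eq ?_)
  ring

end

end Pool.Agent.Work.MP_c971ef_nt
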