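import Mathlib
import Pool.Agent.Work.MP_c971ef_nt.Weights

set_option autoImplicit false

namespace Pool.Agent.Work.MP_c971ef_nt

open Finset Nat
open scoped BigOperators

noncomputable section

/-- Comparison of a negative power. -/
theorem rpow_neg_half_le {a u v : ℝ} (ha0 : 0 ≤ a) (ha1 : a ≤ 1) (hv : 0 < v) (huv : v / 2 ≤ u) :
    u ^ (-a) ≤ 2 * v ^ (-a) := by
  have hu : 0 < u := by linarith
  calc u ^ (-a) ≤ (v / 2) ^ (-a) := Real.rpow_le_rpow_of_nonpos (by linarith) huv (by linarith)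
    _ = v ^ (-a) * (2:ℝ) ^ a := by
        rw [Real.div_rpow hv.le (by norm_num), Real.rpow_neg (by norm_num : (0:ℝ) ≤ 2),
          div_inv_eq_mul]
    _ ≤ v ^ (-a) * 2 := by
        apply mul_le_mul_of_nonneg_left _ (Real.rpow_nonneg hv.le _)
        calc (2:ℝ) ^ a ≤ 2 ^ (1:ℝ) := Real.rpow_le_rpow_of_exponent_le (by norm_num) ha1
          _ = 2 := Real.rpow_one 2
    _ = _ := by ring

theorem rpow_neg_mono {a u v : ℝ} (ha0 : 0 ≤ a) (hv : 0 < v) (huv : v ≤ u) :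
    u ^ (-a) ≤ v ^ (-a) := Real.rpow_le_rpow_of_nonpos hv huv (by linarith)

theorem sum_rpow_neg_le {a : ℝ} (ha0 : 0 ≤ a) (ha1 : a < 1) (n : ℕ) :
    ∑ i ∈ range n, ((i:ℝ) + 1) ^ (-a) ≤ (n:ℝ) ^ (1 - a) / (1 - a) := by
  induction n with
  | zero =>
    simp
    rw [Real.zero_rpow (by linarith)]
    simp
  | succ n ih =>
    rw [Finset.sum_range_succ]
    have h1a : 0 < 1 - a := by linarith
    have hn : (0:ℝ) < (n:ℝ) + 1 := by positivity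
    have h1 : (n:ℝ) ^ (1 - a) ≤ ((n:ℝ) + 1) ^ (1 - a) - (1 - a) * ((n:ℝ) + 1) ^ (-a) := by
      have hb := _root_.rpow_one_add_le_one_add_mul_self (s := -(1 / ((n:ℝ) + 1))) (p := 1 - a)
        (by
          rw [neg_le_neg_iff, div_le_one hn]
          have := Nat.cast_nonneg (α := ℝ) n
          linarith) h1a.le (by linarith)
      have e1 : (1:ℝ) + -(1 / ((n:ℝ) + 1)) = n / ((n:ℝ) + 1) := by field_simp; ring
      rw [e1, Real.div_rpow (Nat.cast_nonneg n) hn.le, div_le_iff₀ (Real.rpow_pos_of_pos hn _)] at hb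
      refine hb.trans (le_of_eq ?_)
      have e2 : ((n:ℝ) + 1) ^ (-a) = ((n:ℝ) + 1) ^ (1 - a) / ((n:ℝ) + 1) := by
        rw [← Real.rpow_sub_one hn.ne']
        congr 1
        ring
      rw [e2]
      ring
    calc ∑ i ∈ range n, ((i:ℝ) + 1) ^ (-a) + ((n:ℝ) + 1) ^ (-a)
        ≤ (n:ℝ) ^ (1 - a) / (1 - a) + ((n:ℝ) + 1) ^ (-a) := by linarith
      _ ≤ (((n:ℝ) + 1) ^ (1 - a) - (1 - a) * ((n:ℝ) + 1) ^ (-a)) / (1 - a) +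
          ((n:ℝ) + 1) ^ (-a) := by gcongr
      _ = ((n:ℝ) + 1) ^ (1 - a) / (1 - a) := by field_simp; ring
      _ = _ := by push_cast; ring_nf

/-- A discrete beta integral. -/
theorem beta_le {a b : ℝ} (ha0 : 0 ≤ a) (ha1 : a < 1) (hb0 : 0 ≤ b) (hb1 : b < 1) (J : ℕ) :
    ∑ i ∈ range (J + 1), ((i:ℝ) + 1) ^ (-a) * ((J:ℝ) - i + 1) ^ (-b) ≤
      (2 / (1 - a) + 2 / (1 - b)) * ((J:ℝ) + 1) ^ (1 - a - b) := by
  have hJ : (0:ℝ) < (J:ℝ) + 1 := by positivity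
  have h1 : ∀ i ∈ range (J + 1), ((i:ℝ) + 1) ^ (-a) * ((J:ℝ) - i + 1) ^ (-b) ≤
      2 * ((J:ℝ) + 1) ^ (-b) * ((i:ℝ) + 1) ^ (-a) +
        2 * ((J:ℝ) + 1) ^ (-a) * ((J:ℝ) - i + 1) ^ (-b) := by
    intro i hi
    rw [Finset.mem_range] at hi
    have hiJ : (i:ℝ) ≤ J := by exact_mod_cast (by omega : i ≤ J)
    have hi0 : (0:ℝ) ≤ i := Nat.cast_nonneg i
    have p1 : 0 ≤ ((i:ℝ) + 1) ^ (-a) := Real.rpow_nonneg (by linarith) _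
    have p2 : 0 ≤ ((J:ℝ) - i + 1) ^ (-b) := Real.rpow_nonneg (by linarith) _
    have p3 : 0 ≤ ((J:ℝ) + 1) ^ (-a) := Real.rpow_nonneg hJ.le _
    have p4 : 0 ≤ ((J:ℝ) + 1) ^ (-b) := Real.rpow_nonneg hJ.le _
    rcases le_total (2 * (i:ℝ)) J with h | h
    · have := rpow_neg_half_le hb0 hb1.le hJ (show ((J:ℝ) + 1) / 2 ≤ (J:ℝ) - i + 1 by linarith)
      have := mul_le_mul_of_nonneg_left this p1
      have : 0 ≤ 2 * ((J:ℝ) + 1) ^ (-a) * ((J:ℝ) - i + 1) ^ (-b) := by positivity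
      linarith
    · have := rpow_neg_half_le ha0 ha1.le hJ (show ((J:ℝ) + 1) / 2 ≤ (i:ℝ) + 1 by linarith)
      have := mul_le_mul_of_nonneg_right this p2
      have : 0 ≤ 2 * ((J:ℝ) + 1) ^ (-b) * ((i:ℝ) + 1) ^ (-a) := by positivity
      linarith
  refine (Finset.sum_le_sum h1).trans ?_
  rw [Finset.sum_add_distrib, ← Finset.mul_sum, ← Finset.mul_sum]
  have h2 := sum_rpow_neg_le ha0 ha1 (J + 1)
  have h3 := sum_rpow_neg_le hb0 hb1 (J + 1)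
  have h4 : ∑ i ∈ range (J + 1), ((J:ℝ) - i + 1) ^ (-b) = ∑ i ∈ range (J + 1), ((i:ℝ) + 1) ^ (-b) := by
    rw [← Finset.sum_range_reflect]
    apply Finset.sum_congr rfl
    intro i hi
    rw [Finset.mem_range] at hi
    congr 1
    have : ((J + 1 - 1 - i : ℕ) : ℝ) = (J:ℝ) - i := by
      rw [show J + 1 - 1 - i = J - i by omega, Nat.cast_sub (by omega)]
    rw [this]
    ring
  rw [h4]
  push_cast at h2 h3
  have e1 : ((J:ℝ) + 1) ^ (-b) * ((J:ℝ) + 1) ^ (1 - a) = ((J:ℝ) + 1) ^ (1 - a - b) := by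
    rw [← Real.rpow_add hJ]; congr 1; ring
  have e2 : ((J:ℝ) + 1) ^ (-a) * ((J:ℝ) + 1) ^ (1 - b) = ((J:ℝ) + 1) ^ (1 - a - b) := by
    rw [← Real.rpow_add hJ]; congr 1; ring
  have p3 : 0 ≤ ((J:ℝ) + 1) ^ (-a) := Real.rpow_nonneg hJ.le _
  have p4 : 0 ≤ ((J:ℝ) + 1) ^ (-b) := Real.rpow_nonneg hJ.le _
  calc 2 * ((J:ℝ) + 1) ^ (-b) * ∑ i ∈ range (J + 1), ((i:ℝ) + 1) ^ (-a) +
        2 * ((J:ℝ) + 1) ^ (-a) * ∑ i ∈ range (J + 1), ((i:ℝ) + 1) ^ (-b)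
      ≤ 2 * ((J:ℝ) + 1) ^ (-b) * (((J:ℝ) + 1) ^ (1 - a) / (1 - a)) +
        2 * ((J:ℝ) + 1) ^ (-a) * (((J:ℝ) + 1) ^ (1 - b) / (1 - b)) := by
        gcongr
    _ = 2 / (1 - a) * (((J:ℝ) + 1) ^ (-b) * ((J:ℝ) + 1) ^ (1 - a)) +
        2 / (1 - b) * (((J:ℝ) + 1) ^ (-a) * ((J:ℝ) + 1) ^ (1 - b)) := by ring
    _ = _ := by rw [e1, e2]; ring

/-- The triple version used below. -/
theorem beta3_le {a : ℝ} (ha0 : 0 ≤ a) (ha1 : 3 * a ≤ 1) :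
    ∃ C : ℝ, 0 < C ∧ ∀ J J' : ℕ, J ≤ J' →
    ∑ i ∈ range (J + 1), ((i:ℝ) + 1) ^ (-(2 * a)) * ((J:ℝ) - i + 1) ^ (-a) *
      ((J':ℝ) - i + 1) ^ (-a) ≤ C * ((J':ℝ) + 1) ^ (1 - 4 * a) := by
  set D : ℝ := 2 / (1 - 2 * a) + 2 / (1 - a) with hD
  have h1a : 0 < 1 - a := by linarith
  have h2a : 0 < 1 - 2 * a := by linarith
  have hD0 : 0 < D := by positivity
  refine ⟨4 * D, by positivity, ?_⟩
  intro J J' hJJ
  have hJ : (0:ℝ) < (J:ℝ) + 1 := by positivity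
  have hJ' : (0:ℝ) < (J':ℝ) + 1 := by positivity
  have hJJr : (J:ℝ) ≤ J' := by exact_mod_cast hJJ
  have h1 : ∀ i ∈ range (J + 1), ((i:ℝ) + 1) ^ (-(2 * a)) * ((J:ℝ) - i + 1) ^ (-a) *
      ((J':ℝ) - i + 1) ^ (-a) ≤
      2 * ((J':ℝ) + 1) ^ (-a) * (((i:ℝ) + 1) ^ (-(2 * a)) * ((J:ℝ) - i + 1) ^ (-a) +
        ((i:ℝ) + 1) ^ (-a) * ((J:ℝ) - i + 1) ^ (-(2 * a))) := by
    intro i hi
    rw [Finset.mem_range] at hi
    have hiJ : (i:ℝ) ≤ J := by exact_mod_cast (by omega : i ≤ J)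
    have hi0 : (0:ℝ) ≤ i := Nat.cast_nonneg i
    have q1 : 0 < (i:ℝ) + 1 := by linarith
    have q2 : 0 < (J:ℝ) - i + 1 := by linarith
    have q3 : 0 < (J':ℝ) - i + 1 := by linarith
    have p1 : 0 ≤ ((i:ℝ) + 1) ^ (-a) := Real.rpow_nonneg q1.le _
    have p2 : 0 ≤ ((J:ℝ) - i + 1) ^ (-a) := Real.rpow_nonneg q2.le _
    have p3 : 0 ≤ ((J':ℝ) - i + 1) ^ (-a) := Real.rpow_nonneg q3.le _
    have p4 : 0 ≤ ((J':ℝ) + 1) ^ (-a) := Real.rpow_nonneg hJ'.le _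
    have p5 : 0 ≤ ((i:ℝ) + 1) ^ (-(2 * a)) := Real.rpow_nonneg q1.le _
    have p6 : 0 ≤ ((J:ℝ) - i + 1) ^ (-(2 * a)) := Real.rpow_nonneg q2.le _
    have e5 : ((i:ℝ) + 1) ^ (-(2 * a)) = ((i:ℝ) + 1) ^ (-a) * ((i:ℝ) + 1) ^ (-a) := by
      rw [← Real.rpow_add q1]; congr 1; ring
    have e6 : ((J:ℝ) - i + 1) ^ (-(2 * a)) = ((J:ℝ) - i + 1) ^ (-a) * ((J:ℝ) - i + 1) ^ (-a) := by
      rw [← Real.rpow_add q2]; congr 1; ring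
    rcases le_total (2 * (i:ℝ)) J' with h | h
    · have h5 := rpow_neg_half_le ha0 (by linarith) hJ'
        (show ((J':ℝ) + 1) / 2 ≤ (J':ℝ) - i + 1 by linarith)
      have h6 : ((i:ℝ) + 1) ^ (-(2 * a)) * ((J:ℝ) - i + 1) ^ (-a) * ((J':ℝ) - i + 1) ^ (-a) ≤
          ((i:ℝ) + 1) ^ (-(2 * a)) * ((J:ℝ) - i + 1) ^ (-a) * (2 * ((J':ℝ) + 1) ^ (-a)) :=
        mul_le_mul_of_nonneg_left h5 (mul_nonneg p5 p2)
      have h7 : 0 ≤ 2 * ((J':ℝ) + 1) ^ (-a) * (((i:ℝ) + 1) ^ (-a) * ((J:ℝ) - i + 1) ^ (-(2 * a))) := by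
        positivity
      linarith
    · have h5 := rpow_neg_half_le ha0 (by linarith) hJ'
        (show ((J':ℝ) + 1) / 2 ≤ (i:ℝ) + 1 by linarith)
      have h6 : ((J':ℝ) - i + 1) ^ (-a) ≤ ((J:ℝ) - i + 1) ^ (-a) :=
        rpow_neg_mono ha0 q2 (by linarith)
      have h7 : ((i:ℝ) + 1) ^ (-(2 * a)) * ((J:ℝ) - i + 1) ^ (-a) * ((J':ℝ) - i + 1) ^ (-a) ≤
          (2 * ((J':ℝ) + 1) ^ (-a)) * (((i:ℝ) + 1) ^ (-a) * ((J:ℝ) - i + 1) ^ (-(2 * a))) := by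
        rw [e5, e6]
        calc ((i:ℝ) + 1) ^ (-a) * ((i:ℝ) + 1) ^ (-a) * ((J:ℝ) - i + 1) ^ (-a) *
              ((J':ℝ) - i + 1) ^ (-a)
            ≤ ((2 * ((J':ℝ) + 1) ^ (-a)) * ((i:ℝ) + 1) ^ (-a)) * ((J:ℝ) - i + 1) ^ (-a) *
              ((J:ℝ) - i + 1) ^ (-a) := by gcongr
          _ = _ := by ring
      have h8 : 0 ≤ 2 * ((J':ℝ) + 1) ^ (-a) * (((i:ℝ) + 1) ^ (-(2 * a)) * ((J:ℝ) - i + 1) ^ (-a)) := by
        positivity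
      linarith
  refine (Finset.sum_le_sum h1).trans ?_
  rw [← Finset.mul_sum, Finset.sum_add_distrib]
  have h2 := beta_le (a := 2 * a) (b := a) (by linarith) (by linarith) ha0 (by linarith) J
  have h3 := beta_le (a := a) (b := 2 * a) ha0 (by linarith) (by linarith) (by linarith) J
  have e1 : 1 - 2 * a - a = 1 - 3 * a := by ring
  have e2 : 1 - a - 2 * a = 1 - 3 * a := by ring
  rw [e1] at h2
  rw [e2] at h3
  have h4 : ((J:ℝ) + 1) ^ (1 - 3 * a) ≤ ((J':ℝ) + 1) ^ (1 - 3 * a) :=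
    Real.rpow_le_rpow hJ.le (by linarith) (by linarith)
  have h5 : 2 / (1 - a) + 2 / (1 - 2 * a) = D := by rw [hD]; ring
  rw [h5] at h3
  have p4 : 0 ≤ ((J':ℝ) + 1) ^ (-a) := Real.rpow_nonneg hJ'.le _
  calc 2 * ((J':ℝ) + 1) ^ (-a) * (∑ i ∈ range (J + 1), ((i:ℝ) + 1) ^ (-(2 * a)) *
          ((J:ℝ) - i + 1) ^ (-a) +
        ∑ i ∈ range (J + 1), ((i:ℝ) + 1) ^ (-a) * ((J:ℝ) - i + 1) ^ (-(2 * a)))
      ≤ 2 * ((J':ℝ) + 1) ^ (-a) * (D * ((J:ℝ) + 1) ^ (1 - 3 * a) +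
          D * ((J:ℝ) + 1) ^ (1 - 3 * a)) := by gcongr
    _ ≤ 2 * ((J':ℝ) + 1) ^ (-a) * (D * ((J':ℝ) + 1) ^ (1 - 3 * a) +
          D * ((J':ℝ) + 1) ^ (1 - 3 * a)) := by gcongr
    _ = 4 * D * (((J':ℝ) + 1) ^ (-a) * ((J':ℝ) + 1) ^ (1 - 3 * a)) := by ring
    _ = _ := by
        rw [← Real.rpow_add hJ']
        congr 2
        ring

end

end Pool.Agent.Work.MP_c971ef_nt
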