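import Mathlib
import Pool.Agent.Work.MP_c971ef_nt.Beta

set_option autoImplicit false

namespace Pool.Agent.Work.MP_c971ef_nt

open Finset Nat
open scoped BigOperators

noncomputable section

theorem one_add_log_ge_half (x : ℕ) (hx : 1 ≤ x) :
    ((Nat.log 2 x : ℝ) + 1) / 2 ≤ 1 + Real.log x := by
  have h1 : 2 ^ (Nat.log 2 x) ≤ x := Nat.pow_log_le_self 2 (by omega)
  have h2 : Real.log ((2:ℝ) ^ (Nat.log 2 x)) ≤ Real.log x := by
    apply Real.log_le_log (by positivity)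
    exact_mod_cast h1
  rw [Real.log_pow] at h2
  have h3 := Real.log_two_gt_d9
  have h4 : (0:ℝ) ≤ (Nat.log 2 x : ℝ) := Nat.cast_nonneg _
  nlinarith

/-- The bound for the summatory function in terms of the binary logarithm. -/
theorem gS_le' {z : ℝ} (hz0 : 0 < z) (hz1 : z < 1) : ∃ C : ℝ, 0 < C ∧ ∀ x : ℕ, 1 ≤ x →
    gS z x ≤ C * x * ((Nat.log 2 x : ℝ) + 1) ^ (-(1 - z)) := by
  obtain ⟨C, hC0, hC⟩ := gS_le
  refine ⟨C * 2, by positivity, ?_⟩
  intro x hx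
  have he : (1:ℝ) ≤ Real.exp 1 := Real.one_le_exp (by norm_num)
  have h1 := hC z hz0 (by linarith) x hx
  have h2 : (1 + Real.log x) ^ (z - 1) ≤ 2 * ((Nat.log 2 x : ℝ) + 1) ^ (-(1 - z)) := by
    rw [show z - 1 = -(1 - z) by ring]
    exact rpow_neg_half_le (by linarith) (by linarith) (by positivity) (one_add_log_ge_half x hx)
  calc gS z x ≤ C * x * (1 + Real.log x) ^ (z - 1) := h1
    _ ≤ C * x * (2 * ((Nat.log 2 x : ℝ) + 1) ^ (-(1 - z))) := by gcongr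
    _ = _ := by ring

theorem log_div_ge {K c J i : ℕ} (hc : 1 ≤ c) (_hcK : c ≤ K) (hJ : 2 ^ J ≤ K) (hi : c < 2 ^ (i + 1))
    (hiJ : i ≤ J) : ((J:ℝ) - i + 1) / 2 ≤ (Nat.log 2 (K / c) : ℝ) + 1 := by
  rcases Nat.eq_or_lt_of_le hiJ with h | h
  · subst h
    have : (0:ℝ) ≤ (Nat.log 2 (K / c) : ℝ) := Nat.cast_nonneg _
    linarith
  · have h1 : 2 ^ (J - i - 1) ≤ K / c := by
      rw [Nat.le_div_iff_mul_le (by omega)]
      calc 2 ^ (J - i - 1) * c ≤ 2 ^ (J - i - 1) * 2 ^ (i + 1) := Nat.mul_le_mul_left _ hi.le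
        _ = 2 ^ J := by rw [← pow_add]; congr 1; omega
        _ ≤ K := hJ
    have h2 : J - i - 1 ≤ Nat.log 2 (K / c) := Nat.le_log_of_pow_le (by norm_num) h1
    have h3 : (J:ℝ) - i - 1 ≤ (Nat.log 2 (K / c) : ℝ) := by
      have : ((J - i - 1 : ℕ) : ℝ) = (J:ℝ) - i - 1 := by
        rw [Nat.cast_sub (by omega), Nat.cast_sub (by omega)]; simp
      rw [← this]
      exact_mod_cast h2
    have h4 : (i:ℝ) + 1 ≤ J := by exact_mod_cast h
    linarith

theorem sum_single_le {z : ℝ} (hz0 : 0 < z) (hz1 : z < 1) (hz2 : 2 ≤ 3 * z) :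
    ∃ C : ℝ, 0 < C ∧ ∀ K N : ℕ, 1 ≤ K → K ≤ N →
    ∑ c ∈ Ioc 0 K, cm (tz z) c * gS z c * gS z (K / c) * gS z (N / c) ≤
      C * K * N * ((Nat.log 2 N : ℝ) + 1) ^ (4 * z - 3) := by
  obtain ⟨C, hC0, hC⟩ := gS_le' hz0 hz1
  set a : ℝ := 1 - z with ha
  have ha0 : 0 ≤ a := by linarith
  have ha1 : 3 * a ≤ 1 := by linarith
  obtain ⟨D, hD0, hD⟩ := beta3_le ha0 ha1
  refine ⟨C ^ 3 * 4 * (2 * C) * D, by positivity, ?_⟩
  intro K N hK hKN
  set J := Nat.log 2 K with hJ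
  set J' := Nat.log 2 N with hJ'
  have hJJ : J ≤ J' := Nat.log_mono_right hKN
  have hg : ∀ m, 0 ≤ cm (tz z) m := cm_nonneg (fun p _ => (tz_pos hz0 p).le)
  have h2J : 2 ^ J ≤ K := Nat.pow_log_le_self 2 (by omega)
  have h2J' : 2 ^ J' ≤ N := Nat.pow_log_le_self 2 (by omega)
  have hmaps : ∀ c ∈ Ioc 0 K, Nat.log 2 c ∈ range (J + 1) := by
    intro c hc
    rw [Finset.mem_Ioc] at hc
    rw [Finset.mem_range]
    have := Nat.log_mono_right (b := 2) hc.2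
    omega
  rw [← Finset.sum_fiberwise_of_maps_to hmaps]
  have hblock : ∀ i ∈ range (J + 1),
      ∑ c ∈ (Ioc 0 K).filter (fun c => Nat.log 2 c = i),
        cm (tz z) c * gS z c * gS z (K / c) * gS z (N / c) ≤
      (C ^ 3 * 4 * (2 * C) * K * N) * (((i:ℝ) + 1) ^ (-(2 * a)) * ((J:ℝ) - i + 1) ^ (-a) *
        ((J':ℝ) - i + 1) ^ (-a)) := by
    intro i hi
    rw [Finset.mem_range] at hi
    have hiJ : (i:ℝ) ≤ J := by exact_mod_cast (by omega : i ≤ J)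
    have hJJr : (J:ℝ) ≤ J' := by exact_mod_cast hJJ
    have hi0 : (0:ℝ) ≤ i := Nat.cast_nonneg i
    have q1 : 0 < (i:ℝ) + 1 := by linarith
    have q2 : 0 < (J:ℝ) - i + 1 := by linarith
    have q3 : 0 < (J':ℝ) - i + 1 := by linarith
    have p1 : 0 ≤ ((i:ℝ) + 1) ^ (-a) := Real.rpow_nonneg q1.le _
    have p2 : 0 ≤ ((J:ℝ) - i + 1) ^ (-a) := Real.rpow_nonneg q2.le _
    have p3 : 0 ≤ ((J':ℝ) - i + 1) ^ (-a) := Real.rpow_nonneg q3.le _
    have hpt : ∀ c ∈ (Ioc 0 K).filter (fun c => Nat.log 2 c = i),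
        cm (tz z) c * gS z c * gS z (K / c) * gS z (N / c) ≤
        (C ^ 3 * 4 * K * N * (((i:ℝ) + 1) ^ (-a) * ((J:ℝ) - i + 1) ^ (-a) *
          ((J':ℝ) - i + 1) ^ (-a))) * (cm (tz z) c * ((2:ℝ) ^ i)⁻¹) := by
      intro c hc
      rw [Finset.mem_filter, Finset.mem_Ioc] at hc
      obtain ⟨⟨hc0, hcK⟩, hci⟩ := hc
      have hc0r : (0:ℝ) < c := by exact_mod_cast hc0
      have hlt : c < 2 ^ (i + 1) := by rw [← hci]; exact Nat.lt_pow_succ_log_self (by norm_num) c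
      have hge : 2 ^ i ≤ c := by rw [← hci]; exact Nat.pow_log_le_self 2 (by omega)
      have hger : (2:ℝ) ^ i ≤ c := by exact_mod_cast hge
      have b1 : gS z c ≤ C * c * ((i:ℝ) + 1) ^ (-a) := by
        have := hC c hc0
        rw [hci] at this
        exact this
      have b2 : gS z (K / c) ≤ C * ((K:ℝ) / c) * (2 * ((J:ℝ) - i + 1) ^ (-a)) := by
        have h1 := hC (K / c) (Nat.div_pos hcK hc0)
        refine h1.trans ?_
        have h2 : ((Nat.log 2 (K / c) : ℝ) + 1) ^ (-a) ≤ 2 * ((J:ℝ) - i + 1) ^ (-a) :=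
          rpow_neg_half_le ha0 (by linarith) q2 (log_div_ge hc0 hcK h2J hlt (by omega))
        have h3 : ((K / c : ℕ) : ℝ) ≤ (K:ℝ) / c := Nat.cast_div_le
        have h4 : 0 ≤ ((Nat.log 2 (K / c) : ℝ) + 1) ^ (-a) := Real.rpow_nonneg (by positivity) _
        gcongr
      have b3 : gS z (N / c) ≤ C * ((N:ℝ) / c) * (2 * ((J':ℝ) - i + 1) ^ (-a)) := by
        have h1 := hC (N / c) (Nat.div_pos (hcK.trans hKN) hc0)
        refine h1.trans ?_
        have h2 : ((Nat.log 2 (N / c) : ℝ) + 1) ^ (-a) ≤ 2 * ((J':ℝ) - i + 1) ^ (-a) :=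
          rpow_neg_half_le ha0 (by linarith) q3
            (log_div_ge hc0 (hcK.trans hKN) h2J' hlt (by omega))
        have h3 : ((N / c : ℕ) : ℝ) ≤ (N:ℝ) / c := Nat.cast_div_le
        have h4 : 0 ≤ ((Nat.log 2 (N / c) : ℝ) + 1) ^ (-a) := Real.rpow_nonneg (by positivity) _
        gcongr
      have n1 := gS_nonneg hz0 c
      have n2 := gS_nonneg hz0 (K / c)
      have n3 := gS_nonneg hz0 (N / c)
      calc cm (tz z) c * gS z c * gS z (K / c) * gS z (N / c)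
          ≤ cm (tz z) c * (C * c * ((i:ℝ) + 1) ^ (-a)) *
              (C * ((K:ℝ) / c) * (2 * ((J:ℝ) - i + 1) ^ (-a))) *
              (C * ((N:ℝ) / c) * (2 * ((J':ℝ) - i + 1) ^ (-a))) := by
            have := hg c
            gcongr
        _ = (C ^ 3 * 4 * K * N * (((i:ℝ) + 1) ^ (-a) * ((J:ℝ) - i + 1) ^ (-a) *
              ((J':ℝ) - i + 1) ^ (-a))) * (cm (tz z) c * (c:ℝ)⁻¹) := by
            field_simp
            ring
        _ ≤ _ := by
            apply mul_le_mul_of_nonneg_left _ (by positivity)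
            apply mul_le_mul_of_nonneg_left _ (hg c)
            exact inv_anti₀ (by positivity) hger
    refine (Finset.sum_le_sum hpt).trans ?_
    rw [← Finset.mul_sum, ← Finset.sum_mul]
    have hsub : ∑ c ∈ (Ioc 0 K).filter (fun c => Nat.log 2 c = i), cm (tz z) c ≤
        gS z (2 ^ (i + 1)) := by
      unfold gS
      apply Finset.sum_le_sum_of_subset_of_nonneg
      · intro c hc
        rw [Finset.mem_filter, Finset.mem_Ioc] at hc
        rw [Finset.mem_Ioc]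
        have hlt : c < 2 ^ (i + 1) := by
          rw [← hc.2]; exact Nat.lt_pow_succ_log_self (by norm_num) c
        exact ⟨hc.1.1, hlt.le⟩
      · intro m _ _
        exact hg m
    have hb : gS z (2 ^ (i + 1)) ≤ 2 * C * 2 ^ i * ((i:ℝ) + 1) ^ (-a) := by
      have h1 := hC (2 ^ (i + 1)) Nat.one_le_two_pow
      rw [Nat.log_pow (by norm_num)] at h1
      refine h1.trans ?_
      push_cast
      have h2 : ((i:ℝ) + 1 + 1) ^ (-a) ≤ ((i:ℝ) + 1) ^ (-a) := rpow_neg_mono ha0 q1 (by linarith)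
      calc C * 2 ^ (i + 1) * ((i:ℝ) + 1 + 1) ^ (-a) ≤ C * 2 ^ (i + 1) * ((i:ℝ) + 1) ^ (-a) := by
            gcongr
        _ = _ := by ring
    have hb2 : (∑ c ∈ (Ioc 0 K).filter (fun c => Nat.log 2 c = i), cm (tz z) c) * ((2:ℝ) ^ i)⁻¹ ≤
        2 * C * ((i:ℝ) + 1) ^ (-a) := by
      rw [← div_eq_mul_inv, div_le_iff₀ (by positivity)]
      refine (hsub.trans hb).trans (le_of_eq ?_)
      ring
    have e5 : ((i:ℝ) + 1) ^ (-(2 * a)) = ((i:ℝ) + 1) ^ (-a) * ((i:ℝ) + 1) ^ (-a) := by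
      rw [← Real.rpow_add q1]; congr 1; ring
    calc _ ≤ (C ^ 3 * 4 * K * N * (((i:ℝ) + 1) ^ (-a) * ((J:ℝ) - i + 1) ^ (-a) *
          ((J':ℝ) - i + 1) ^ (-a))) * (2 * C * ((i:ℝ) + 1) ^ (-a)) := by
          apply mul_le_mul_of_nonneg_left hb2 (by positivity)
      _ = _ := by rw [e5]; ring
  refine (Finset.sum_le_sum hblock).trans ?_
  rw [← Finset.mul_sum]
  have h1 := hD J J' hJJ
  have e : 1 - 4 * a = 4 * z - 3 := by rw [ha]; ring
  rw [e] at h1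
  calc (C ^ 3 * 4 * (2 * C) * K * N) * ∑ i ∈ range (J + 1), ((i:ℝ) + 1) ^ (-(2 * a)) *
        ((J:ℝ) - i + 1) ^ (-a) * ((J':ℝ) - i + 1) ^ (-a)
      ≤ (C ^ 3 * 4 * (2 * C) * K * N) * (D * ((J':ℝ) + 1) ^ (4 * z - 3)) := by
        apply mul_le_mul_of_nonneg_left h1 (by positivity)
    _ = _ := by ring

end

end Pool.Agent.Work.MP_c971ef_nt
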