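import Mathlib
import Pool.Agent.Work.MP_c971ef_nt.Quad

set_option autoImplicit false

namespace Pool.Agent.Work.MP_c971ef_nt

open Finset Nat
open scoped BigOperators

noncomputable section

/-- Splitting data of two factorisations of one number. -/
def spl (w : (ℕ × ℕ) × (ℕ × ℕ)) : (ℕ × ℕ) × (ℕ × ℕ) :=
  ((w.1.1 / Nat.gcd w.1.1 w.2.1, w.2.1 / Nat.gcd w.1.1 w.2.1),
    (Nat.gcd w.1.1 w.2.1, w.1.2 / (w.2.1 / Nat.gcd w.1.1 w.2.1)))

theorem spl_spec {k n k' n' : ℕ} (hk : 0 < k) (hk' : 0 < k') (hn : 0 < n) (h : k * n = k' * n') :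
    let b := k / Nat.gcd k k'
    let c := k' / Nat.gcd k k'
    let a := Nat.gcd k k'
    let d := n / c
    a * b = k ∧ a * c = k' ∧ c * d = n ∧ b * d = n' ∧ 0 < a ∧ 0 < b ∧ 0 < c ∧ 0 < d := by
  intro b c a d
  have ha : 0 < a := Nat.gcd_pos_of_pos_left _ hk
  have h1 : a * b = k := Nat.mul_div_cancel' (Nat.gcd_dvd_left k k')
  have h2 : a * c = k' := Nat.mul_div_cancel' (Nat.gcd_dvd_right k k')
  have hb : 0 < b := Nat.pos_of_ne_zero (by rintro h0; rw [h0] at h1; omega)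
  have hc : 0 < c := Nat.pos_of_ne_zero (by rintro h0; rw [h0] at h2; omega)
  have hcop : Nat.Coprime b c := Nat.coprime_div_gcd_div_gcd ha
  have h3 : b * n = c * n' := by
    apply Nat.eq_of_mul_eq_mul_left ha
    rw [← mul_assoc, ← mul_assoc, h1, h2, h]
  have h4 : c ∣ n := by
    have : c ∣ b * n := by rw [h3]; exact dvd_mul_right c n'
    exact hcop.symm.dvd_of_dvd_mul_left this
  have h5 : c * d = n := Nat.mul_div_cancel' h4
  have h6 : b * d = n' := by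
    apply Nat.eq_of_mul_eq_mul_left hc
    rw [← h3, ← h5]
    ring
  have hd : 0 < d := Nat.pos_of_ne_zero (by rintro h0; rw [h0] at h5; omega)
  exact ⟨h1, h2, h5, h6, ha, hb, hc, hd⟩

theorem second_moment {z : ℝ} (hz0 : 0 < z) (K N : ℕ) :
    ∑ w ∈ ((Ioc 0 K ×ˢ Ioc 0 N) ×ˢ (Ioc 0 K ×ˢ Ioc 0 N)).filter
        (fun w => w.1.1 * w.1.2 = w.2.1 * w.2.2), cm (tz z) (w.1.1 * w.1.2) ≤
      2 * ∑ c ∈ Ioc 0 K, cm (tz z) c * gS z c * gS z (K / c) * gS z (N / c) := by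
  set g := cm (tz z) with hgdef
  have hg : ∀ m, 0 ≤ g m := cm_nonneg (fun p _ => (tz_pos hz0 p).le)
  set S := ((Ioc 0 K ×ˢ Ioc 0 N) ×ˢ (Ioc 0 K ×ˢ Ioc 0 N)).filter
        (fun w => w.1.1 * w.1.2 = w.2.1 * w.2.2) with hS
  set W : (ℕ × ℕ) × (ℕ × ℕ) → ℝ := fun q => g q.1.1 * g q.1.2 * (g q.2.1 * g q.2.2) with hW
  have hWn : ∀ q, 0 ≤ W q := fun q =>
    mul_nonneg (mul_nonneg (hg _) (hg _)) (mul_nonneg (hg _) (hg _))
  have hspec : ∀ w ∈ S, (spl w).2.1 * (spl w).1.1 = w.1.1 ∧ (spl w).2.1 * (spl w).1.2 = w.2.1 ∧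
      (spl w).1.2 * (spl w).2.2 = w.1.2 ∧ (spl w).1.1 * (spl w).2.2 = w.2.2 ∧
      0 < (spl w).2.1 ∧ 0 < (spl w).1.1 ∧ 0 < (spl w).1.2 ∧ 0 < (spl w).2.2 := by
    intro w hw
    rw [hS, Finset.mem_filter, Finset.mem_product, Finset.mem_product, Finset.mem_product,
      Finset.mem_Ioc, Finset.mem_Ioc, Finset.mem_Ioc, Finset.mem_Ioc] at hw
    obtain ⟨⟨⟨⟨h1, _⟩, ⟨h2, _⟩⟩, ⟨⟨h3, _⟩, _⟩⟩, h4⟩ := hw
    exact spl_spec h1 h3 h2 h4
  have hinj : Set.InjOn spl (S : Set ((ℕ × ℕ) × (ℕ × ℕ))) := by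
    intro w hw w' hw' heq
    obtain ⟨a1, a2, a3, a4, _⟩ := hspec w hw
    obtain ⟨b1, b2, b3, b4, _⟩ := hspec w' hw'
    rw [heq] at a1 a2 a3 a4
    ext
    · rw [← a1, b1]
    · rw [← a3, b3]
    · rw [← a2, b2]
    · rw [← a4, b4]
  have e1 : ∑ w ∈ S, g (w.1.1 * w.1.2) = ∑ q ∈ S.image spl, W q := by
    rw [Finset.sum_image hinj]
    apply Finset.sum_congr rfl
    intro w hw
    obtain ⟨a1, a2, a3, a4, _⟩ := hspec w hw
    change _ = g (spl w).1.1 * g (spl w).1.2 * (g (spl w).2.1 * g (spl w).2.2)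
    rw [← a1, ← a3, map_mul, map_mul, map_mul]
    ring
  rw [e1]
  set U := (Ioc 0 K ×ˢ Ioc 0 K) ×ˢ (Ioc 0 K ×ˢ Ioc 0 N) with hU
  set Q1 := U.filter (fun q => q.1.1 ≤ q.1.2 ∧ q.2.1 * q.1.2 ≤ K ∧ q.1.2 * q.2.2 ≤ N) with hQ1
  set Q2 := U.filter (fun q => q.1.2 ≤ q.1.1 ∧ q.2.1 * q.1.1 ≤ K ∧ q.1.1 * q.2.2 ≤ N) with hQ2
  have hsub : S.image spl ⊆ Q1 ∪ Q2 := by
    intro q hq
    obtain ⟨w, hw, rfl⟩ := Finset.mem_image.mp hq
    obtain ⟨a1, a2, a3, a4, p1, p2, p3, p4⟩ := hspec w hw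
    rw [hS, Finset.mem_filter, Finset.mem_product, Finset.mem_product, Finset.mem_product,
      Finset.mem_Ioc, Finset.mem_Ioc, Finset.mem_Ioc, Finset.mem_Ioc] at hw
    obtain ⟨⟨⟨⟨_, h1⟩, ⟨_, h2⟩⟩, ⟨⟨_, h3⟩, ⟨_, h5⟩⟩⟩, h4⟩ := hw
    have r1 : (spl w).1.1 ≤ K := by
      calc (spl w).1.1 ≤ (spl w).2.1 * (spl w).1.1 := Nat.le_mul_of_pos_left _ p1
        _ ≤ K := by rw [a1]; exact h1
    have r2 : (spl w).1.2 ≤ K := by
      calc (spl w).1.2 ≤ (spl w).2.1 * (spl w).1.2 := Nat.le_mul_of_pos_left _ p1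
        _ ≤ K := by rw [a2]; exact h3
    have r3 : (spl w).2.1 ≤ K := by
      calc (spl w).2.1 ≤ (spl w).2.1 * (spl w).1.1 := Nat.le_mul_of_pos_right _ p2
        _ ≤ K := by rw [a1]; exact h1
    have r4 : (spl w).2.2 ≤ N := by
      calc (spl w).2.2 ≤ (spl w).1.2 * (spl w).2.2 := Nat.le_mul_of_pos_left _ p3
        _ ≤ N := by rw [a3]; exact h2
    have hUm : spl w ∈ U := by
      rw [hU, Finset.mem_product, Finset.mem_product, Finset.mem_product, Finset.mem_Ioc,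
        Finset.mem_Ioc, Finset.mem_Ioc, Finset.mem_Ioc]
      exact ⟨⟨⟨p2, r1⟩, ⟨p3, r2⟩⟩, ⟨⟨p1, r3⟩, ⟨p4, r4⟩⟩⟩
    rw [Finset.mem_union, hQ1, hQ2, Finset.mem_filter, Finset.mem_filter]
    rcases le_total (spl w).1.1 (spl w).1.2 with h | h
    · left
      exact ⟨hUm, h, by rw [a2]; exact h3, by rw [a3]; exact h2⟩
    · right
      exact ⟨hUm, h, by rw [a1]; exact h1, by rw [a4]; exact h5⟩
  have hs1 : ∀ c ∈ Ioc 0 K, (∑ b ∈ Ioc 0 K, if b ≤ c then g b else 0) = gS z c := by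
    intro c hc
    rw [Finset.mem_Ioc] at hc
    rw [← Finset.sum_filter, gS]
    apply Finset.sum_congr _ (fun _ _ => rfl)
    ext b
    simp only [mem_filter, mem_Ioc]
    constructor
    · rintro ⟨⟨h1, h2⟩, h3⟩; exact ⟨h1, h3⟩
    · rintro ⟨h1, h3⟩; exact ⟨⟨h1, h3.trans hc.2⟩, h3⟩
  have hs2 : ∀ c ∈ Ioc 0 K, (∑ a ∈ Ioc 0 K, if a * c ≤ K then g a else 0) = gS z (K / c) := by
    intro c hc
    rw [Finset.mem_Ioc] at hc
    rw [← Finset.sum_filter, gS]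
    apply Finset.sum_congr _ (fun _ _ => rfl)
    ext b
    simp only [mem_filter, mem_Ioc]
    rw [Nat.le_div_iff_mul_le hc.1]
    constructor
    · rintro ⟨⟨h1, h2⟩, h3⟩; exact ⟨h1, h3⟩
    · rintro ⟨h1, h3⟩; exact ⟨⟨h1, (Nat.le_mul_of_pos_right b hc.1).trans h3⟩, h3⟩
  have hs3 : ∀ c ∈ Ioc 0 K, (∑ d ∈ Ioc 0 N, if c * d ≤ N then g d else 0) = gS z (N / c) := by
    intro c hc
    rw [Finset.mem_Ioc] at hc
    rw [← Finset.sum_filter, gS]
    apply Finset.sum_congr _ (fun _ _ => rfl)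
    ext b
    simp only [mem_filter, mem_Ioc]
    rw [Nat.le_div_iff_mul_le hc.1, mul_comm b c]
    constructor
    · rintro ⟨⟨h1, h2⟩, h3⟩; exact ⟨h1, h3⟩
    · rintro ⟨h1, h3⟩; exact ⟨⟨h1, (Nat.le_mul_of_pos_left b hc.1).trans h3⟩, h3⟩
  have hprod : ∀ c ∈ Ioc 0 K, ∑ b ∈ Ioc 0 K, ∑ a ∈ Ioc 0 K, ∑ d ∈ Ioc 0 N,
      (if b ≤ c ∧ a * c ≤ K ∧ c * d ≤ N then g b * g c * (g a * g d) else 0) =
      g c * gS z c * gS z (K / c) * gS z (N / c) := by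
    intro c hc
    rw [← hs1 c hc, ← hs2 c hc, ← hs3 c hc]
    rw [mul_assoc, mul_assoc, Finset.sum_mul, Finset.mul_sum]
    apply Finset.sum_congr rfl
    intro b _
    rw [Finset.sum_mul, Finset.mul_sum, Finset.mul_sum]
    apply Finset.sum_congr rfl
    intro a _
    rw [Finset.mul_sum, Finset.mul_sum, Finset.mul_sum]
    apply Finset.sum_congr rfl
    intro d _
    by_cases h1 : b ≤ c
    · by_cases h2 : a * c ≤ K
      · by_cases h3 : c * d ≤ N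
        · simp only [h1, h2, h3, and_self, if_true]; ring
        · simp only [h1, h2, h3, and_false, if_false, mul_zero]
      · simp only [h2, false_and, and_false, if_false, mul_zero, zero_mul]
    · simp only [h1, false_and, if_false, mul_zero, zero_mul]
  have hQ1s : ∑ q ∈ Q1, W q = ∑ c ∈ Ioc 0 K, g c * gS z c * gS z (K / c) * gS z (N / c) := by
    rw [hQ1, Finset.sum_filter, hU, Finset.sum_product, Finset.sum_product_right]
    apply Finset.sum_congr rfl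
    intro c hc
    rw [← hprod c hc]
    apply Finset.sum_congr rfl
    intro b _
    rw [Finset.sum_product]
  have hQ2s : ∑ q ∈ Q2, W q = ∑ c ∈ Ioc 0 K, g c * gS z c * gS z (K / c) * gS z (N / c) := by
    rw [hQ2, Finset.sum_filter, hU, Finset.sum_product, Finset.sum_product]
    apply Finset.sum_congr rfl
    intro c hc
    rw [← hprod c hc]
    apply Finset.sum_congr rfl
    intro b _
    rw [Finset.sum_product]
    apply Finset.sum_congr rfl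
    intro a _
    apply Finset.sum_congr rfl
    intro d _
    change (if _ then g c * g b * (g a * g d) else 0) = _
    rw [mul_comm (g c) (g b)]
  calc ∑ q ∈ S.image spl, W q ≤ ∑ q ∈ Q1 ∪ Q2, W q :=
        Finset.sum_le_sum_of_subset_of_nonneg hsub (fun q _ _ => hWn q)
    _ ≤ ∑ q ∈ Q1, W q + ∑ q ∈ Q2, W q := by
        have := Finset.sum_union_inter (s₁ := Q1) (s₂ := Q2) (f := W)
        have h2 : 0 ≤ ∑ q ∈ Q1 ∩ Q2, W q := Finset.sum_nonneg (fun q _ => hWn q)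
        linarith
    _ = _ := by rw [hQ1s, hQ2s]; ring

end

end Pool.Agent.Work.MP_c971ef_nt
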