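import Mathlib
import Pool.Agent.Work.MP_c971ef_nt.Repr
import Pool.Agent.Work.MP_c971ef_nt.Index

set_option autoImplicit false

namespace Pool.Agent.Work.MP_c971ef_nt

open Finset Nat
open scoped BigOperators

noncomputable section

/-- The exponent `2 log 2 - 1`. -/
def thx : ℝ := 2 * Real.log 2 - 1

/-- The weight `e / 4`. -/
def zx : ℝ := Real.exp 1 / 4

theorem thx_bounds : 0.38 < thx ∧ thx < 0.39 := by
  unfold thx
  have h1 := Real.log_two_gt_d9
  have h2 := Real.log_two_lt_d9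
  constructor <;> linarith

theorem zx_bounds : 0.67 < zx ∧ zx < 0.68 := by
  unfold zx
  have h1 := Real.exp_one_gt_d9
  have h2 := Real.exp_one_lt_d9
  constructor <;> linarith

theorem zx_mul : zx * Real.exp 1 ^ thx = 1 := by
  have h1 : Real.exp (2 * Real.log 2) = 4 := by
    rw [mul_comm, Real.exp_mul, Real.exp_log (by norm_num)]
    norm_num
  have h2 : Real.exp 1 * Real.exp thx = 4 := by
    rw [← Real.exp_add, ← h1]
    congr 1
    unfold thx
    ring
  rw [Real.exp_one_rpow, zx, div_mul_eq_mul_div, h2]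
  norm_num

theorem cm_weights (m : ℕ) (hm : m ≠ 0) :
    cm (tz zx) m * (cm (tz (Real.exp 1)) m) ^ thx = 1 := by
  have he := Real.exp_pos 1
  induction m using induction_on_primes with
  | zero => exact absurd rfl hm
  | one => simp
  | prime_mul p a hp ih =>
    have ha : a ≠ 0 := by rintro rfl; simp at hm
    rw [map_mul, map_mul, Real.mul_rpow (cm_nonneg (fun p _ => (tz_pos he p).le) p)
      (cm_nonneg (fun p _ => (tz_pos he p).le) a), cm_prime _ hp, cm_prime _ hp]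
    have h1 : tz zx p * tz (Real.exp 1) p ^ thx = 1 := by
      unfold tz
      split_ifs with h
      · simp
      · exact zx_mul
    calc tz zx p * cm (tz zx) a * (tz (Real.exp 1) p ^ thx * cm (tz (Real.exp 1)) a ^ thx)
        = (tz zx p * tz (Real.exp 1) p ^ thx) *
          (cm (tz zx) a * cm (tz (Real.exp 1)) a ^ thx) := by ring
      _ = 1 := by rw [h1, ih ha, one_mul]

/-- Number of representations. -/
def rp (K N m : ℕ) : ℕ := ((Ioc 0 K ×ˢ Ioc 0 N).filter (fun x => x.1 * x.2 = m)).card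

theorem sum_weight_rp (z : ℝ) (K N : ℕ) :
    ∑ m ∈ Ioc 0 (K * N), cm (tz z) m * (rp K N m : ℝ) ^ 2 =
    ∑ w ∈ ((Ioc 0 K ×ˢ Ioc 0 N) ×ˢ (Ioc 0 K ×ˢ Ioc 0 N)).filter
        (fun w => w.1.1 * w.1.2 = w.2.1 * w.2.2), cm (tz z) (w.1.1 * w.1.2) := by
  set P := Ioc 0 K ×ˢ Ioc 0 N with hP
  have hmaps : ∀ w ∈ (P ×ˢ P).filter (fun w => w.1.1 * w.1.2 = w.2.1 * w.2.2),
      w.1.1 * w.1.2 ∈ Ioc 0 (K * N) := by
    intro w hw
    rw [Finset.mem_filter, Finset.mem_product, hP, Finset.mem_product, Finset.mem_Ioc,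
      Finset.mem_Ioc] at hw
    obtain ⟨⟨⟨⟨h1, h2⟩, ⟨h3, h4⟩⟩, _⟩, _⟩ := hw
    rw [Finset.mem_Ioc]
    exact ⟨Nat.mul_pos h1 h3, Nat.mul_le_mul h2 h4⟩
  rw [← Finset.sum_fiberwise_of_maps_to hmaps]
  apply Finset.sum_congr rfl
  intro m _
  have h1 : ∀ w ∈ ((P ×ˢ P).filter (fun w => w.1.1 * w.1.2 = w.2.1 * w.2.2)).filter
      (fun w => w.1.1 * w.1.2 = m), cm (tz z) (w.1.1 * w.1.2) = cm (tz z) m := by
    intro w hw
    rw [(Finset.mem_filter.mp hw).2]
  rw [Finset.sum_congr rfl h1, Finset.sum_const, nsmul_eq_mul, mul_comm]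
  congr 1
  have h2 : ((P ×ˢ P).filter (fun w => w.1.1 * w.1.2 = w.2.1 * w.2.2)).filter
      (fun w => w.1.1 * w.1.2 = m) =
      (P.filter (fun x => x.1 * x.2 = m)) ×ˢ (P.filter (fun x => x.1 * x.2 = m)) := by
    ext w
    simp only [mem_filter, mem_product]
    constructor
    · rintro ⟨⟨⟨h1, h2⟩, h3⟩, h4⟩
      exact ⟨⟨h1, h4⟩, ⟨h2, h3 ▸ h4⟩⟩
    · rintro ⟨⟨h1, h4⟩, ⟨h2, h3⟩⟩
      exact ⟨⟨⟨h1, h2⟩, h4.trans h3.symm⟩, h4⟩
  rw [h2, Finset.card_product]
  push_cast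
  rw [rp, sq]

/-- The pairs with `p_{kn}^2 - 2` prime. -/
def gp (K N : ℕ) : Finset (ℕ × ℕ) :=
  (Ioc 0 K ×ˢ Ioc 0 N).filter (fun x => goodIdx (x.1 * x.2))

theorem gp_card (K N : ℕ) :
    ((gp K N).card : ℝ) = ∑ m ∈ (Ioc 0 (K * N)).filter goodIdx, (rp K N m : ℝ) := by
  have hmaps : ∀ x ∈ gp K N, x.1 * x.2 ∈ (Ioc 0 (K * N)).filter goodIdx := by
    intro x hx
    rw [gp, Finset.mem_filter, Finset.mem_product, Finset.mem_Ioc, Finset.mem_Ioc] at hx
    obtain ⟨⟨⟨h1, h2⟩, ⟨h3, h4⟩⟩, h5⟩ := hx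
    rw [Finset.mem_filter, Finset.mem_Ioc]
    exact ⟨⟨Nat.mul_pos h1 h3, Nat.mul_le_mul h2 h4⟩, h5⟩
  rw [Finset.card_eq_sum_card_fiberwise hmaps]
  push_cast
  apply Finset.sum_congr rfl
  intro m hm
  rw [rp]
  congr 2
  ext x
  rw [gp, Finset.mem_filter, Finset.mem_filter, Finset.mem_filter]
  constructor
  · rintro ⟨⟨h1, _⟩, h2⟩; exact ⟨h1, h2⟩
  · rintro ⟨h1, h2⟩
    refine ⟨⟨h1, ?_⟩, h2⟩
    rw [h2]
    exact (Finset.mem_filter.mp hm).2

theorem cs_step (K N : ℕ) :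
    ((gp K N).card : ℝ) ^ 2 ≤
      (∑ m ∈ (Ioc 0 (K * N)).filter goodIdx, (cm (tz (Real.exp 1)) m) ^ thx) *
      (∑ m ∈ Ioc 0 (K * N), cm (tz zx) m * (rp K N m : ℝ) ^ 2) := by
  have hz0 : 0 < zx := by have := zx_bounds.1; linarith
  have hg : ∀ m, 0 ≤ cm (tz zx) m := cm_nonneg (fun p _ => (tz_pos hz0 p).le)
  have hge : ∀ m, 0 ≤ cm (tz (Real.exp 1)) m :=
    cm_nonneg (fun p _ => (tz_pos (Real.exp_pos 1) p).le)
  rw [gp_card]
  calc (∑ m ∈ (Ioc 0 (K * N)).filter goodIdx, (rp K N m : ℝ)) ^ 2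
      ≤ (∑ m ∈ (Ioc 0 (K * N)).filter goodIdx, (cm (tz (Real.exp 1)) m) ^ thx) *
        (∑ m ∈ (Ioc 0 (K * N)).filter goodIdx, cm (tz zx) m * (rp K N m : ℝ) ^ 2) := by
        apply Finset.sum_sq_le_sum_mul_sum_of_sq_le_mul
        · intro m _; exact Real.rpow_nonneg (hge m) _
        · intro m _; exact mul_nonneg (hg m) (sq_nonneg _)
        · intro m hm
          apply le_of_eq
          have hm0 : m ≠ 0 := by
            have := (Finset.mem_Ioc.mp (Finset.mem_filter.mp hm).1).1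
            omega
          have := cm_weights m hm0
          calc (rp K N m : ℝ) ^ 2 = 1 * (rp K N m : ℝ) ^ 2 := by ring
            _ = (cm (tz zx) m * (cm (tz (Real.exp 1)) m) ^ thx) * (rp K N m : ℝ) ^ 2 := by rw [this]
            _ = _ := by ring
    _ ≤ _ := by
        apply mul_le_mul_of_nonneg_left
        · apply Finset.sum_le_sum_of_subset_of_nonneg (Finset.filter_subset _ _)
          intro m _ _
          exact mul_nonneg (hg m) (sq_nonneg _)
        · exact Finset.sum_nonneg (fun m _ => Real.rpow_nonneg (hge m) _)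

theorem holder_step (X : ℕ) :
    ∑ m ∈ (Ioc 0 X).filter goodIdx, (cm (tz (Real.exp 1)) m) ^ thx ≤
      (gS (Real.exp 1) X) ^ thx * (((Ioc 0 X).filter goodIdx).card : ℝ) ^ (1 - thx) := by
  have hb := thx_bounds
  have hge : ∀ m, 0 ≤ cm (tz (Real.exp 1)) m :=
    cm_nonneg (fun p _ => (tz_pos (Real.exp_pos 1) p).le)
  have hpq : (1 / thx).HolderConjugate (1 / (1 - thx)) := by
    rw [Real.holderConjugate_iff]
    constructor
    · rw [lt_div_iff₀ (by linarith)]; linarith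
    · simp
  have h := Real.inner_le_Lp_mul_Lq_of_nonneg ((Ioc 0 X).filter goodIdx) hpq
    (f := fun m => (cm (tz (Real.exp 1)) m) ^ thx) (g := fun _ => 1)
    (fun m _ => Real.rpow_nonneg (hge m) _) (fun _ _ => zero_le_one)
  have e1 : ∀ m, ((cm (tz (Real.exp 1)) m) ^ thx) ^ (1 / thx) = cm (tz (Real.exp 1)) m := by
    intro m
    rw [← Real.rpow_mul (hge m), mul_one_div_cancel (by linarith), Real.rpow_one]
  simp only [mul_one, e1, Real.one_rpow, one_div_one_div, Finset.sum_const, nsmul_eq_mul] at h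
  refine h.trans ?_
  apply mul_le_mul_of_nonneg_right _ (Real.rpow_nonneg (Nat.cast_nonneg _) _)
  apply Real.rpow_le_rpow (Finset.sum_nonneg fun m _ => hge m) _ (by linarith)
  unfold gS
  apply Finset.sum_le_sum_of_subset_of_nonneg (Finset.filter_subset _ _)
  intro m _ _
  exact hge m

theorem gp_le_of_le : ∃ C : ℝ, 0 < C ∧ ∀ K N : ℕ, 3 ≤ N → 1 ≤ K → K ≤ N →
    ((gp K N).card : ℝ) ≤ C * K * N / (Real.log N) ^ (2 - Real.exp 1 * Real.log 2) := by
  obtain ⟨C, hC0, hC⟩ := gS_le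
  have hzb := zx_bounds
  have htb := thx_bounds
  have hz0 : 0 < zx := by linarith
  obtain ⟨D, hD0, hD⟩ := sum_single_le hz0 (by linarith) (by linarith)
  set E := Real.exp 1 with hE
  have hE1 : 2.7 < E := by have := Real.exp_one_gt_d9; linarith
  have hE2 : E < 2.8 := by have := Real.exp_one_lt_d9; linarith
  set A : ℝ := (C * 3 ^ (E - 1)) ^ thx * 98400 ^ (1 - thx) * (2 * D) with hA
  have hA0 : 0 < A := by positivity
  refine ⟨Real.sqrt A, Real.sqrt_pos.mpr hA0, ?_⟩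
  intro K N hN hK hKN
  have hN3 : (3:ℝ) ≤ N := by exact_mod_cast hN
  have hK1 : (1:ℝ) ≤ K := by exact_mod_cast hK
  set X : ℕ := K * N with hX
  have hNX : N ≤ X := Nat.le_mul_of_pos_left N hK
  have hXr : (X:ℝ) = K * N := by rw [hX]; push_cast; ring
  have hX0 : (0:ℝ) < X := by rw [hXr]; positivity
  set l := Real.log N with hl
  have hl1 : 1 < l := by
    rw [hl, Real.lt_log_iff_exp_lt (by linarith)]
    have := Real.exp_one_lt_d9
    linarith
  have hl0 : 0 < l := by linarith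
  have hlX : l ≤ Real.log X := Real.log_le_log (by linarith) (by exact_mod_cast hNX)
  have hlX2 : 1 + Real.log X ≤ 3 * l := by
    have h1 : Real.log X ≤ Real.log ((N:ℝ) * N) := by
      apply Real.log_le_log hX0
      rw [hXr]
      have : (K:ℝ) ≤ N := by exact_mod_cast hKN
      gcongr
    rw [Real.log_mul (by linarith) (by linarith)] at h1
    linarith
  -- the three ingredients
  have i1 : gS E X ≤ (C * 3 ^ (E - 1)) * X * l ^ (E - 1) := by
    have h1 := hC E (by linarith) le_rfl X (by omega)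
    have h2 : (1 + Real.log X) ^ (E - 1) ≤ (3 * l) ^ (E - 1) :=
      Real.rpow_le_rpow (by linarith) hlX2 (by linarith)
    rw [Real.mul_rpow (by norm_num) hl0.le] at h2
    calc gS E X ≤ C * X * (1 + Real.log X) ^ (E - 1) := h1
      _ ≤ C * X * (3 ^ (E - 1) * l ^ (E - 1)) := by gcongr
      _ = _ := by ring
  have i2 : (((Ioc 0 X).filter goodIdx).card : ℝ) ≤ 98400 * X * l ^ (-1 : ℝ) := by
    have h1 := card_goodIdx_le (X := X) (by omega)
    have e : Icc 1 X = Ioc 0 X := by ext a; simp [Nat.succ_le_iff]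
    rw [e] at h1
    rw [Real.rpow_neg_one, ← div_eq_mul_inv]
    refine h1.trans ?_
    gcongr
  have i3 : ∑ m ∈ Ioc 0 X, cm (tz zx) m * (rp K N m : ℝ) ^ 2 ≤ (2 * D) * X * l ^ (E - 3) := by
    rw [hX, sum_weight_rp]
    have h1 := second_moment hz0 K N
    have h2 := hD K N hK hKN
    have h3 : ((Nat.log 2 N : ℝ) + 1) ^ (4 * zx - 3) ≤ l ^ (4 * zx - 3) := by
      apply Real.rpow_le_rpow_of_nonpos hl0 _ (by linarith)
      have h4 : N < 2 ^ (Nat.log 2 N + 1) := Nat.lt_pow_succ_log_self (by norm_num) N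
      have h5 : Real.log N ≤ Real.log ((2:ℝ) ^ (Nat.log 2 N + 1)) := by
        apply Real.log_le_log (by linarith)
        exact_mod_cast h4.le
      rw [Real.log_pow] at h5
      push_cast at h5
      have h6 := Real.log_two_lt_d9
      have h7 : (0:ℝ) ≤ (Nat.log 2 N : ℝ) := Nat.cast_nonneg _
      nlinarith
    have e4 : 4 * zx - 3 = E - 3 := by unfold zx; ring
    rw [e4] at h2 h3
    calc _ ≤ 2 * ∑ c ∈ Ioc 0 K, cm (tz zx) c * gS zx c * gS zx (K / c) * gS zx (N / c) := h1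
      _ ≤ 2 * (D * K * N * ((Nat.log 2 N : ℝ) + 1) ^ (E - 3)) := by linarith
      _ ≤ 2 * (D * K * N * l ^ (E - 3)) := by gcongr
      _ = _ := by push_cast; ring
  have i4 : ∑ m ∈ (Ioc 0 X).filter goodIdx, (cm (tz E) m) ^ thx ≤
      (C * 3 ^ (E - 1)) ^ thx * 98400 ^ (1 - thx) * X * l ^ (E * thx - 1) := by
    refine (holder_step X).trans ?_
    have h1 : (gS E X) ^ thx ≤ ((C * 3 ^ (E - 1)) * X * l ^ (E - 1)) ^ thx :=
      Real.rpow_le_rpow (gS_nonneg (Real.exp_pos 1) X) i1 (by linarith)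
    have h2 : (((Ioc 0 X).filter goodIdx).card : ℝ) ^ (1 - thx) ≤
        (98400 * X * l ^ (-1 : ℝ)) ^ (1 - thx) :=
      Real.rpow_le_rpow (Nat.cast_nonneg _) i2 (by linarith)
    have p1 : 0 ≤ l ^ (E - 1) := Real.rpow_nonneg hl0.le _
    have p2 : 0 ≤ l ^ (-1 : ℝ) := Real.rpow_nonneg hl0.le _
    rw [Real.mul_rpow (by positivity) p1, Real.mul_rpow (by positivity) hX0.le,
      ← Real.rpow_mul hl0.le] at h1
    rw [Real.mul_rpow (by positivity) p2, Real.mul_rpow (by positivity) hX0.le,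
      ← Real.rpow_mul hl0.le] at h2
    have e5 : (X:ℝ) ^ thx * (X:ℝ) ^ (1 - thx) = X := by
      rw [← Real.rpow_add hX0]; simp
    have e6 : l ^ ((E - 1) * thx) * l ^ (-1 * (1 - thx)) = l ^ (E * thx - 1) := by
      rw [← Real.rpow_add hl0]; congr 1; ring
    calc (gS E X) ^ thx * (((Ioc 0 X).filter goodIdx).card : ℝ) ^ (1 - thx)
        ≤ ((C * 3 ^ (E - 1)) ^ thx * (X:ℝ) ^ thx * l ^ ((E - 1) * thx)) *
          ((98400:ℝ) ^ (1 - thx) * (X:ℝ) ^ (1 - thx) * l ^ (-1 * (1 - thx))) := by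
          apply mul_le_mul h1 h2 (Real.rpow_nonneg (Nat.cast_nonneg _) _) (by positivity)
      _ = (C * 3 ^ (E - 1)) ^ thx * 98400 ^ (1 - thx) * ((X:ℝ) ^ thx * (X:ℝ) ^ (1 - thx)) *
          (l ^ ((E - 1) * thx) * l ^ (-1 * (1 - thx))) := by ring
      _ = _ := by rw [e5, e6]
  have i5 := cs_step K N
  rw [← hX] at i5
  have i6 : ((gp K N).card : ℝ) ^ 2 ≤
      (Real.sqrt A * K * N / l ^ (2 - E * Real.log 2)) ^ 2 := by
    have e7 : l ^ (E * thx - 1) * l ^ (E - 3) = (l ^ (2 - E * Real.log 2))⁻¹ ^ 2 := by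
      rw [← Real.rpow_add hl0, ← Real.rpow_neg hl0.le, ← Real.rpow_natCast, ← Real.rpow_mul hl0.le]
      congr 1
      unfold thx
      push_cast
      ring
    calc ((gp K N).card : ℝ) ^ 2
        ≤ ((C * 3 ^ (E - 1)) ^ thx * 98400 ^ (1 - thx) * X * l ^ (E * thx - 1)) *
          ((2 * D) * X * l ^ (E - 3)) := by
          refine i5.trans ?_
          apply mul_le_mul i4 i3
          · apply Finset.sum_nonneg
            intro m _
            exact mul_nonneg (cm_nonneg (fun p _ => (tz_pos hz0 p).le) m) (sq_nonneg _)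
          · positivity
      _ = A * (K * N) ^ 2 * (l ^ (E * thx - 1) * l ^ (E - 3)) := by rw [hA, ← hXr]; ring
      _ = (Real.sqrt A * K * N / l ^ (2 - E * Real.log 2)) ^ 2 := by
          have hsq := Real.sq_sqrt hA0.le
          rw [e7, div_eq_mul_inv]
          calc A * ((K:ℝ) * N) ^ 2 * (l ^ (2 - E * Real.log 2))⁻¹ ^ 2
              = (Real.sqrt A ^ 2) * ((K:ℝ) * N) ^ 2 * (l ^ (2 - E * Real.log 2))⁻¹ ^ 2 := by
                rw [hsq]
            _ = _ := by ring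
  exact (sq_le_sq₀ (Nat.cast_nonneg _) (by positivity)).mp i6

theorem gp_swap (K N : ℕ) : (gp K N).card = (gp N K).card := by
  apply Finset.card_bij (fun x _ => (x.2, x.1))
  · intro x hx
    rw [gp, Finset.mem_filter, Finset.mem_product] at hx ⊢
    exact ⟨⟨hx.1.2, hx.1.1⟩, by rw [mul_comm]; exact hx.2⟩
  · intro x _ y _ h
    simp only [Prod.mk.injEq] at h
    ext
    · exact h.2
    · exact h.1
  · intro y hy
    refine ⟨(y.2, y.1), ?_, rfl⟩
    rw [gp, Finset.mem_filter, Finset.mem_product] at hy ⊢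
    exact ⟨⟨hy.1.2, hy.1.1⟩, by rw [mul_comm]; exact hy.2⟩

/-- Among the pairs `k ≤ K`, `n ≤ N`, those with `p_{kn}^2 - 2` prime are sparse. -/
theorem gp_le : ∃ C : ℝ, 0 < C ∧ ∀ K N : ℕ, 3 ≤ N → 1 ≤ K →
    ((gp K N).card : ℝ) ≤ C * K * N / (Real.log N) ^ (2 - Real.exp 1 * Real.log 2) := by
  obtain ⟨C, hC0, hC⟩ := gp_le_of_le
  refine ⟨C, hC0, ?_⟩
  intro K N hN hK
  rcases le_total K N with h | h
  · exact hC K N hN hK h
  · have h1 := hC N K (by omega) (by omega) h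
    rw [gp_swap K N]
    have hN3 : (3:ℝ) ≤ N := by exact_mod_cast hN
    have hl0 : 0 < Real.log N := Real.log_pos (by linarith)
    have hlog : Real.log N ≤ Real.log K := Real.log_le_log (by linarith) (by exact_mod_cast h)
    have hexp : 0 ≤ 2 - Real.exp 1 * Real.log 2 := by
      have h1 := Real.exp_one_lt_d9
      have h2 := Real.log_two_lt_d9
      have h3 := Real.exp_pos 1
      have h4 : 0 < Real.log 2 := Real.log_pos (by norm_num)
      nlinarith
    have hpow : (Real.log N) ^ (2 - Real.exp 1 * Real.log 2) ≤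
        (Real.log K) ^ (2 - Real.exp 1 * Real.log 2) := Real.rpow_le_rpow hl0.le hlog hexp
    calc ((gp N K).card : ℝ) ≤ C * N * K / (Real.log K) ^ (2 - Real.exp 1 * Real.log 2) := h1
      _ ≤ C * N * K / (Real.log N) ^ (2 - Real.exp 1 * Real.log 2) := by
          apply div_le_div_of_nonneg_left (by positivity) (Real.rpow_pos_of_pos hl0 _) hpow
      _ = _ := by ring

end

end Pool.Agent.Work.MP_c971ef_nt
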